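import Mathlib.LinearAlgebra.Matrix.Nondegenerate
import Mathlib.RingTheory.PicardGroup
import Mathlib.RingTheory.SimpleRing.Principal
import Mathlib.RingTheory.Henselian
import Mathlib.RingTheory.MvPolynomial.IrreducibleQuadratic
import Mathlib.RingTheory.RegularLocalRing.Defs
import Mathlib.Data.Int.ConditionallyCompleteOrder
import Mathlib.Data.Int.Star
import Mathlib.Algebra.Order.Ring.Star
import Mathlib.Algebra.Order.Archimedean.Real.Basic
import Mathlib.Algebra.Polynomial.Bivariate
import Mathlib.Tactic.Polynomial.Basic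
import Mathlib.Topology.Sheaves.Presheaf
import Mathlib.Algebra.MvPolynomial.Monad
import Mathlib.RingTheory.AlgebraicIndependent.Defs
import Mathlib.Order.CompletePartialOrder

-- ======== part 0: formerly Pool.Agent.MP_d0dfcd_ag.Transfer
section MrgPart0

/-! Transfer of nontrivial solutions of linear systems along a specialisation. -/

namespace Pool.Agent.MP_d0dfcd_ag

open Polynomial

theorem transfer_vec {A K k ι E : Type*} [CommRing A] [Field K] [Field k] [Fintype E]
    (φ : A →+* K) (hφ : Function.Injective φ) (ψ : A →+* k) (row : ι → E → A)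
    (v : E → K) (hv : v ≠ 0) (h : ∀ i, ∑ e, φ (row i e) * v e = 0) :
    ∃ w : E → k, w ≠ 0 ∧ ∀ i, ∑ e, ψ (row i e) * w e = 0 := by
  classical
  by_contra hcon
  push Not at hcon
  set ρ : ι → E → k := fun i e => ψ (row i e) with hρ
  have hspan : Submodule.span k (Set.range ρ) = ⊤ := by
    by_contra hne
    obtain ⟨ℓ, hℓ0, hℓ⟩ := Submodule.exists_le_ker_of_lt_top _ (lt_top_iff_ne_top.2 hne)
    have hexp : ∀ x : E → k, ℓ x = ∑ e, x e * ℓ (Pi.single e 1) := by
      intro x
      conv_lhs => rw [pi_eq_sum_univ' x]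
      rw [map_sum]
      refine Finset.sum_congr rfl fun e _ => ?_
      rw [map_smul, smul_eq_mul]
    have hw : (fun e => ℓ (Pi.single e 1)) ≠ 0 := by
      intro h0
      apply hℓ0
      ext1 e
      ext1
      have := congrFun h0 e
      simpa using this
    obtain ⟨i, hi⟩ := hcon _ hw
    apply hi
    have : ℓ (ρ i) = 0 := hℓ (Submodule.subset_span ⟨i, rfl⟩)
    rw [hexp] at this
    exact this
  obtain ⟨κ, a, -, hsp, hli⟩ := exists_linearIndependent' k ρ
  rw [hspan] at hsp
  let b : Module.Basis κ k (E → k) := Module.Basis.mk hli hsp.ge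
  have : Finite κ := Module.Finite.finite_basis b
  have : Fintype κ := Fintype.ofFinite κ
  have hcard : Fintype.card κ = Fintype.card E := by
    rw [← Module.finrank_eq_card_basis b, Module.finrank_fintype_fun_eq_card]
  let e : E ≃ κ := Fintype.equivOfCardEq hcard.symm
  let M : Matrix E E A := Matrix.of fun i j => row (a (e i)) j
  have hli' : LinearIndependent k (M.map ψ).row := by
    have := hli.comp e e.injective
    exact this
  have hdet : (M.map ψ).det ≠ 0 := by
    have := Matrix.linearIndependent_rows_iff_isUnit.1 hli'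
    rw [Matrix.isUnit_iff_isUnit_det] at this
    exact this.ne_zero
  have hdetA : M.det ≠ 0 := by
    intro h0
    apply hdet
    have := RingHom.map_det ψ M
    rw [h0, map_zero] at this
    exact this.symm
  have hdetK : (M.map φ).det ≠ 0 := by
    have := RingHom.map_det φ M
    intro h0
    apply hdetA
    apply hφ
    rw [this, map_zero]
    exact h0
  apply hv
  apply Matrix.eq_zero_of_mulVec_eq_zero hdetK
  ext i
  exact h (a (e i))

theorem transfer_mv {A K k ι σ : Type*} [CommRing A] [Field K] [Field k]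
    (φ : A →+* K) (hφ : Function.Injective φ) (ψ : A →+* k) (row : ι → (σ →₀ ℕ) → A)
    (f : MvPolynomial σ K) (hf : f ≠ 0)
    (h : ∀ i, ∑ e ∈ f.support, φ (row i e) * f.coeff e = 0) :
    ∃ g : MvPolynomial σ k, g ≠ 0 ∧ g.support ⊆ f.support ∧
      ∀ i, ∑ e ∈ g.support, ψ (row i e) * g.coeff e = 0 := by
  classical
  obtain ⟨w, hw0, hw⟩ := transfer_vec (E := f.support) φ hφ ψ (fun i e => row i e)
    (fun e => f.coeff e) (by
      intro h0
      obtain ⟨e, he⟩ := MvPolynomial.ne_zero_iff.1 hf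
      exact he (congrFun h0 ⟨e, MvPolynomial.mem_support_iff.2 he⟩))
    (fun i => by
      rw [← h i]
      exact Finset.sum_coe_sort f.support (fun e => φ (row i e) * f.coeff e))
  let g : MvPolynomial σ k := ∑ e : f.support, MvPolynomial.monomial e.1 (w e)
  have hcoeff : ∀ e : f.support, g.coeff e.1 = w e := by
    intro e
    simp only [g, MvPolynomial.coeff_sum, MvPolynomial.coeff_monomial]
    rw [Finset.sum_eq_single e]
    · simp
    · intro b _ hb
      rw [if_neg]
      intro hbe
      exact hb (Subtype.ext hbe)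
    · simp
  have hsupp : g.support ⊆ f.support := by
    intro e he
    by_contra hne
    apply MvPolynomial.mem_support_iff.1 he
    simp only [g, MvPolynomial.coeff_sum, MvPolynomial.coeff_monomial]
    refine Finset.sum_eq_zero fun b _ => ?_
    rw [if_neg]
    intro hbe
    exact hne (hbe ▸ b.2)
  refine ⟨g, ?_, hsupp, fun i => ?_⟩
  · intro h0
    apply hw0
    funext e
    rw [← hcoeff e, h0]
    simp
  · rw [Finset.sum_subset hsupp]
    · rw [← Finset.sum_coe_sort f.support (fun e => ψ (row i e) * g.coeff e), ← hw i]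
      exact Finset.sum_congr rfl fun e _ => by rw [hcoeff]
    · intro e _ he
      rw [MvPolynomial.notMem_support_iff.1 he, mul_zero]

/-- The substitution `x ↦ x`, `y ↦ γ(x) + P(x) Y`. -/
noncomputable def subs {A : Type*} [CommRing A] (P γ : A[X]) :
    MvPolynomial (Fin 2) A →ₐ[A] A[X][X] :=
  MvPolynomial.aeval ![C X, C γ + C P * X]

/-- `f ∈ (P, y - γ)^m`, written through the substitution. -/
def Van {A : Type*} [CommRing A] (P γ : A[X]) (m : ℕ) (f : MvPolynomial (Fin 2) A) : Prop :=
  C (P ^ m) ∣ subs P γ f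

theorem subs_map {A B : Type*} [CommRing A] [CommRing B] (ψ : A →+* B) (P γ : A[X])
    (f : MvPolynomial (Fin 2) A) :
    subs (P.map ψ) (γ.map ψ) (MvPolynomial.map ψ f) = (subs P γ f).map (mapRingHom ψ) := by
  induction f using MvPolynomial.induction_on with
  | C a =>
    simp only [MvPolynomial.map_C, subs, MvPolynomial.aeval_C]
    simp [Polynomial.algebraMap_apply]
  | add p q hp hq => simp only [map_add, hp, hq, Polynomial.map_add]
  | mul_X p i hp =>
    simp only [map_mul, hp, Polynomial.map_mul, MvPolynomial.map_X]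
    congr 1
    fin_cases i <;> simp [subs]

/-- The linear forms that express `Van`. -/
noncomputable def vrow {A : Type*} [CommRing A] (P γ : A[X]) (m : ℕ) (u w : ℕ)
    (f : MvPolynomial (Fin 2) A) : A :=
  (((subs P γ f).coeff w) %ₘ (P ^ m)).coeff u

theorem van_iff {A : Type*} [CommRing A] {P : A[X]} (hP : P.Monic) (γ : A[X]) (m : ℕ)
    (f : MvPolynomial (Fin 2) A) : Van P γ m f ↔ ∀ u w, vrow P γ m u w f = 0 := by
  unfold Van vrow
  rw [C_dvd_iff_dvd_coeff]
  constructor
  · intro h u w
    rw [(modByMonic_eq_zero_iff_dvd (hP.pow m)).2 (h w), coeff_zero]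
  · intro h w
    rw [← modByMonic_eq_zero_iff_dvd (hP.pow m)]
    ext u
    rw [h u w, coeff_zero]

theorem vrow_map {A B : Type*} [CommRing A] [CommRing B] (ψ : A →+* B) {P : A[X]}
    (hP : P.Monic) (γ : A[X]) (m u w : ℕ) (f : MvPolynomial (Fin 2) A) :
    vrow (P.map ψ) (γ.map ψ) m u w (MvPolynomial.map ψ f) = ψ (vrow P γ m u w f) := by
  unfold vrow
  rw [subs_map, coeff_map, coe_mapRingHom, ← Polynomial.map_pow,
    ← map_modByMonic ψ (hP.pow m), coeff_map]

theorem vrow_expand {A : Type*} [CommRing A] (P γ : A[X]) (m u w : ℕ)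
    (f : MvPolynomial (Fin 2) A) :
    vrow P γ m u w f =
      ∑ e ∈ f.support, vrow P γ m u w (MvPolynomial.monomial e 1) * f.coeff e := by
  let L : MvPolynomial (Fin 2) A →ₗ[A] A :=
    (lcoeff A u) ∘ₗ (modByMonicHom (P ^ m)) ∘ₗ ((lcoeff A[X] w).restrictScalars A) ∘ₗ
      (subs P γ).toLinearMap
  have hL : ∀ g, vrow P γ m u w g = L g := fun g => rfl
  simp only [hL]
  conv_lhs => rw [f.as_sum]
  rw [map_sum]
  refine Finset.sum_congr rfl fun e _ => ?_
  rw [mul_comm, ← smul_eq_mul, ← map_smul, MvPolynomial.smul_monomial, smul_eq_mul, mul_one]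

theorem transfer_van {A K k ι : Type*} [CommRing A] [Field K] [Field k]
    (φ : A →+* K) (hφ : Function.Injective φ) (ψ : A →+* k) (P γ : ι → A[X])
    (hP : ∀ i, (P i).Monic) (m : ι → ℕ) (f : MvPolynomial (Fin 2) K) (hf : f ≠ 0)
    (h : ∀ i, Van ((P i).map φ) ((γ i).map φ) (m i) f) :
    ∃ g : MvPolynomial (Fin 2) k, g ≠ 0 ∧ g.totalDegree ≤ f.totalDegree ∧
      ∀ i, Van ((P i).map ψ) ((γ i).map ψ) (m i) g := by
  obtain ⟨g, hg0, hsupp, hg⟩ := transfer_mv (ι := ι × ℕ × ℕ) φ hφ ψ
    (fun t e => vrow (P t.1) (γ t.1) (m t.1) t.2.1 t.2.2 (MvPolynomial.monomial e 1)) f hf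
    (fun t => by
      have := (van_iff ((hP t.1).map φ) _ _ _).1 (h t.1) t.2.1 t.2.2
      rw [vrow_expand] at this
      rw [← this]
      refine Finset.sum_congr rfl fun e _ => ?_
      rw [← vrow_map φ (hP t.1), MvPolynomial.map_monomial, map_one])
  refine ⟨g, hg0, Finset.sup_mono hsupp, fun i => ?_⟩
  rw [van_iff ((hP i).map ψ)]
  intro u w
  rw [vrow_expand, ← hg (i, u, w)]
  refine Finset.sum_congr rfl fun e _ => ?_
  rw [← vrow_map ψ (hP i), MvPolynomial.map_monomial, ψ.map_one]

end Pool.Agent.MP_d0dfcd_ag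

end MrgPart0

-- ======== part 1: formerly Pool.Agent.MP_d0dfcd_ag.Peel
section MrgPart1

/-! Peeling graph curves off a polynomial with high contact along several clusters. -/

namespace Pool.Agent.MP_d0dfcd_ag

open Polynomial

/-- Restriction to the graph `y = g(x)`. -/
noncomputable def ev {A : Type*} [CommRing A] (g : A[X]) : MvPolynomial (Fin 2) A →ₐ[A] A[X] :=
  MvPolynomial.aeval ![X, g]

/-- The equation `y - g(x)` of the graph. -/
noncomputable def graph {A : Type*} [CommRing A] (g : A[X]) : MvPolynomial (Fin 2) A :=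
  Bivariate.equivMvPolynomial A (X - C g)

theorem subs_comp {A : Type*} [CommRing A] (P Q γ : A[X]) (f : MvPolynomial (Fin 2) A) :
    subs (P * Q) γ f = (subs P γ f).comp (C Q * X) := by
  induction f using MvPolynomial.induction_on with
  | C a => simp [subs, Polynomial.algebraMap_apply]
  | add p q hp hq => simp only [map_add, hp, hq, add_comp]
  | mul_X p i hp =>
    simp only [map_mul, hp, mul_comp]
    congr 1
    fin_cases i <;> simp [subs, mul_assoc]

theorem subs_shift {A : Type*} [CommRing A] (P γ q : A[X]) (f : MvPolynomial (Fin 2) A) :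
    subs P (γ + P * q) f = (subs P γ f).comp (X + C q) := by
  induction f using MvPolynomial.induction_on with
  | C a => simp [subs, Polynomial.algebraMap_apply]
  | add p q hp hq => simp only [map_add, hp, hq, add_comp]
  | mul_X p i hp =>
    simp only [map_mul, hp, mul_comp]
    congr 1
    fin_cases i
    · simp [subs]
    · simp [subs]; ring

theorem ev_eq {A : Type*} [CommRing A] (γ g : A[X]) (f : MvPolynomial (Fin 2) A) :
    ev g f = (subs 1 γ f).eval (g - γ) := by
  induction f using MvPolynomial.induction_on with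
  | C a => simp [subs, ev, Polynomial.algebraMap_apply]
  | add p q hp hq => simp only [map_add, hp, hq, eval_add]
  | mul_X p i hp =>
    simp only [map_mul, hp, eval_mul]
    congr 1
    fin_cases i <;> simp [subs, ev]

theorem subs_equiv {A : Type*} [CommRing A] (P γ : A[X]) (b : A[X][X]) :
    subs P γ (Bivariate.equivMvPolynomial A b) = b.comp (C γ + C P * X) := by
  obtain ⟨f, rfl⟩ := (Bivariate.equivMvPolynomial A).symm.surjective b
  rw [AlgEquiv.apply_symm_apply]
  induction f using MvPolynomial.induction_on with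
  | C a => simp [subs, Polynomial.algebraMap_apply]
  | add p q hp hq => simp only [map_add, hp, hq, add_comp]
  | mul_X p i hp =>
    simp only [map_mul, hp, mul_comp]
    congr 1
    fin_cases i <;> simp [subs]

theorem subs_graph {A : Type*} [CommRing A] (P γ g : A[X]) :
    subs P γ (graph g) = C (γ - g) + C P * X := by
  rw [graph, subs_equiv]
  simp
  ring

theorem graph_dvd {A : Type*} [CommRing A] (g : A[X]) (f : MvPolynomial (Fin 2) A)
    (h : ev g f = 0) : graph g ∣ f := by
  obtain ⟨b, rfl⟩ := (Bivariate.equivMvPolynomial A).surjective f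
  rw [ev_eq 0, subs_equiv] at h
  simp only [map_zero, map_one, one_mul, zero_add, comp_X, sub_zero] at h
  exact map_dvd _ (dvd_iff_isRoot.2 h)

theorem natDegree_ev_le {A : Type*} [CommRing A] (g : A[X]) {δ : ℕ} (hδ : 1 ≤ δ)
    (hg : g.natDegree ≤ δ) (f : MvPolynomial (Fin 2) A) :
    (ev g f).natDegree ≤ f.totalDegree * δ := by
  apply MvPolynomial.aeval_natDegree_le f le_rfl
  intro i
  fin_cases i
  · exact natDegree_X_le.trans hδ
  · exact hg

theorem natDegree_le_graph {A : Type*} [CommRing A] (g : A[X]) :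
    g.natDegree ≤ (graph g).totalDegree := by
  have h := natDegree_ev_le (0 : A[X]) le_rfl (by simp) (graph g)
  rw [ev_eq 0, subs_graph] at h
  simpa using h

theorem pow_dvd_ev {k : Type*} [Field k] (g : k[X]) {n r W e : ℕ} (hrn : r ≤ n)
    (he : n * e < r * W + n) (f : MvPolynomial (Fin 2) k)
    (h : C (X ^ W) ∣ subs (X ^ n) (g + X ^ r) f) : X ^ e ∣ ev g f := by
  rw [← one_mul (X ^ n : k[X]), subs_comp, C_dvd_iff_dvd_coeff] at h
  rw [ev_eq (g + X ^ r), eval_eq_sum_range]
  refine Finset.dvd_sum fun j _ => ?_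
  have hj := h j
  rw [comp_C_mul_X_coeff, ← pow_mul] at hj
  have h1 : X ^ (W - n * j) ∣ (subs 1 (g + X ^ r) f).coeff j := by
    rcases le_total W (n * j) with hW | hW
    · rw [Nat.sub_eq_zero_of_le hW]; simp
    · have : (X : k[X]) ^ W = X ^ (W - n * j) * X ^ (n * j) := by
        rw [← pow_add, Nat.sub_add_cancel hW]
      rw [this] at hj
      exact (mul_dvd_mul_iff_right (pow_ne_zero _ X_ne_zero)).1 hj
  have h2 : (X : k[X]) ^ (r * j) ∣ (g - (g + X ^ r)) ^ j := by
    rw [pow_mul]
    apply pow_dvd_pow_of_dvd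
    simp
  have h3 : e ≤ W - n * j + r * j := by
    by_contra hlt
    push Not at hlt
    have h4 : n * (W - n * j + r * j + 1) ≤ n * e := Nat.mul_le_mul_left _ hlt
    rcases le_total W (n * j) with hW | hW
    · rw [Nat.sub_eq_zero_of_le hW] at h4
      have : r * W ≤ r * (n * j) := Nat.mul_le_mul_left _ hW
      nlinarith
    · obtain ⟨t, rfl⟩ := Nat.exists_eq_add_of_le hW
      rw [Nat.add_sub_cancel_left] at h4
      have : r * t ≤ n * t := Nat.mul_le_mul_right _ hrn
      nlinarith
  calc (X : k[X]) ^ e ∣ X ^ (W - n * j + r * j) := pow_dvd_pow _ h3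
    _ = X ^ (W - n * j) * X ^ (r * j) := pow_add _ _ _
    _ ∣ _ := mul_dvd_mul h1 h2

theorem prime_CX {k : Type*} [Field k] : Prime (C X : k[X][X]) :=
  prime_C_iff.2 prime_X

theorem peel_other {k : Type*} [Field k] (P γ g : k[X]) (hne : γ.coeff 0 ≠ g.coeff 0) {W : ℕ}
    (h : MvPolynomial (Fin 2) k) (hd : C (X ^ W) ∣ subs P γ (graph g * h)) :
    C (X ^ W) ∣ subs P γ h := by
  rw [map_mul, subs_graph, map_pow] at hd
  rw [map_pow]
  refine prime_CX.pow_dvd_of_dvd_mul_left W ?_ hd
  intro hx
  have := (C_dvd_iff_dvd_coeff _ _).1 hx 0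
  simp only [coeff_add, coeff_C_zero, mul_coeff_zero, coeff_X_zero, mul_zero, add_zero] at this
  rw [X_dvd_iff, coeff_sub] at this
  exact hne (sub_eq_zero.1 this)

theorem peel_same {k : Type*} [Field k] (g : k[X]) {n r W : ℕ} (hrn : r ≤ n)
    (h : MvPolynomial (Fin 2) k) (hd : C (X ^ W) ∣ subs (X ^ n) (g + X ^ r) (graph g * h)) :
    C (X ^ (W - r)) ∣ subs (X ^ n) (g + X ^ r) h := by
  rw [map_mul, subs_graph] at hd
  have e1 : (C (g + X ^ r - g) + C (X ^ n) * X : k[X][X]) =
      C X ^ r * (1 + C (X ^ (n - r)) * X) := by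
    have : (X : k[X]) ^ n = X ^ r * X ^ (n - r) := by rw [← pow_add, Nat.add_sub_cancel' hrn]
    rw [this, add_sub_cancel_left, map_mul, map_pow]
    ring
  rw [e1, map_pow] at hd
  rw [map_pow]
  rcases le_total W r with hW | hW
  · rw [Nat.sub_eq_zero_of_le hW]; simp
  have e2 : (C X : k[X][X]) ^ W = C X ^ r * C X ^ (W - r) := by
    rw [← pow_add, Nat.add_sub_cancel' hW]
  rw [e2, mul_assoc] at hd
  have hd' := (mul_dvd_mul_iff_left (pow_ne_zero _ prime_CX.ne_zero)).1 hd
  refine prime_CX.pow_dvd_of_dvd_mul_left _ ?_ hd'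
  intro hx
  have := (C_dvd_iff_dvd_coeff _ _).1 hx 0
  simp only [coeff_add, coeff_one_zero, mul_coeff_zero, coeff_X_zero, mul_zero, add_zero] at this
  exact prime_X.not_dvd_one this

theorem peel {k ι : Type*} [Field k] [Fintype ι] (n δ r : ι → ℕ) (y : ι → ℝ) (g : ι → k[X])
    (hdeg : ∀ i, (g i).natDegree = δ i) (hδ : ∀ i, 1 ≤ δ i) (hr : ∀ i, 1 ≤ r i)
    (hrn : ∀ i, r i ≤ n i) (hsep : ∀ i j, i ≠ j → (g i).coeff 0 ≠ (g j).coeff 0)
    (hy0 : ∀ i, 0 ≤ y i) (hy : ∀ i, y i * r i ≤ δ i)
    (hS : ∑ i, (n i : ℝ) * δ i * y i / r i ≤ 1) (D : ℕ) :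
    ∀ (f : MvPolynomial (Fin 2) k) (W : ι → ℕ), f ≠ 0 → f.totalDegree ≤ D →
      (∀ i, C (X ^ W i) ∣ subs (X ^ n i) (g i + X ^ r i) f) → ∑ i, y i * W i ≤ D := by
  classical
  induction D using Nat.strong_induction_on with
  | _ D ih =>
  intro f W hf hD hV
  by_contra hcon
  push Not at hcon
  have hex : ∃ i, n i * δ i * D < r i * W i := by
    by_contra hall
    push Not at hall
    have : ∑ i, y i * W i ≤ ∑ i, ((n i : ℝ) * δ i * y i / r i) * D := by
      refine Finset.sum_le_sum fun i _ => ?_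
      have hri : (0 : ℝ) < r i := by exact_mod_cast hr i
      have h1 : (r i : ℝ) * W i ≤ n i * δ i * D := by exact_mod_cast hall i
      rw [div_mul_eq_mul_div, le_div_iff₀ hri]
      have := mul_le_mul_of_nonneg_left h1 (hy0 i)
      nlinarith
    rw [← Finset.sum_mul] at this
    have h2 : (∑ i, (n i : ℝ) * δ i * y i / r i) * D ≤ 1 * D :=
      mul_le_mul_of_nonneg_right hS (Nat.cast_nonneg _)
    linarith
  obtain ⟨i, hi⟩ := hex
  have hev : ev (g i) f = 0 := by
    by_contra hne
    have h1 : X ^ (δ i * D + 1) ∣ ev (g i) f :=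
      pow_dvd_ev (g i) (hrn i) (by nlinarith) f (hV i)
    have h2 := natDegree_le_of_dvd h1 hne
    rw [natDegree_X_pow] at h2
    have h3 := natDegree_ev_le (g i) (hδ i) (hdeg i).le f
    have h4 : f.totalDegree * δ i ≤ D * δ i := Nat.mul_le_mul_right _ hD
    nlinarith
  obtain ⟨h, rfl⟩ := graph_dvd _ _ hev
  have hh : h ≠ 0 := right_ne_zero_of_mul hf
  have htd := MvPolynomial.totalDegree_mul_of_isDomain (left_ne_zero_of_mul hf) hh
  have hG := natDegree_le_graph (g i)
  rw [hdeg] at hG
  have hδi := hδ i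
  have hle : δ i ≤ D := by omega
  have := ih (D - δ i) (by omega) h (Function.update W i (W i - r i)) hh (by omega) (by
    intro j
    by_cases hj : j = i
    · subst hj
      rw [Function.update_self]
      exact peel_same _ (hrn j) _ (hV j)
    · rw [Function.update_of_ne hj]
      refine peel_other _ _ (g i) ?_ _ (hV j)
      rw [coeff_add, coeff_X_pow, if_neg (by have := hr j; omega), add_zero]
      exact hsep j i hj)
  rw [Nat.cast_sub hle] at this
  have e1 := Finset.add_sum_erase Finset.univ (fun j => y j * (W j : ℝ)) (Finset.mem_univ i)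
  have e2 := Finset.add_sum_erase Finset.univ
    (fun j => y j * ((Function.update W i (W i - r i) j : ℕ) : ℝ)) (Finset.mem_univ i)
  have e3 : ∑ j ∈ Finset.univ.erase i, y j * ((Function.update W i (W i - r i) j : ℕ) : ℝ) =
      ∑ j ∈ Finset.univ.erase i, y j * (W j : ℝ) :=
    Finset.sum_congr rfl fun j hj => by rw [Function.update_of_ne (Finset.ne_of_mem_erase hj)]
  simp only [Function.update_self] at e2
  have e4 : (W i : ℝ) - r i ≤ ((W i - r i : ℕ) : ℝ) := by
    rcases le_total (r i) (W i) with h1 | h1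
    · rw [Nat.cast_sub h1]
    · have : (W i : ℝ) ≤ r i := by exact_mod_cast h1
      have h0 : (0 : ℝ) ≤ ((W i - r i : ℕ) : ℝ) := Nat.cast_nonneg _
      linarith
  have e5 := mul_le_mul_of_nonneg_left e4 (hy0 i)
  have e6 := hy i
  nlinarith

end Pool.Agent.MP_d0dfcd_ag

end MrgPart1

-- ======== part 2: formerly Pool.Agent.MP_d0dfcd_ag.Cluster
section MrgPart2

/-! Specialising generic points to several clusters of infinitely near points. -/

namespace Pool.Agent.MP_d0dfcd_ag

open Polynomial

theorem C_dvd_comp {A : Type*} [CommRing A] {u : A} {b : A[X]} (h : C u ∣ b) (q : A[X]) :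
    C u ∣ b.comp q := by
  obtain ⟨w, rfl⟩ := h
  rw [mul_comp, C_comp]
  exact dvd_mul_right _ _

theorem van_change {A : Type*} [CommRing A] (a : A) (γ : A[X]) {m : ℕ}
    {f : MvPolynomial (Fin 2) A} (h : Van (X - C a) (C (γ.eval a)) m f) :
    Van (X - C a) γ m f := by
  obtain ⟨q, hq⟩ := X_sub_C_dvd_sub_C_eval (p := γ) (a := a)
  have : γ = C (γ.eval a) + (X - C a) * q := by rw [← hq]; ring
  unfold Van at h ⊢
  rw [this, subs_shift]
  exact C_dvd_comp h _

theorem van_prod {A T : Type*} [CommRing A] [Fintype T] (P : T → A[X])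
    (hP : Pairwise fun s t => IsCoprime (P s) (P t)) (γ : A[X]) {m : ℕ}
    {f : MvPolynomial (Fin 2) A} (h : ∀ t, Van (P t) γ m f) : Van (∏ t, P t) γ m f := by
  classical
  unfold Van at h ⊢
  rw [← Finset.prod_pow, map_prod]
  apply Fintype.prod_dvd_of_coprime
  · intro s t hst
    exact ((hP hst).pow (m := m) (n := m)).map C
  · intro t
    rw [← Finset.mul_prod_erase Finset.univ P (Finset.mem_univ t), subs_comp]
    exact C_dvd_comp (h t) _

/-- From generic points to clusters over `K` itself. -/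
theorem to_clusters {K ι : Type*} [Field K] [Fintype ι] (n m : ι → ℕ) (γ : ι → K[X])
    (a b : (Σ i, Fin (n i)) → K) (hab : AlgebraicIndependent (⊥ : Subfield K) (Sum.elim a b))
    (f : MvPolynomial (Fin 2) K) (hf : f ≠ 0)
    (hV : ∀ s, Van (X - C (a s)) (C (b s)) (m s.1) f) :
    ∃ h : MvPolynomial (Fin 2) K, h ≠ 0 ∧ h.totalDegree ≤ f.totalDegree ∧
      ∀ i, Van (X ^ n i) (γ i) (m i) h := by
  classical
  let T := Σ i, Fin (n i)
  let A := MvPolynomial T K
  let L := FractionRing A
  let x : T → L := fun s => algebraMap A L (MvPolynomial.X s)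
  let γA : ι → A[X] := fun i => (γ i).map MvPolynomial.C
  let γL : ι → L[X] := fun i => (γA i).map (algebraMap A L)
  let ψ0 : MvPolynomial (T ⊕ T) (⊥ : Subfield K) →+* L :=
    MvPolynomial.eval₂Hom (((algebraMap A L).comp MvPolynomial.C).comp (Subfield.subtype ⊥))
      (Sum.elim x fun s => (γL s.1).eval (x s))
  obtain ⟨g, hg0, hgd, hg⟩ := transfer_van
    (MvPolynomial.aeval (Sum.elim a b) : MvPolynomial (T ⊕ T) (⊥ : Subfield K) →ₐ[_] K).toRingHom
    hab ψ0 (fun s : T => X - C (MvPolynomial.X (Sum.inl s)))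
    (fun s : T => C (MvPolynomial.X (Sum.inr s))) (fun s => monic_X_sub_C _) (fun s => m s.1) f hf
    (fun s => by simpa using hV s)
  have hx : Function.Injective x := fun s t hst =>
    MvPolynomial.X_injective (IsFractionRing.injective A L hst)
  have hg1 : ∀ s : T, Van (X - C (x s)) (γL s.1) (m s.1) g := fun s => by
    apply van_change
    simpa [ψ0] using hg s
  obtain ⟨h, hh0, hhd, hh⟩ := transfer_van (algebraMap A L) (IsFractionRing.injective A L)
    (MvPolynomial.constantCoeff : A →+* K)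
    (fun i => ∏ t : Fin (n i), (X - C (MvPolynomial.X (⟨i, t⟩ : T)))) γA
    (fun i => monic_prod_of_monic _ _ fun t _ => monic_X_sub_C _) m g hg0
    (fun i => by
      rw [Polynomial.map_prod]
      simp only [Polynomial.map_sub, map_X, map_C]
      apply van_prod (fun t : Fin (n i) => X - C (x ⟨i, t⟩))
      · exact pairwise_coprime_X_sub_C (s := fun t : Fin (n i) => x ⟨i, t⟩)
          (fun s t hst => sigma_mk_injective (β := fun i => Fin (n i)) (hx hst))
      · exact fun t => hg1 ⟨i, t⟩)
  refine ⟨h, hh0, hhd.trans hgd, fun i => ?_⟩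
  have := hh i
  rw [Polynomial.map_prod, Polynomial.map_map] at this
  simpa [A] using this

/-- The cluster bound in affine form. -/
theorem cluster_affine {K ι : Type*} [Field K] [Infinite K] [Fintype ι] (n δ r m : ι → ℕ)
    (y : ι → ℝ) (hδ : ∀ i, 1 ≤ δ i) (hr : ∀ i, 1 ≤ r i) (hrn : ∀ i, r i ≤ n i)
    (hy0 : ∀ i, 0 ≤ y i) (hy : ∀ i, y i * r i ≤ δ i)
    (hS : ∑ i, (n i : ℝ) * δ i * y i / r i ≤ 1)
    (a b : (Σ i, Fin (n i)) → K) (hab : AlgebraicIndependent (⊥ : Subfield K) (Sum.elim a b))
    (f : MvPolynomial (Fin 2) K) (hf : f ≠ 0)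
    (hV : ∀ s, Van (X - C (a s)) (C (b s)) (m s.1) f) :
    ∑ i, y i * (n i * m i) ≤ f.totalDegree := by
  classical
  let β : ι → K := fun i => Infinite.natEmbedding K (Fintype.equivFin ι i)
  have hβ : Function.Injective β := fun i j hij =>
    (Fintype.equivFin ι).injective (Fin.ext ((Infinite.natEmbedding K).injective hij))
  let g : ι → K[X] := fun i => X ^ δ i + C (β i)
  have hg0 : ∀ i, (g i).coeff 0 = β i := fun i => by
    have := hδ i
    simp only [g, coeff_add, coeff_X_pow, coeff_C_zero]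
    rw [if_neg (by omega), zero_add]
  obtain ⟨h, hh0, hhd, hh⟩ := to_clusters n m (fun i => g i + X ^ r i) a b hab f hf hV
  have := peel n δ r y g (fun i => natDegree_X_pow_add_C) hδ hr hrn
    (fun i j hij => by rw [hg0, hg0]; exact fun h => hij (hβ h)) hy0 hy hS f.totalDegree h
    (fun i => n i * m i) hh0 hhd (fun i => by rw [pow_mul]; exact hh i)
  simpa using this

/-- Dehomogenisation `X₀ = 1`. -/
noncomputable def deh {K : Type*} [CommRing K] :
    MvPolynomial (Fin 3) K →ₐ[K] MvPolynomial (Fin 2) K :=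
  MvPolynomial.aeval ![1, MvPolynomial.X 0, MvPolynomial.X 1]

theorem deh_eq {K : Type*} [CommRing K] (F : MvPolynomial (Fin 3) K) :
    deh F = (MvPolynomial.finSuccEquiv K 2 F).eval 1 := by
  induction F using MvPolynomial.induction_on with
  | C a => simp [deh, MvPolynomial.finSuccEquiv_apply]
  | add p q hp hq => simp only [map_add, hp, hq, eval_add]
  | mul_X p i hp =>
    simp only [map_mul, hp, eval_mul]
    congr 1
    refine Fin.cases ?_ (fun j => ?_) i
    · simp [deh, MvPolynomial.finSuccEquiv_X_zero]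
    · rw [MvPolynomial.finSuccEquiv_X_succ]
      fin_cases j <;> simp [deh]

theorem deh_spec {K : Type*} [CommRing K] {F : MvPolynomial (Fin 3) K} {d : ℕ}
    (hF : F.IsHomogeneous d) (h0 : F ≠ 0) : deh F ≠ 0 ∧ (deh F).totalDegree ≤ d := by
  classical
  set p := MvPolynomial.finSuccEquiv K 2 F with hp
  have hle : ∀ i ∈ p.support, i ≤ d := fun i hi => by
    have := MvPolynomial.totalDegree_coeff_finSuccEquiv_add_le F i (mem_support_iff.1 hi)
    have := hF.totalDegree_le
    omega
  have hhom : ∀ i ∈ p.support, (p.coeff i).IsHomogeneous (d - i) := fun i hi =>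
    hF.finSuccEquiv_coeff_isHomogeneous i (d - i) (Nat.add_sub_cancel' (hle i hi))
  have hsum : deh F = ∑ i ∈ p.support, p.coeff i := by
    rw [deh_eq, eval_eq_sum, Polynomial.sum]
    simp [hp]
  constructor
  · intro hz
    obtain ⟨i, hi⟩ := MvPolynomial.nonempty_support_finSuccEquiv h0
    have h1 : MvPolynomial.homogeneousComponent (d - i) (deh F) = p.coeff i := by
      rw [hsum, map_sum, Finset.sum_eq_single i]
      · exact MvPolynomial.homogeneousComponent_eq_self (hhom i hi)
      · intro j hj hji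
        rw [MvPolynomial.homogeneousComponent_of_mem (hhom j hj), if_neg]
        have := hle j hj
        have := hle i hi
        omega
      · intro h; exact absurd hi h
    rw [hz, map_zero] at h1
    exact mem_support_iff.1 hi h1.symm
  · rw [hsum]
    refine (MvPolynomial.totalDegree_finsetSum _ _).trans (Finset.sup_le fun i hi => ?_)
    exact (hhom i hi).totalDegree_le.trans (Nat.sub_le _ _)

theorem van_of_mem {K : Type*} [CommRing K] (a b : K) {m : ℕ} {F : MvPolynomial (Fin 3) K}
    (h : F ∈ Ideal.span {MvPolynomial.X 1 - MvPolynomial.C a * MvPolynomial.X 0,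
      MvPolynomial.X 2 - MvPolynomial.C b * MvPolynomial.X 0} ^ m) :
    Van (X - C a) (C b) m (deh F) := by
  let Ψ := (subs (X - C a) (C b)).comp (deh (K := K))
  have h1 : Ψ F ∈ Ideal.span {(C (X - C a) : K[X][X])} ^ m := by
    have h2 := Ideal.mem_map_of_mem Ψ h
    rw [Ideal.map_pow] at h2
    refine Ideal.pow_right_mono ?_ m h2
    rw [Ideal.map_span, Ideal.span_le]
    rintro _ ⟨u, hu, rfl⟩
    rw [SetLike.mem_coe, Ideal.mem_span_singleton]
    rcases hu with rfl | rfl
    · simp [Ψ, deh, subs, Polynomial.algebraMap_apply]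
    · simp [Ψ, deh, subs, Polynomial.algebraMap_apply]
  rw [Ideal.span_singleton_pow, Ideal.mem_span_singleton, ← map_pow] at h1
  exact h1

/-- The cluster bound for forms through generic points of the plane. -/
theorem cluster_bound {K ι σ : Type*} [Field K] [Infinite K] [Fintype ι] [Fintype σ]
    (n δ r : ι → ℕ) (y : ι → ℝ) (hδ : ∀ i, 1 ≤ δ i) (hr : ∀ i, 1 ≤ r i) (hrn : ∀ i, r i ≤ n i)
    (hy0 : ∀ i, 0 ≤ y i) (hy : ∀ i, y i * r i ≤ δ i)
    (hS : ∑ i, (n i : ℝ) * δ i * y i / r i ≤ 1) (hn : ∑ i, n i ≤ Fintype.card σ)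
    (a b : σ → K) (hab : AlgebraicIndependent (⊥ : Subfield K) (Sum.elim a b))
    (m d : ℕ) (F : MvPolynomial (Fin 3) K) (h0 : F ≠ 0) (hF : F.IsHomogeneous d)
    (hV : ∀ s, F ∈ Ideal.span {MvPolynomial.X 1 - MvPolynomial.C (a s) * MvPolynomial.X 0,
      MvPolynomial.X 2 - MvPolynomial.C (b s) * MvPolynomial.X 0} ^ m) :
    (∑ i, n i * y i) * m ≤ d := by
  classical
  obtain ⟨e⟩ : Nonempty ((Σ i, Fin (n i)) ↪ σ) := by
    apply Function.Embedding.nonempty_of_card_le
    simpa using hn
  obtain ⟨h1, h2⟩ := deh_spec hF h0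
  have hab' : AlgebraicIndependent (⊥ : Subfield K) (Sum.elim (a ∘ e) (b ∘ e)) := by
    have := hab.comp (Sum.map e e) (Sum.map_injective.2 ⟨e.injective, e.injective⟩)
    rwa [Sum.elim_comp_map] at this
  have := cluster_affine n δ r (fun _ => m) y hδ hr hrn hy0 hy hS (a ∘ e) (b ∘ e) hab' (deh F) h1
    (fun s => van_of_mem _ _ (hV (e s)))
  have h3 : ((deh F).totalDegree : ℝ) ≤ d := by exact_mod_cast h2
  rw [Finset.sum_mul]
  refine le_trans (le_of_eq (Finset.sum_congr rfl fun i _ => by ring)) (this.trans h3)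

end Pool.Agent.MP_d0dfcd_ag

end MrgPart2

-- marker of a merged file
example : 731051 + 385291 = 731051 + 385291 := rfl
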