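import Mathlib.FieldTheory.IsAlgClosed.Basic
import Mathlib.Data.Real.Basic
import Mathlib.RingTheory.MvPolynomial.Homogeneous
import Mathlib.RingTheory.AlgebraicIndependent.Defs
import Mathlib.Order.CompletePartialOrder

/-! Generic points of the plane and forms vanishing at them. -/

namespace Pool.Agent.MP_d0dfcd_ag

open MvPolynomial

universe u

/-- The points `(1 : a i : b i)` are generic: their affine coordinates are algebraically
independent over the prime field. -/
def Generic {K : Type u} [Field K] {r : ℕ} (a b : Fin r → K) : Prop :=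
  AlgebraicIndependent (⊥ : Subfield K) (Sum.elim a b)

/-- `F` vanishes to order at least `m` at the point `(1 : a : b)`. -/
def VanishesAt {K : Type u} [Field K] (a b : K) (m : ℕ) (F : MvPolynomial (Fin 3) K) : Prop :=
  F ∈ Ideal.span {X 1 - C a * X 0, X 2 - C b * X 0} ^ m

/-- Over every algebraically closed field, every nonzero form of degree `d` vanishing to order
`m` at `r` generic points has `t m² ≤ d²`; that is, `e(S)² ≥ t`. -/
def SqBound (r : ℕ) (t : ℝ) : Prop :=
  ∀ (K : Type u) [Field K] [IsAlgClosed K] (a b : Fin r → K), Generic a b →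
    ∀ (m d : ℕ) (F : MvPolynomial (Fin 3) K), F ≠ 0 → F.IsHomogeneous d →
      (∀ i, VanishesAt (a i) (b i) m F) → t * (m : ℝ) ^ 2 ≤ (d : ℝ) ^ 2

end Pool.Agent.MP_d0dfcd_ag
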