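import Pool.Agent.MP_d0dfcd_ag.Defs

/-! The bound `e(S)² ≥ t` in characteristic zero or large characteristic. -/

namespace Pool.Agent.MP_d0dfcd_ag

universe u

/-- Over every algebraically closed field of characteristic `0` or `> r ^ 4`, every nonzero form of
degree `d` vanishing to order `m` at `r` generic points has `t m² ≤ d²`. -/
def SqBoundLarge (r : ℕ) (t : ℝ) : Prop :=
  ∀ (K : Type u) [Field K] [IsAlgClosed K], (∀ k : ℕ, 0 < k → k ≤ r ^ 4 → (k : K) ≠ 0) →
    ∀ a b : Fin r → K, Generic a b →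
    ∀ (m d : ℕ) (F : MvPolynomial (Fin 3) K), F ≠ 0 → F.IsHomogeneous d →
      (∀ i, VanishesAt (a i) (b i) m F) → t * (m : ℝ) ^ 2 ≤ (d : ℝ) ^ 2

end Pool.Agent.MP_d0dfcd_ag
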