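import Pool.Agent.MP_d0dfcd_ag.Defs

/-! Nagata's inequality for bounded multiplicities. -/

namespace Pool.Agent.MP_d0dfcd_ag

universe u

/-- Over every algebraically closed field of characteristic `0` or `> r ^ 4`, every nonzero form of
degree `d` vanishing to order `m i` at `r` generic points, with `c * m i ≤ r ^ 3`, satisfies
`(∑ m i) ^ 2 ≤ r d ^ 2`. -/
def NagataUpTo (r c : ℕ) : Prop :=
  ∀ (K : Type u) [Field K] [IsAlgClosed K], (∀ k : ℕ, 0 < k → k ≤ r ^ 4 → (k : K) ≠ 0) →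
    ∀ a b : Fin r → K, Generic a b →
    ∀ (m : Fin r → ℕ) (d : ℕ) (F : MvPolynomial (Fin 3) K), (∀ i, c * m i ≤ r ^ 3) → F ≠ 0 →
      F.IsHomogeneous d → (∀ i, VanishesAt (a i) (b i) (m i) F) → (∑ i, m i) ^ 2 ≤ r * d ^ 2

end Pool.Agent.MP_d0dfcd_ag
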