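import Pool.Agent.MP_d0dfcd_ag.Cluster
import Mathlib.Tactic.Monotonicity.Lemmas
import Mathlib.Tactic.Bound
import Mathlib.Algebra.Order.Star.Real
import Mathlib.Topology.Sheaves.Presheaf
import Mathlib.Tactic.ENatToNat
import Mathlib.Data.Int.ConditionallyCompleteOrder
import Mathlib.Data.Int.Star
import Mathlib.Algebra.Order.Ring.Star
import Mathlib.RingTheory.PiTensorProduct
import Mathlib.RingTheory.WittVector.IsPoly
import Mathlib.Tactic.Polynomial.Basic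
import Mathlib.Tactic.ReduceModChar
import Pool.Agent.MP_d0dfcd_ag.Defs2

-- ======== part 0: formerly Pool.Agent.MP_d0dfcd_ag.Multi
section MrgPart0

/-! Specialisation to clusters with a separate multiplicity at every point. -/

namespace Pool.Agent.MP_d0dfcd_ag

open Polynomial

/-- Linear forms expressing `C Q ∣ subs P γ f`. -/
noncomputable def qrow {A : Type*} [CommRing A] (P Q γ : A[X]) (u w : ℕ)
    (f : MvPolynomial (Fin 2) A) : A :=
  (((subs P γ f).coeff w) %ₘ Q).coeff u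

theorem dvd_iff_qrow {A : Type*} [CommRing A] (P : A[X]) {Q : A[X]} (hQ : Q.Monic) (γ : A[X])
    (f : MvPolynomial (Fin 2) A) : C Q ∣ subs P γ f ↔ ∀ u w, qrow P Q γ u w f = 0 := by
  unfold qrow
  rw [C_dvd_iff_dvd_coeff]
  constructor
  · intro h u w
    rw [(modByMonic_eq_zero_iff_dvd hQ).2 (h w), coeff_zero]
  · intro h w
    rw [← modByMonic_eq_zero_iff_dvd hQ]
    ext u
    rw [h u w, coeff_zero]

theorem qrow_map {A B : Type*} [CommRing A] [CommRing B] (ψ : A →+* B) (P : A[X]) {Q : A[X]}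
    (hQ : Q.Monic) (γ : A[X]) (u w : ℕ) (f : MvPolynomial (Fin 2) A) :
    qrow (P.map ψ) (Q.map ψ) (γ.map ψ) u w (MvPolynomial.map ψ f) = ψ (qrow P Q γ u w f) := by
  unfold qrow
  rw [subs_map, coeff_map, coe_mapRingHom, ← map_modByMonic ψ hQ, coeff_map]

theorem qrow_expand {A : Type*} [CommRing A] (P Q γ : A[X]) (u w : ℕ)
    (f : MvPolynomial (Fin 2) A) :
    qrow P Q γ u w f =
      ∑ e ∈ f.support, qrow P Q γ u w (MvPolynomial.monomial e 1) * f.coeff e := by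
  let L : MvPolynomial (Fin 2) A →ₗ[A] A :=
    (lcoeff A u) ∘ₗ (modByMonicHom Q) ∘ₗ ((lcoeff A[X] w).restrictScalars A) ∘ₗ
      (subs P γ).toLinearMap
  have hL : ∀ g, qrow P Q γ u w g = L g := fun g => rfl
  simp only [hL]
  conv_lhs => rw [f.as_sum]
  rw [map_sum]
  refine Finset.sum_congr rfl fun e _ => ?_
  rw [mul_comm, ← smul_eq_mul, ← map_smul, MvPolynomial.smul_monomial, smul_eq_mul, mul_one]

theorem transfer_dvd {A K k ι : Type*} [CommRing A] [Field K] [Field k]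
    (φ : A →+* K) (hφ : Function.Injective φ) (ψ : A →+* k) (P Q γ : ι → A[X])
    (hQ : ∀ i, (Q i).Monic) (f : MvPolynomial (Fin 2) K) (hf : f ≠ 0)
    (h : ∀ i, C ((Q i).map φ) ∣ subs ((P i).map φ) ((γ i).map φ) f) :
    ∃ g : MvPolynomial (Fin 2) k, g ≠ 0 ∧ g.totalDegree ≤ f.totalDegree ∧
      ∀ i, C ((Q i).map ψ) ∣ subs ((P i).map ψ) ((γ i).map ψ) g := by
  obtain ⟨g, hg0, hsupp, hg⟩ := transfer_mv (ι := ι × ℕ × ℕ) φ hφ ψ
    (fun t e => qrow (P t.1) (Q t.1) (γ t.1) t.2.1 t.2.2 (MvPolynomial.monomial e 1)) f hf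
    (fun t => by
      have := (dvd_iff_qrow _ ((hQ t.1).map φ) _ _).1 (h t.1) t.2.1 t.2.2
      rw [qrow_expand] at this
      rw [← this]
      refine Finset.sum_congr rfl fun e _ => ?_
      rw [← qrow_map φ _ (hQ t.1), MvPolynomial.map_monomial, map_one])
  refine ⟨g, hg0, Finset.sup_mono hsupp, fun i => ?_⟩
  rw [dvd_iff_qrow _ ((hQ i).map ψ)]
  intro u w
  rw [qrow_expand, ← hg (i, u, w)]
  refine Finset.sum_congr rfl fun e _ => ?_
  rw [← qrow_map ψ _ (hQ i), MvPolynomial.map_monomial, ψ.map_one]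

theorem van_prod' {A T : Type*} [CommRing A] [Fintype T] (P : T → A[X])
    (hP : Pairwise fun s t => IsCoprime (P s) (P t)) (γ : A[X]) (m : T → ℕ)
    {f : MvPolynomial (Fin 2) A} (h : ∀ t, Van (P t) γ (m t) f) :
    C (∏ t, P t ^ m t) ∣ subs (∏ t, P t) γ f := by
  classical
  unfold Van at h
  rw [map_prod]
  apply Fintype.prod_dvd_of_coprime
  · intro s t hst
    exact ((hP hst).pow (m := m s) (n := m t)).map C
  · intro t
    rw [← Finset.mul_prod_erase Finset.univ P (Finset.mem_univ t), subs_comp]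
    exact C_dvd_comp (h t) _

/-- From universal points, over any ring mapping injectively to a field `F`, to clusters over a
field `K` of the same kind. -/
theorem to_clusters' {R F K ι : Type*} [CommRing R] [Field F] [Field K] [Fintype ι]
    (n : ι → ℕ) (m : (Σ i, Fin (n i)) → ℕ) (γ : ι → K[X]) (ρ : R →+* K)
    (φ : MvPolynomial ((Σ i, Fin (n i)) ⊕ (Σ i, Fin (n i))) R →+* F) (hφ : Function.Injective φ)
    (f : MvPolynomial (Fin 2) F) (hf : f ≠ 0)
    (hV : ∀ s, Van (X - C (φ (MvPolynomial.X (Sum.inl s)))) (C (φ (MvPolynomial.X (Sum.inr s))))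
      (m s) f) :
    ∃ h : MvPolynomial (Fin 2) K, h ≠ 0 ∧ h.totalDegree ≤ f.totalDegree ∧
      ∀ i, C (X ^ (∑ t, m ⟨i, t⟩)) ∣ subs (X ^ n i) (γ i) h := by
  classical
  let T := Σ i, Fin (n i)
  let A := MvPolynomial T K
  let L := FractionRing A
  let x : T → L := fun s => algebraMap A L (MvPolynomial.X s)
  let γA : ι → A[X] := fun i => (γ i).map MvPolynomial.C
  let γL : ι → L[X] := fun i => (γA i).map (algebraMap A L)
  let ψ0 : MvPolynomial (T ⊕ T) R →+* L :=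
    MvPolynomial.eval₂Hom (((algebraMap A L).comp MvPolynomial.C).comp ρ)
      (Sum.elim x fun s => (γL s.1).eval (x s))
  obtain ⟨g, hg0, hgd, hg⟩ := transfer_van φ hφ ψ0
    (fun s : T => X - C (MvPolynomial.X (Sum.inl s)))
    (fun s : T => C (MvPolynomial.X (Sum.inr s))) (fun s => monic_X_sub_C _) m f hf
    (fun s => by simpa using hV s)
  have hx : Function.Injective x := fun s t hst =>
    MvPolynomial.X_injective (IsFractionRing.injective A L hst)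
  have hg1 : ∀ s : T, Van (X - C (x s)) (γL s.1) (m s) g := fun s => by
    apply van_change
    simpa [ψ0] using hg s
  obtain ⟨h, hh0, hhd, hh⟩ := transfer_dvd (algebraMap A L) (IsFractionRing.injective A L)
    (MvPolynomial.constantCoeff : A →+* K)
    (fun i => ∏ t : Fin (n i), (X - C (MvPolynomial.X (⟨i, t⟩ : T))))
    (fun i => ∏ t : Fin (n i), (X - C (MvPolynomial.X (⟨i, t⟩ : T))) ^ m ⟨i, t⟩) γA
    (fun i => monic_prod_of_monic _ _ fun t _ => (monic_X_sub_C _).pow _) g hg0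
    (fun i => by
      rw [Polynomial.map_prod, Polynomial.map_prod]
      simp only [Polynomial.map_sub, map_X, map_C, Polynomial.map_pow]
      apply van_prod' (fun t : Fin (n i) => X - C (x ⟨i, t⟩)) _ _ (fun t => m ⟨i, t⟩)
      · exact fun t => hg1 ⟨i, t⟩
      · exact pairwise_coprime_X_sub_C (s := fun t : Fin (n i) => x ⟨i, t⟩)
          (fun s t hst => sigma_mk_injective (β := fun i => Fin (n i)) (hx hst)))
  refine ⟨h, hh0, hhd.trans hgd, fun i => ?_⟩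
  have := hh i
  rw [Polynomial.map_prod, Polynomial.map_prod, Polynomial.map_map] at this
  simpa [A, Finset.prod_pow_eq_pow_sum] using this

end Pool.Agent.MP_d0dfcd_ag

end MrgPart0

-- ======== part 1: formerly Pool.Agent.MP_d0dfcd_ag.Gain
section MrgPart1

/-! The genus gain on the curves `y = (x + 1) ^ δ + β`, in characteristic zero or large. -/

namespace Pool.Agent.MP_d0dfcd_ag

open Polynomial

theorem hajos {K : Type*} [Field K] {B : ℕ} (hK : ∀ k : ℕ, 0 < k → k ≤ B → (k : K) ≠ 0) (N : ℕ) :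
    ∀ h : K[X], h.natDegree ≤ B → h.support.card ≤ N → (X - 1) ^ N ∣ h → h = 0 := by
  classical
  induction N with
  | zero =>
    intro h _ hc _
    exact support_eq_empty.1 (Finset.card_eq_zero.1 (Nat.le_zero.1 hc))
  | succ N ih =>
    intro h hB hc hd
    by_contra hne
    obtain ⟨a, ha⟩ := nonempty_support_iff.2 hne
    let h2 : K[X] := X * derivative h - C (a : K) * h
    have hco : ∀ e, h2.coeff e = ((e : K) - a) * h.coeff e := by
      intro e
      simp only [h2, coeff_sub, coeff_C_mul]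
      cases e with
      | zero => simp
      | succ e => rw [coeff_X_mul, coeff_derivative]; push_cast; ring
    have hsub : h2.support ⊆ h.support.erase a := by
      intro e he
      rw [mem_support_iff, hco] at he
      rw [Finset.mem_erase, mem_support_iff]
      exact ⟨fun h => by simp [h] at he, right_ne_zero_of_mul he⟩
    have h20 : h2 = 0 := by
      apply ih
      · refine le_trans (natDegree_le_iff_coeff_eq_zero.2 fun e he => ?_) hB
        rw [hco, coeff_eq_zero_of_natDegree_lt he, mul_zero]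
      · have := Finset.card_le_card hsub
        rw [Finset.card_erase_of_mem ha] at this
        omega
      · refine dvd_sub (Dvd.dvd.mul_left ?_ _) (Dvd.dvd.mul_left ?_ _)
        · simpa using pow_sub_one_dvd_derivative_of_pow_dvd hd
        · exact (pow_dvd_pow _ (Nat.le_succ N)).trans hd
    have haB : a ≤ B := (le_natDegree_of_mem_supp a ha).trans hB
    have hone : ∀ e ∈ h.support, e = a := by
      intro e he
      have heB : e ≤ B := (le_natDegree_of_mem_supp e he).trans hB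
      have h1 := hco e
      rw [h20, coeff_zero] at h1
      have h3 : (e : K) - a = 0 := (mul_eq_zero.1 h1.symm).resolve_right (mem_support_iff.1 he)
      by_contra hea
      rcases lt_or_gt_of_ne hea with hlt | hlt
      · apply hK (a - e) (by omega) (by omega)
        rw [Nat.cast_sub hlt.le]
        linear_combination -h3
      · apply hK (e - a) (by omega) (by omega)
        rw [Nat.cast_sub hlt.le]
        exact h3
    have hev : h.eval 1 = h.coeff a := by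
      rw [eval_eq_sum, Polynomial.sum, Finset.sum_eq_single a]
      · simp
      · intro e he hea; exact absurd (hone e he) hea
      · intro h; exact absurd ha h
    obtain ⟨q, hq⟩ := (dvd_pow_self (X - 1 : K[X]) (Nat.succ_ne_zero N)).trans hd
    have : h.eval 1 = 0 := by rw [hq]; simp
    exact mem_support_iff.1 ha (hev.symm.trans this)

/-- All exponents `e` of `h` have `e % δ + e / δ ≤ D`. -/
def Wt {K : Type*} [CommRing K] (δ D : ℕ) (h : K[X]) : Prop :=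
  ∀ e ∈ h.support, e % δ + e / δ ≤ D

theorem wt_add_le {δ : ℕ} (hδ : 1 ≤ δ) (e e' : ℕ) :
    (e + e') % δ + (e + e') / δ ≤ (e % δ + e / δ) + (e' % δ + e' / δ) := by
  rw [Nat.add_div hδ, Nat.add_mod]
  have h1 := Nat.mod_lt e hδ
  have h2 := Nat.mod_lt e' hδ
  split_ifs with h
  · have : (e % δ + e' % δ) % δ = e % δ + e' % δ - δ := by
      rw [Nat.mod_eq_sub_mod h, Nat.mod_eq_of_lt (by omega)]
    omega
  · rw [Nat.mod_eq_of_lt (by omega)]
    omega

theorem Wt.mul {K : Type*} [CommRing K] {δ D D' : ℕ} (hδ : 1 ≤ δ) {h h' : K[X]} (H : Wt δ D h)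
    (H' : Wt δ D' h') : Wt δ (D + D') (h * h') := by
  intro e he
  rw [mem_support_iff, coeff_mul] at he
  obtain ⟨x, hx, hx0⟩ := Finset.exists_ne_zero_of_sum_ne_zero he
  rw [← Finset.HasAntidiagonal.mem_antidiagonal.1 hx]
  have a1 := H x.1 (mem_support_iff.2 (left_ne_zero_of_mul hx0))
  have a2 := H' x.2 (mem_support_iff.2 (right_ne_zero_of_mul hx0))
  have := wt_add_le hδ x.1 x.2
  omega

theorem Wt.mono {K : Type*} [CommRing K] {δ D D' : ℕ} {h : K[X]} (H : Wt δ D h) (hD : D ≤ D') :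
    Wt δ D' h := fun e he => (H e he).trans hD

theorem Wt.add {K : Type*} [CommRing K] {δ D : ℕ} {h h' : K[X]} (H : Wt δ D h) (H' : Wt δ D h') :
    Wt δ D (h + h') := by
  intro e he
  rcases Finset.mem_union.1 (support_add he) with h1 | h1
  · exact H e h1
  · exact H' e h1

theorem wt_C {K : Type*} [CommRing K] (δ : ℕ) (c : K) : Wt δ 0 (C c) := by
  intro e he
  have : e = 0 := by
    by_contra h
    exact mem_support_iff.1 he (coeff_C_of_ne_zero h)
  simp [this]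

theorem wt_X_pow {K : Type*} [CommRing K] (δ e : ℕ) : Wt δ (e % δ + e / δ) (X ^ e : K[X]) := by
  intro e' he
  have : e' = e := by
    by_contra h
    apply mem_support_iff.1 he
    rw [coeff_X_pow, if_neg h]
  rw [this]

theorem Wt.pow {K : Type*} [CommRing K] {δ : ℕ} (hδ : 1 ≤ δ) {h : K[X]} (H : Wt δ 1 h) (k : ℕ) :
    Wt δ k (h ^ k) := by
  induction k with
  | zero => simpa using wt_C δ (1 : K)
  | succ k ih => rw [pow_succ]; exact ih.mul hδ H

theorem wt_aeval {K : Type*} [CommRing K] {δ D : ℕ} (hδ : 1 ≤ δ) {u v : K[X]} (hu : Wt δ 1 u)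
    (hv : Wt δ 1 v) (f : MvPolynomial (Fin 2) K) (hf : f.totalDegree ≤ D) :
    Wt δ D (MvPolynomial.aeval ![u, v] f) := by
  classical
  rw [f.as_sum, map_sum]
  refine Finset.sum_induction _ (Wt δ D) (fun a b => Wt.add) (fun e he => by simp at he) ?_
  intro e he
  rw [MvPolynomial.aeval_monomial, Finsupp.prod_fintype _ _ (by simp), Fin.prod_univ_two]
  have h1 := MvPolynomial.le_totalDegree he
  rw [Finsupp.sum_fintype _ _ (by simp), Fin.sum_univ_two] at h1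
  refine Wt.mono ((wt_C δ _).mul hδ ((hu.pow hδ (e 0)).mul hδ (hv.pow hδ (e 1)))) (by omega)

/-- The number of exponents `i + δ j` with `i < δ` and `i + j ≤ D`. -/
def cnt (δ D : ℕ) : ℕ := ∑ i ∈ Finset.range δ, (D + 1 - i)

theorem Wt.card_le {K : Type*} [CommRing K] {δ D : ℕ} (hδ : 1 ≤ δ) {h : K[X]} (H : Wt δ D h) :
    h.support.card ≤ cnt δ D := by
  have := Finset.card_le_card_of_injOn (s := h.support)
    (t := (Finset.range δ).sigma fun i => Finset.range (D + 1 - i))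
    (fun e => ⟨e % δ, e / δ⟩)
    (fun e he => by
      have := H e he
      simp only [Finset.coe_sigma, Set.mem_sigma_iff, Finset.coe_range, Set.mem_Iio]
      exact ⟨Nat.mod_lt _ hδ, by omega⟩)
    (fun e _ e' _ h => by
      simp only [Sigma.mk.injEq, heq_eq_eq] at h
      rw [← Nat.div_add_mod e δ, ← Nat.div_add_mod e' δ, h.1, h.2])
  simpa [cnt] using this

theorem cnt_pos {δ : ℕ} (hδ : 1 ≤ δ) (D : ℕ) : 1 ≤ cnt δ D :=
  le_trans (by omega) (Finset.single_le_sum (f := fun i => D + 1 - i) (fun _ _ => Nat.zero_le _)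
    (Finset.mem_range.2 hδ))

theorem cnt_small (δ D : ℕ) (h : δ ≤ D + 1) : 2 * cnt δ D + δ * δ = δ * (2 * D + 3) := by
  induction δ with
  | zero => simp [cnt]
  | succ δ ih =>
    have := ih (by omega)
    rw [cnt, Finset.sum_range_succ, ← cnt]
    obtain ⟨k, hk⟩ := Nat.exists_eq_add_of_le h
    have h1 : D + 1 - δ = k + 1 := by omega
    have h2 : D = δ + k := by omega
    rw [h1]
    subst h2
    linarith

theorem cnt_large (δ D : ℕ) (h : D + 1 ≤ δ) : cnt δ D = cnt (D + 1) D := by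
  induction δ, h using Nat.le_induction with
  | base => rfl
  | succ δ h ih =>
    rw [cnt, Finset.sum_range_succ, ← cnt, ih]
    omega

theorem cnt_le {δ : ℕ} (hδ : 1 ≤ δ) (D : ℕ) :
    ((cnt δ D - 1 : ℕ) : ℝ) ≤ δ * D - ((δ : ℝ) - 2) / 2 * (min D (δ - 1) : ℕ) := by
  rw [Nat.cast_sub (cnt_pos hδ D)]
  rcases le_total δ (D + 1) with h | h
  · have h1 : (2 * cnt δ D + δ * δ : ℝ) = δ * (2 * D + 3) := by exact_mod_cast cnt_small δ D h
    rw [min_eq_right (by omega), Nat.cast_sub hδ]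
    push_cast
    linarith
  · have h1 : (2 * cnt (D + 1) D + (D + 1) * (D + 1) : ℝ) = (D + 1) * (2 * D + 3) := by
      exact_mod_cast cnt_small (D + 1) D le_rfl
    have h2 : (D : ℝ) + 1 ≤ δ := by exact_mod_cast h
    rw [min_eq_left (by omega), cnt_large δ D h]
    have := mul_le_mul_of_nonneg_right h2 (Nat.cast_nonneg D : (0 : ℝ) ≤ D)
    push_cast
    linarith

theorem ev_eq_zero_gain {K : Type*} [Field K] {B δ D : ℕ}
    (hK : ∀ k : ℕ, 0 < k → k ≤ B → (k : K) ≠ 0) (hδ : 1 ≤ δ) (hB : D * δ ≤ B) (β : K)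
    (f : MvPolynomial (Fin 2) K) (hf : f.totalDegree ≤ D)
    (h : X ^ cnt δ D ∣ ev ((X + 1) ^ δ + C β) f) : ev ((X + 1) ^ δ + C β) f = 0 := by
  let H : K[X] := MvPolynomial.aeval ![X - 1, X ^ δ + C β] f
  have e1 : ∀ f : MvPolynomial (Fin 2) K, MvPolynomial.aeval ![X - 1, X ^ δ + C β] f =
      (ev ((X + 1) ^ δ + C β) f).comp (X - 1) := by
    intro f
    induction f using MvPolynomial.induction_on with
    | C a => simp [ev]
    | add p q hp hq => simp only [map_add, hp, hq, add_comp]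
    | mul_X p i hp =>
      simp only [map_mul, hp, mul_comp]
      congr 1
      fin_cases i <;> simp [ev]
  have hu : Wt δ 1 (X - 1 : K[X]) := by
    have a1 : Wt δ 1 (X ^ 1 : K[X]) := (wt_X_pow δ 1).mono (by
      rcases Nat.lt_or_ge 1 δ with h | h
      · rw [Nat.mod_eq_of_lt h, Nat.div_eq_of_lt h]
      · obtain rfl : δ = 1 := by omega
        simp)
    have := a1.add ((wt_C δ (-1 : K)).mono zero_le_one)
    simpa [sub_eq_add_neg] using this
  have hv : Wt δ 1 (X ^ δ + C β : K[X]) :=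
    ((wt_X_pow δ δ).mono (by simp [Nat.div_self hδ])).add ((wt_C δ β).mono zero_le_one)
  have hH : H = 0 := by
    apply hajos hK (cnt δ D) H
    · refine le_trans ?_ ((Nat.mul_le_mul_right δ hf).trans hB)
      apply MvPolynomial.aeval_natDegree_le f le_rfl
      intro i
      fin_cases i
      · exact (natDegree_X_sub_C_le (1 : K)).trans hδ
      · exact natDegree_X_pow_add_C.le
    · exact (wt_aeval hδ hu hv f hf).card_le hδ
    · obtain ⟨q, hq⟩ := h
      simp only [H]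
      rw [e1, hq]
      simp
  have e2 : ev ((X + 1) ^ δ + C β) f = H.comp (X + 1) := by
    simp only [H]
    rw [e1, comp_assoc]
    simp
  rw [e2, hH, zero_comp]

theorem peel_gen {k ι : Type*} [Field k] [Fintype ι] (n δ r : ι → ℕ) (y : ι → ℝ) (g : ι → k[X])
    (bnd : ι → ℕ → ℕ) (D0 : ℕ)
    (hdeg : ∀ i, (g i).natDegree = δ i) (hδ : ∀ i, 1 ≤ δ i) (hr : ∀ i, 1 ≤ r i)
    (hrn : ∀ i, r i ≤ n i) (hsep : ∀ i j, i ≠ j → (g i).coeff 0 ≠ (g j).coeff 0)
    (hy0 : ∀ i, 0 ≤ y i) (hy : ∀ i, y i * r i ≤ δ i)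
    (hb : ∀ i, ∀ D ≤ D0, ∀ f : MvPolynomial (Fin 2) k, f.totalDegree ≤ D →
      X ^ (bnd i D + 1) ∣ ev (g i) f → ev (g i) f = 0)
    (hS : ∀ D ≤ D0, ∑ i, (n i : ℝ) * y i / r i * bnd i D ≤ D) (D : ℕ) :
    D ≤ D0 → ∀ (f : MvPolynomial (Fin 2) k) (W : ι → ℕ), f ≠ 0 → f.totalDegree ≤ D →
      (∀ i, C (X ^ W i) ∣ subs (X ^ n i) (g i + X ^ r i) f) → ∑ i, y i * W i ≤ D := by
  classical
  induction D using Nat.strong_induction_on with
  | _ D ih =>
  intro hD0 f W hf hD hV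
  by_contra hcon
  push Not at hcon
  have hex : ∃ i, n i * bnd i D < r i * W i := by
    by_contra hall
    push Not at hall
    have : ∑ i, y i * W i ≤ ∑ i, (n i : ℝ) * y i / r i * bnd i D := by
      refine Finset.sum_le_sum fun i _ => ?_
      have hri : (0 : ℝ) < r i := by exact_mod_cast hr i
      have h1 : (r i : ℝ) * W i ≤ n i * bnd i D := by exact_mod_cast hall i
      rw [div_mul_eq_mul_div, le_div_iff₀ hri]
      have := mul_le_mul_of_nonneg_left h1 (hy0 i)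
      linarith
    linarith [hS D hD0]
  obtain ⟨i, hi⟩ := hex
  have hev : ev (g i) f = 0 :=
    hb i D hD0 f hD (pow_dvd_ev (g i) (hrn i) (by linarith) f (hV i))
  obtain ⟨h, rfl⟩ := graph_dvd _ _ hev
  have hh : h ≠ 0 := right_ne_zero_of_mul hf
  have htd := MvPolynomial.totalDegree_mul_of_isDomain (left_ne_zero_of_mul hf) hh
  have hG := natDegree_le_graph (g i)
  rw [hdeg] at hG
  have hδi := hδ i
  have hle : δ i ≤ D := by omega
  have := ih (D - δ i) (by omega) (by omega) h (Function.update W i (W i - r i)) hh (by omega) (by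
    intro j
    by_cases hj : j = i
    · subst hj
      rw [Function.update_self]
      exact peel_same _ (hrn j) _ (hV j)
    · rw [Function.update_of_ne hj]
      refine peel_other _ _ (g i) ?_ _ (hV j)
      rw [coeff_add, coeff_X_pow, if_neg (by have := hr j; omega), add_zero]
      exact hsep j i hj)
  rw [Nat.cast_sub hle] at this
  have e1 := Finset.add_sum_erase Finset.univ (fun j => y j * (W j : ℝ)) (Finset.mem_univ i)
  have e2 := Finset.add_sum_erase Finset.univ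
    (fun j => y j * ((Function.update W i (W i - r i) j : ℕ) : ℝ)) (Finset.mem_univ i)
  have e3 : ∑ j ∈ Finset.univ.erase i, y j * ((Function.update W i (W i - r i) j : ℕ) : ℝ) =
      ∑ j ∈ Finset.univ.erase i, y j * (W j : ℝ) :=
    Finset.sum_congr rfl fun j hj => by rw [Function.update_of_ne (Finset.ne_of_mem_erase hj)]
  simp only [Function.update_self] at e2
  have e4 : (W i : ℝ) - r i ≤ ((W i - r i : ℕ) : ℝ) := by
    rcases le_total (r i) (W i) with h1 | h1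
    · rw [Nat.cast_sub h1]
    · have : (W i : ℝ) ≤ r i := by exact_mod_cast h1
      have h0 : (0 : ℝ) ≤ ((W i - r i : ℕ) : ℝ) := Nat.cast_nonneg _
      linarith
  have e5 := mul_le_mul_of_nonneg_left e4 (hy0 i)
  have e6 := hy i
  linarith

/-- The cluster bound with the genus gain, for universal points. -/
theorem cluster_gain {R F K ι : Type*} [CommRing R] [Field F] [Field K] [Infinite K] [Fintype ι]
    {B : ℕ} (hK : ∀ k : ℕ, 0 < k → k ≤ B → (k : K) ≠ 0) (ρ : R →+* K)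
    (n δ c : ι → ℕ) (y : ι → ℝ) (D0 : ℕ) (hδ : ∀ i, 1 ≤ δ i) (hc : ∀ i, 1 ≤ c i)
    (hcn : ∀ i, c i ≤ n i) (hy0 : ∀ i, 0 ≤ y i) (hy : ∀ i, y i * c i ≤ δ i)
    (hB : ∀ i, D0 * δ i ≤ B)
    (hS : ∀ D ≤ D0, ∑ i, (n i : ℝ) * y i / c i * ((cnt (δ i) D - 1 : ℕ) : ℝ) ≤ D)
    (m : (Σ i, Fin (n i)) → ℕ)
    (φ : MvPolynomial ((Σ i, Fin (n i)) ⊕ (Σ i, Fin (n i))) R →+* F) (hφ : Function.Injective φ)
    (f : MvPolynomial (Fin 2) F) (hf : f ≠ 0) (hD : f.totalDegree ≤ D0)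
    (hV : ∀ s, Van (X - C (φ (MvPolynomial.X (Sum.inl s)))) (C (φ (MvPolynomial.X (Sum.inr s))))
      (m s) f) :
    ∑ s, y s.1 * m s ≤ f.totalDegree := by
  classical
  let β : ι → K := fun i => Infinite.natEmbedding K (Fintype.equivFin ι i)
  have hβ : Function.Injective β := fun i j hij =>
    (Fintype.equivFin ι).injective (Fin.ext ((Infinite.natEmbedding K).injective hij))
  let g : ι → K[X] := fun i => (X + 1) ^ δ i + C (β i)
  have hg0 : ∀ i, (g i).coeff 0 = 1 + β i := fun i => by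
    simp [g, coeff_zero_eq_eval_zero]
  have hgd : ∀ i, (g i).natDegree = δ i := fun i => by
    simp only [g]
    rw [natDegree_add_C, ← C_1, (monic_X_add_C 1).natDegree_pow, natDegree_X_add_C, mul_one]
  obtain ⟨h, hh0, hhd, hh⟩ := to_clusters' n m (fun i => g i + X ^ c i) ρ φ hφ f hf hV
  have := peel_gen n δ c y g (fun i D => cnt (δ i) D - 1) D0 hgd hδ hc hcn
    (fun i j hij => by rw [hg0, hg0]; exact fun h => hij (hβ (add_left_cancel h))) hy0 hy
    (fun i D hD f hf h => by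
      rw [Nat.sub_add_cancel (cnt_pos (hδ i) D)] at h
      exact ev_eq_zero_gain hK (hδ i) ((Nat.mul_le_mul_right _ hD).trans (hB i)) _ f hf h)
    hS f.totalDegree hD h _ hh0 hhd hh
  rw [Fintype.sum_sigma]
  simpa [Finset.mul_sum] using this

end Pool.Agent.MP_d0dfcd_ag

end MrgPart1

-- ======== part 2: formerly Pool.Agent.MP_d0dfcd_ag.Arith2
section MrgPart2

/-! Three clusters slightly beyond the nef threshold; the genus gain pays for the excess. -/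

namespace Pool.Agent.MP_d0dfcd_ag

open Polynomial

theorem three_int2 (r p1 q1 p2 q2 : ℤ) (hdet : p2 * q1 = p1 * q2 + 1)
    (h1 : p1 ^ 2 + 12 * q1 ≤ r * q1 ^ 2) (h2 : r * q2 ^ 2 + 12 * q2 ≤ p2 ^ 2)
    (hq1 : 1 ≤ q1) (hq2 : 1 ≤ q2) (hp : 2 * q1 ≤ p1) :
    ∃ n1 n2 n3 Z : ℤ, p1 ≤ n1 ∧ p2 ≤ n2 ∧ p1 + p2 ≤ n3 ∧ n1 + n2 + n3 = r ∧
      r * (p1 + p2) ^ 2 ≤ Z ∧ Z ≤ 3 * r * (p1 + p2) ^ 2 ∧
      n1 * (q1 * p2 * (p1 + p2)) ^ 2 + n2 * (q2 * p1 * (p1 + p2)) ^ 2 +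
        n3 * ((q1 + q2) * p1 * p2) ^ 2 = (p1 * p2 * (p1 + p2)) ^ 2 + Z := by
  have hp1 : 2 ≤ p1 := by omega
  have hp2 : 2 * q2 + 1 ≤ p2 := by
    by_contra h
    have h' : p2 ≤ 2 * q2 := by omega
    linarith [mul_le_mul_of_nonneg_right h' (by omega : 0 ≤ q1),
      mul_le_mul_of_nonneg_right hp (by omega : 0 ≤ q2)]
  obtain ⟨p3, hp3⟩ : ∃ p3, p3 = p1 + p2 := ⟨_, rfl⟩
  obtain ⟨q3, hq3⟩ : ∃ q3, q3 = q1 + q2 := ⟨_, rfl⟩
  obtain ⟨j2, hj2⟩ : ∃ j2, j2 = p2 ^ 2 - r * q2 ^ 2 := ⟨_, rfl⟩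
  obtain ⟨A, hA⟩ : ∃ A, A = 2 * q2 * p3 + 1 := ⟨_, rfl⟩
  have hp3pos : 0 < p3 := by omega
  have hp2pos : 0 < p2 := by omega
  have hp1pos : 0 < p1 := by omega
  have hq1pos : 0 < q1 := by omega
  have hq2pos : 0 < q2 := by omega
  have hqp : 1 ≤ q2 * p3 := mul_pos hq2pos hp3pos
  have hApos : 0 < A := by linarith
  have hrpos : 0 < r := by
    by_contra h
    have := mul_nonpos_of_nonpos_of_nonneg (not_lt.1 h) (sq_nonneg q1)
    linarith [sq_nonneg p1]
  have hrp2 : r + 1 ≤ p2 ^ 2 := by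
    have : r * 1 ≤ r * q2 ^ 2 := mul_le_mul_of_nonneg_left (one_le_pow₀ hq2) hrpos.le
    linarith
  obtain ⟨T, hT1, hT2⟩ : ∃ T, r * p3 ^ 2 ≤ p1 * T ∧ p1 * T ≤ r * p3 ^ 2 + p1 := by
    refine ⟨r * p3 ^ 2 / p1 + 1, ?_, ?_⟩
    · linarith [Int.mul_ediv_add_emod (r * p3 ^ 2) p1, Int.emod_lt_of_pos (r * p3 ^ 2) hp1pos]
    · linarith [Int.mul_ediv_add_emod (r * p3 ^ 2) p1, Int.emod_nonneg (r * p3 ^ 2) hp1pos.ne']
  have hrp3 : 0 < r * p3 ^ 2 := by positivity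
  have hT0 : 0 ≤ T := by
    by_contra h
    have := mul_neg_of_pos_of_neg hp1pos (not_le.1 h)
    linarith
  have hp33 : p1 ≤ p3 ^ 2 := by
    have : p3 * 1 ≤ p3 * p3 := mul_le_mul_of_nonneg_left (by omega) hp3pos.le
    linarith
  have hT3 : T ≤ p2 ^ 2 * p3 ^ 2 := by
    have a1 : 1 * T ≤ p1 * T := mul_le_mul_of_nonneg_right (by omega) hT0
    have a2 := mul_le_mul_of_nonneg_right hrp2 (sq_nonneg p3)
    linarith
  obtain ⟨w, ρ, hρ0, hρA, hw⟩ : ∃ w ρ, 0 ≤ ρ ∧ ρ < A ∧ j2 * p1 * p3 ^ 2 + T = A * w + ρ :=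
    ⟨(j2 * p1 * p3 ^ 2 + T) / A, (j2 * p1 * p3 ^ 2 + T) % A, Int.emod_nonneg _ hApos.ne',
      Int.emod_lt_of_pos _ hApos, (Int.mul_ediv_add_emod _ _).symm⟩
  obtain ⟨c, e, he0, he1, hce⟩ : ∃ c e, 0 ≤ e ∧ e < p3 ∧ -w * q3 = p3 * c + e :=
    ⟨-w * q3 / p3, -w * q3 % p3, Int.emod_nonneg _ hp3pos.ne',
      Int.emod_lt_of_pos _ hp3pos, (Int.mul_ediv_add_emod _ _).symm⟩
  have hd3 : p3 * q1 = p1 * q3 + 1 := by rw [hp3, hq3]; linear_combination hdet
  obtain ⟨n3, hn3⟩ : ∃ n3, n3 = p3 + e := ⟨_, rfl⟩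
  obtain ⟨n1, hn1⟩ : ∃ n1, n1 = w * q1 + c * p1 - p1 := ⟨_, rfl⟩
  have hrel : n1 * p3 + n3 * p1 = w := by
    rw [hn1, hn3]
    linear_combination w * hd3 - p1 * hce
  have hj12 : 12 * q2 ≤ j2 := by omega
  have hw4 : 4 * p1 * p3 ≤ w := by
    by_contra h
    have h' : w + 1 ≤ 4 * p1 * p3 := by omega
    have e1 : A * (w + 1) ≤ A * (4 * p1 * p3) := mul_le_mul_of_nonneg_left h' hApos.le
    have e2 : A ≤ 3 * q2 * p3 := by linarith
    have e3 : A * (4 * p1 * p3) ≤ 3 * q2 * p3 * (4 * p1 * p3) :=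
      mul_le_mul_of_nonneg_right e2 (by positivity)
    have e4 : 12 * q2 * (p1 * p3 ^ 2) ≤ j2 * (p1 * p3 ^ 2) :=
      mul_le_mul_of_nonneg_right hj12 (by positivity)
    linarith
  have hn1p : 2 * p1 ≤ n1 := by
    have e1 : n3 * p1 ≤ 2 * p3 * p1 := mul_le_mul_of_nonneg_right (by omega) (by omega)
    have e2 : 2 * p1 * p3 ≤ n1 * p3 := by linarith
    exact le_of_mul_le_mul_right e2 hp3pos
  have hn1pos : 0 < n1 := by omega
  have hj2le : j2 ≤ 2 * p2 := by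
    have e1 : p1 ^ 2 * q2 ^ 2 ≤ r * q1 ^ 2 * q2 ^ 2 :=
      mul_le_mul_of_nonneg_right (by omega) (by positivity)
    have e2 : j2 * q1 ^ 2 ≤ 2 * p2 * q1 := by
      have : p2 ^ 2 * q1 ^ 2 = p1 ^ 2 * q2 ^ 2 + 2 * (p2 * q1) - 1 := by
        linear_combination (p2 * q1 + p1 * q2 - 1) * hdet
      rw [hj2]
      linarith
    have e3 : j2 * q1 ≤ 2 * p2 := le_of_mul_le_mul_right (by linarith) (by omega : 0 < q1)
    linarith [mul_le_mul_of_nonneg_left hq1 (by omega : 0 ≤ j2)]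
  have hn1le : n1 ≤ p2 * p3 := by
    have e1 : n1 * p3 ≤ w := by linarith [mul_pos (by omega : 0 < n3) hp1pos]
    have e2 : 2 * q2 * p3 * (n1 * p3) ≤ A * w :=
      mul_le_mul (by omega) e1 (by positivity) hApos.le
    have e3 : 2 * q2 * n1 * p3 ^ 2 ≤ (j2 * p1 + p2 ^ 2) * p3 ^ 2 := by linarith
    have e4 : 2 * q2 * n1 ≤ j2 * p1 + p2 ^ 2 := le_of_mul_le_mul_right e3 (by positivity)
    have e5 : j2 * p1 ≤ 2 * p2 * p1 := mul_le_mul_of_nonneg_right hj2le (by omega)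
    have e6 : n1 ≤ q2 * n1 := by linarith [mul_le_mul_of_nonneg_right hq2 hn1pos.le]
    rw [hp3]
    linarith [sq_nonneg p2]
  have hAle : A ≤ p2 * p3 := by linarith [mul_le_mul_of_nonneg_right hp2 hp3pos.le]
  obtain ⟨Z, hZ⟩ : ∃ Z, Z = n1 * p2 * p3 - p1 * ρ + p1 * T := ⟨_, rfl⟩
  have hZ0 : r * p3 ^ 2 ≤ Z := by
    have e1 : p1 * ρ ≤ p1 * (p2 * p3) := mul_le_mul_of_nonneg_left (by omega) (by omega)
    have e2 : p1 * (p2 * p3) ≤ n1 * (p2 * p3) :=
      mul_le_mul_of_nonneg_right (by omega) (by positivity)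
    linarith
  have hZle : Z ≤ n1 * p2 * p3 + (r * p3 ^ 2 + p1) := by
    have : 0 ≤ p1 * ρ := by positivity
    linarith
  have hd2 : q3 * p2 = q2 * p3 + 1 := by rw [hp3, hq3]; linear_combination hdet
  have hmain : n1 * (q1 * p2 * p3) ^ 2 + (r - n1 - n3) * (q2 * p1 * p3) ^ 2 +
      n3 * (q3 * p1 * p2) ^ 2 = (p1 * p2 * p3) ^ 2 + Z := by
    have a1 : (q1 * p2) ^ 2 = (q2 * p1) ^ 2 + (2 * q2 * p1 + 1) := by
      linear_combination (p2 * q1 + p1 * q2 + 1) * hdet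
    have a2 : (q3 * p2) ^ 2 = (q2 * p3) ^ 2 + A := by
      rw [hA]; linear_combination (q3 * p2 + q2 * p3 + 1) * hd2
    have a3 : p3 * (2 * q2 * p1 + 1) = p1 * A + p2 := by rw [hA, hp3]; ring
    rw [hZ]
    linear_combination n1 * p3 ^ 2 * a1 + n3 * p1 ^ 2 * a2 + n1 * p3 * a3 + p1 * A * hrel
      - p1 * hw + p1 ^ 2 * p3 ^ 2 * hj2
  have hn2 : p2 ≤ r - n1 - n3 := by
    by_contra h
    obtain ⟨n2, hn2⟩ : ∃ n2, n2 = r - n1 - n3 := ⟨_, rfl⟩
    have h' : n2 ≤ p2 := by omega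
    have a1 : (q2 * p1) ^ 2 = (q1 * p2) ^ 2 - (2 * (q1 * p2) - 1) := by
      linear_combination (-(p2 * q1) - p1 * q2 + 1) * hdet
    have a2 : (q3 * p1) ^ 2 = (q1 * p3) ^ 2 - (2 * (q1 * p3) - 1) := by
      linear_combination (-(p3 * q1) - p1 * q3 + 1) * hd3
    have a3 : (r * q1 ^ 2 - p1 ^ 2) * (p2 * p3) ^ 2 =
        Z + n2 * (p3 ^ 2 * (2 * (q1 * p2) - 1)) + n3 * (p2 ^ 2 * (2 * (q1 * p3) - 1)) := by
      rw [hn2]
      linear_combination hmain - (r - n1 - n3) * p3 ^ 2 * a1 - n3 * p2 ^ 2 * a2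
    have hqp2 : 1 ≤ q1 * p2 := mul_pos hq1pos hp2pos
    have hqp3 : 1 ≤ q1 * p3 := mul_pos hq1pos hp3pos
    have b1 : n2 * (p3 ^ 2 * (2 * (q1 * p2) - 1)) ≤ p2 * (p3 ^ 2 * (2 * (q1 * p2))) := by
      calc _ ≤ p2 * (p3 ^ 2 * (2 * (q1 * p2) - 1)) :=
            mul_le_mul_of_nonneg_right h' (mul_nonneg (by positivity) (by omega))
        _ ≤ _ := mul_le_mul_of_nonneg_left
            (mul_le_mul_of_nonneg_left (by omega) (by positivity)) (by omega)
    have b2 : n3 * (p2 ^ 2 * (2 * (q1 * p3) - 1)) ≤ (2 * p3) * (p2 ^ 2 * (2 * (q1 * p3))) :=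
      mul_le_mul (by omega) (mul_le_mul_of_nonneg_left (by omega) (by positivity))
        (mul_nonneg (by positivity) (by omega)) (by omega)
    have b3 : n1 * (p2 * p3) ≤ (q1 * (p2 * p3)) * (p2 * p3) := by
      apply mul_le_mul_of_nonneg_right _ (by positivity)
      have : p2 * p3 ≤ q1 * (p2 * p3) := by
        linarith [mul_le_mul_of_nonneg_right hq1 (mul_pos hp2pos hp3pos).le]
      omega
    have b4 : 12 * q1 * (p2 * p3) ^ 2 ≤ (r * q1 ^ 2 - p1 ^ 2) * (p2 * p3) ^ 2 :=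
      mul_le_mul_of_nonneg_right (by omega) (by positivity)
    have b5 : 0 < q1 * (p2 * p3) ^ 2 := by positivity
    have b6 : 1 * (p2 * p3) ^ 2 ≤ q1 * (p2 * p3) ^ 2 :=
      mul_le_mul_of_nonneg_right hq1 (by positivity)
    have b7 := mul_le_mul_of_nonneg_right hrp2 (sq_nonneg p3)
    linarith
  refine ⟨n1, r - n1 - n3, n3, Z, by omega, hn2, by omega, by ring, ?_, ?_, ?_⟩
  · rw [← hp3]; exact hZ0
  · rw [← hp3]
    have a1 : n1 * (p2 * p3) ≤ r * (p3 * p3) :=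
      mul_le_mul (by omega) (mul_le_mul_of_nonneg_right (by omega) hp3pos.le) (by positivity)
        hrpos.le
    have a2 : 1 * p3 ^ 2 ≤ r * p3 ^ 2 := mul_le_mul_of_nonneg_right (by omega) (sq_nonneg _)
    linarith
  · rw [← hp3, ← hq3]; exact hmain


theorem exact_of_farey {R F K : Type*} [CommRing R] [Field F] [Field K] [Infinite K] {B : ℕ}
    (hK : ∀ k : ℕ, 0 < k → k ≤ B → (k : K) ≠ 0) (ρ : R →+* K) (r p1 q1 p2 q2 D0 : ℕ)
    (hdet : p2 * q1 = p1 * q2 + 1)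
    (h1 : p1 ^ 2 + 12 * q1 ≤ r * q1 ^ 2) (h2 : r * q2 ^ 2 + 12 * q2 ≤ p2 ^ 2)
    (hq1 : 1 ≤ q1) (hq2 : 1 ≤ q2) (hp : 2 * q1 ≤ p1) (hB : D0 * (q1 + q2) ≤ B)
    (hg : ∀ D ≤ D0, 3 * (r : ℝ) / ((p1 : ℝ) * p2) ^ 2 * D ≤
      ((q1 : ℝ) + q2) / (p1 + p2) * ((((q1 + q2 : ℕ) : ℝ) - 2) / 2 * (min D (q1 + q2 - 1) : ℕ)))
    (m : Fin r → ℕ) (φ : MvPolynomial (Fin r ⊕ Fin r) R →+* F) (hφ : Function.Injective φ)
    (f : MvPolynomial (Fin 2) F) (hf : f ≠ 0) (hD : f.totalDegree ≤ D0)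
    (hV : ∀ s, Van (X - C (φ (MvPolynomial.X (Sum.inl s)))) (C (φ (MvPolynomial.X (Sum.inr s))))
      (m s) f) :
    (∑ s, m s) ^ 2 ≤ r * f.totalDegree ^ 2 := by
  classical
  obtain ⟨N1, N2, N3, Z, g1, g2, g3, hsum, hZ0, hZ1, hid⟩ := three_int2 r p1 q1 p2 q2
    (by exact_mod_cast hdet) (by exact_mod_cast h1) (by exact_mod_cast h2)
    (by exact_mod_cast hq1) (by exact_mod_cast hq2) (by exact_mod_cast hp)
  lift N1 to ℕ using (by omega) with n1
  lift N2 to ℕ using (by omega) with n2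
  lift N3 to ℕ using (by omega) with n3
  have hp1 : 1 ≤ p1 := by omega
  have hp2 : 1 ≤ p2 := by
    rcases Nat.eq_zero_or_pos p2 with h | h
    · rw [h] at hdet; omega
    · exact h
  have P1 : (1 : ℝ) ≤ p1 := by exact_mod_cast hp1
  have P2 : (1 : ℝ) ≤ p2 := by exact_mod_cast hp2
  have hsumN : n1 + n2 + n3 = r := by exact_mod_cast hsum
  have hsumR : (n1 : ℝ) + n2 + n3 = r := by exact_mod_cast hsum
  have hrpos : 0 < r := by omega
  have hr0 : (0 : ℝ) < r := by exact_mod_cast hrpos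
  have hidR : (n1 : ℝ) * (q1 * p2 * (p1 + p2)) ^ 2 + n2 * (q2 * p1 * (p1 + p2)) ^ 2 +
      n3 * ((q1 + q2) * p1 * p2) ^ 2 = (p1 * p2 * (p1 + p2)) ^ 2 + (Z : ℝ) := by
    exact_mod_cast hid
  have hZ0R : (r : ℝ) * (p1 + p2) ^ 2 ≤ Z := by exact_mod_cast hZ0
  have hZ1R : (Z : ℝ) ≤ 3 * r * (p1 + p2) ^ 2 := by exact_mod_cast hZ1
  have hdetR : (p2 : ℝ) * q1 = p1 * q2 + 1 := by exact_mod_cast hdet
  have g3R : (p1 : ℝ) + p2 ≤ n3 := by exact_mod_cast g3
  obtain ⟨x1, hx1⟩ : ∃ x : ℝ, x = q1 / p1 := ⟨_, rfl⟩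
  obtain ⟨x2, hx2⟩ : ∃ x : ℝ, x = q2 / p2 := ⟨_, rfl⟩
  obtain ⟨x3, hx3⟩ : ∃ x : ℝ, x = (q1 + q2) / (p1 + p2) := ⟨_, rfl⟩
  obtain ⟨S, hS⟩ : ∃ S : ℝ, S = n1 * x1 ^ 2 + n2 * x2 ^ 2 + n3 * x3 ^ 2 := ⟨_, rfl⟩
  obtain ⟨κ, hκ⟩ : ∃ κ : ℝ, κ = 1 / ((p1 : ℝ) * p2) := ⟨_, rfl⟩
  have hκ0 : 0 < κ := by rw [hκ]; positivity
  have hS1 : S = 1 + Z / ((p1 : ℝ) * p2 * (p1 + p2)) ^ 2 := by
    rw [hS, hx1, hx2, hx3]
    field_simp
    linear_combination hidR
  have hSge : r * κ ^ 2 ≤ S - 1 := by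
    rw [hS1, add_sub_cancel_left, hκ, le_div_iff₀ (by positivity)]
    refine le_trans (le_of_eq ?_) hZ0R
    field_simp
  have hSle : S - 1 ≤ 3 * (r : ℝ) / ((p1 : ℝ) * p2) ^ 2 := by
    rw [hS1, add_sub_cancel_left, div_le_iff₀ (by positivity)]
    refine hZ1R.trans (le_of_eq ?_)
    field_simp
  have x10 : 0 ≤ x1 := by rw [hx1]; positivity
  have x20 : 0 ≤ x2 := by rw [hx2]; positivity
  have x30 : 0 ≤ x3 := by rw [hx3]; positivity
  have gain0 : ∀ δ D : ℕ, 1 ≤ δ → 0 ≤ ((δ : ℝ) - 2) / 2 * (min D (δ - 1) : ℕ) := by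
    intro δ D hδ
    rcases Nat.lt_or_ge δ 2 with h | h
    · obtain rfl : δ = 1 := by omega
      simp
    · have : (2 : ℝ) ≤ δ := by exact_mod_cast h
      exact mul_nonneg (by linarith) (Nat.cast_nonneg _)
  let n : Fin 3 → ℕ := ![n1, n2, n3]
  let y : Fin 3 → ℝ := ![x1, x2, x3]
  obtain ⟨e⟩ : Nonempty ((Σ i, Fin (n i)) ≃ Fin r) := by
    apply Fintype.card_eq.1
    simp [n, Fin.sum_univ_three, hsumN]
  have : NeZero r := ⟨hrpos.ne'⟩
  have key : ∀ k : Fin r, ∑ s : (Σ i, Fin (n i)), y s.1 * m (e s + k) ≤ f.totalDegree := by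
    intro k
    have hinj : Function.Injective fun s => e s + k := fun s t h => e.injective (add_right_cancel h)
    refine cluster_gain hK ρ n ![q1, q2, q1 + q2] ![p1, p2, p1 + p2] y D0
      (by intro i; fin_cases i <;> simp <;> omega)
      (by intro i; fin_cases i <;> simp <;> omega)
      (by intro i; fin_cases i <;> simp [n] <;> omega)
      (by intro i; fin_cases i <;> simpa [y])
      ?_ ?_ ?_ (fun s => m (e s + k))
      (φ.comp (MvPolynomial.rename (Sum.map (fun s => e s + k) (fun s => e s + k))).toRingHom)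
      (hφ.comp (MvPolynomial.rename_injective _ (Sum.map_injective.2 ⟨hinj, hinj⟩))) f hf hD
      (fun s => by simpa using hV (e s + k))
    · intro i
      fin_cases i
      · simp only [y, hx1]; simp; field_simp; rfl
      · simp only [y, hx2]; simp; field_simp; rfl
      · simp only [y, hx3]; simp; field_simp; rfl
    · intro i
      refine le_trans (Nat.mul_le_mul_left _ ?_) hB
      fin_cases i <;> simp
    · intro D hDD
      rw [Fin.sum_univ_three]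
      simp only [n, y, Matrix.cons_val_zero, Matrix.cons_val_one, Matrix.cons_val]
      have c1 := cnt_le hq1 D
      have c2 := cnt_le hq2 D
      have c3 := cnt_le (by omega : 1 ≤ q1 + q2) D
      have d1 := gain0 q1 D hq1
      have d2 := gain0 q2 D hq2
      have d3 := gain0 (q1 + q2) D (by omega)
      have hgD := hg D hDD
      rw [← hx3] at hgD
      generalize (((q1 + q2 : ℕ) : ℝ) - 2) / 2 * (min D (q1 + q2 - 1) : ℕ) = G at *
      have u1 : (n1 : ℝ) * x1 / p1 * ((cnt q1 D - 1 : ℕ) : ℝ) ≤ n1 * x1 ^ 2 * D := by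
        calc _ ≤ (n1 : ℝ) * x1 / p1 * (q1 * D) :=
              mul_le_mul_of_nonneg_left (by linarith) (by positivity)
          _ = _ := by rw [hx1]; field_simp
      have u2 : (n2 : ℝ) * x2 / p2 * ((cnt q2 D - 1 : ℕ) : ℝ) ≤ n2 * x2 ^ 2 * D := by
        calc _ ≤ (n2 : ℝ) * x2 / p2 * (q2 * D) :=
              mul_le_mul_of_nonneg_left (by linarith) (by positivity)
          _ = _ := by rw [hx2]; field_simp
      have u3 : (n3 : ℝ) * x3 / ((p1 + p2 : ℕ) : ℝ) * ((cnt (q1 + q2) D - 1 : ℕ) : ℝ) ≤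
          n3 * x3 ^ 2 * D - x3 * G := by
        push_cast at c3 ⊢
        have v1 : x3 * G ≤ (n3 : ℝ) * x3 / (p1 + p2) * G := by
          apply mul_le_mul_of_nonneg_right _ d3
          rw [le_div_iff₀ (by positivity)]
          linarith [mul_le_mul_of_nonneg_left g3R x30]
        have v2 : (n3 : ℝ) * x3 / (p1 + p2) * ((q1 + q2) * D) = n3 * x3 ^ 2 * D := by
          rw [hx3]; field_simp
        have v3 := mul_le_mul_of_nonneg_left c3
          (by positivity : 0 ≤ (n3 : ℝ) * x3 / (p1 + p2))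
        linarith
      have u4 := mul_le_mul_of_nonneg_right hSle (Nat.cast_nonneg D : (0 : ℝ) ≤ D)
      rw [hS] at u4
      linarith
  obtain ⟨σ, hσ⟩ : ∃ σ : ℝ, σ = n1 * x1 + n2 * x2 + n3 * x3 := ⟨_, rfl⟩
  have hσ0 : 0 ≤ σ := by rw [hσ]; positivity
  have havg : σ * (∑ s, (m s : ℝ)) ≤ r * f.totalDegree := by
    have a1 := Finset.sum_le_sum fun k (_ : k ∈ Finset.univ) => key k
    rw [Finset.sum_comm] at a1
    have a2 : ∀ s : (Σ i, Fin (n i)), ∑ k : Fin r, y s.1 * (m (e s + k) : ℝ) =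
        y s.1 * ∑ t, (m t : ℝ) := fun s => by
      rw [← Finset.mul_sum]
      congr 1
      exact Fintype.sum_equiv (Equiv.addLeft (e s)) _ _ fun _ => rfl
    simp only [a2, ← Finset.sum_mul] at a1
    have a3 : ∑ s : (Σ i, Fin (n i)), y s.1 = σ := by
      rw [Fintype.sum_sigma]
      simp only [Finset.sum_const, Finset.card_univ, Fintype.card_fin, nsmul_eq_mul]
      rw [Fin.sum_univ_three, hσ]
      simp [n, y]
    rw [a3] at a1
    simpa using a1
  have d12 : x1 - x2 = κ := by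
    rw [hx1, hx2, hκ]; field_simp; linear_combination hdetR
  have d13 : 0 ≤ x1 - x3 := by
    have : x1 - x3 = 1 / (p1 * (p1 + p2)) := by
      rw [hx1, hx3]; field_simp; linear_combination hdetR
    rw [this]; positivity
  have d32 : 0 ≤ x3 - x2 := by
    have : x3 - x2 = 1 / (p2 * (p1 + p2)) := by
      rw [hx2, hx3]; field_simp; linear_combination hdetR
    rw [this]; positivity
  obtain ⟨V, hVdef⟩ : ∃ V : ℝ, V = n1 * n2 * (x1 - x2) ^ 2 + n1 * n3 * (x1 - x3) ^ 2 +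
    n2 * n3 * (x3 - x2) ^ 2 := ⟨_, rfl⟩
  have hVle : V ≤ r ^ 2 * κ ^ 2 := by
    have e1 : (x1 - x3) ^ 2 ≤ κ ^ 2 := pow_le_pow_left₀ d13 (by linarith) 2
    have e2 : (x3 - x2) ^ 2 ≤ κ ^ 2 := pow_le_pow_left₀ d32 (by linarith) 2
    have e3 : V ≤ (n1 * n2 + n1 * n3 + n2 * n3) * κ ^ 2 := by
      rw [hVdef, d12]
      have f1 := mul_le_mul_of_nonneg_left e1 (by positivity : (0 : ℝ) ≤ n1 * n3)
      have f2 := mul_le_mul_of_nonneg_left e2 (by positivity : (0 : ℝ) ≤ n2 * n3)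
      linarith
    refine e3.trans (mul_le_mul_of_nonneg_right ?_ (by positivity))
    rw [← hsumR]
    have : (0 : ℝ) ≤ n1 ^ 2 + n2 ^ 2 + n3 ^ 2 + (n1 * n2 + n1 * n3 + n2 * n3) := by positivity
    linarith
  have hσ2 : (r : ℝ) ≤ σ ^ 2 := by
    have : σ ^ 2 = r * S - V := by rw [hσ, hVdef, hS, ← hsumR]; ring
    have := mul_le_mul_of_nonneg_left hSge hr0.le
    linarith
  have hm0 : (0 : ℝ) ≤ ∑ s, (m s : ℝ) := by positivity
  have b1 := pow_le_pow_left₀ (mul_nonneg hσ0 hm0) havg 2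
  have b2 := mul_le_mul_of_nonneg_right hσ2 (sq_nonneg (∑ s, (m s : ℝ)))
  have b3 : (∑ s, (m s : ℝ)) ^ 2 ≤ r * (f.totalDegree : ℝ) ^ 2 :=
    le_of_mul_le_mul_left (by linarith) hr0
  exact_mod_cast b3

end Pool.Agent.MP_d0dfcd_ag

end MrgPart2

-- ======== part 3: formerly Pool.Agent.MP_d0dfcd_ag.Count
section MrgPart3

/-! Farey neighbours of `√r` and a count of the `r` with an unusually good approximation. -/

namespace Pool.Agent.MP_d0dfcd_ag

theorem exists_farey (r Q : ℕ) (hQ : 1 ≤ Q) :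
    ∃ p1 q1 p2 q2 : ℕ, p2 * q1 = p1 * q2 + 1 ∧ 1 ≤ q1 ∧ q1 ≤ Q ∧ 1 ≤ q2 ∧ q2 ≤ Q ∧
      Q < q1 + q2 ∧ p1 ^ 2 ≤ r * q1 ^ 2 ∧ r * q2 ^ 2 < p2 ^ 2 ∧
      r.sqrt * q1 ≤ p1 ∧ p1 ≤ (r.sqrt + 1) * q1 ∧ r.sqrt * q2 ≤ p2 ∧ p2 ≤ (r.sqrt + 1) * q2 := by
  induction Q, hQ using Nat.le_induction with
  | base =>
    refine ⟨r.sqrt, 1, r.sqrt + 1, 1, by ring, le_rfl, le_rfl, le_rfl, le_rfl, by omega, ?_, ?_,
      by omega, by omega, by omega, by omega⟩
    · simpa using Nat.sqrt_le' r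
    · simpa using Nat.lt_succ_sqrt' r
  | succ Q hQ ih =>
    obtain ⟨p1, q1, p2, q2, hdet, a1, a2, a3, a4, a5, a6, a7, b1, b2, b3, b4⟩ := ih
    by_cases h : Q + 1 < q1 + q2
    · exact ⟨p1, q1, p2, q2, hdet, a1, by omega, a3, by omega, h, a6, a7, b1, b2, b3, b4⟩
    have c1 : r.sqrt * (q1 + q2) ≤ p1 + p2 := by rw [mul_add]; omega
    have c2 : p1 + p2 ≤ (r.sqrt + 1) * (q1 + q2) := by rw [mul_add]; omega
    by_cases h' : (p1 + p2) ^ 2 ≤ r * (q1 + q2) ^ 2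
    · refine ⟨p1 + p2, q1 + q2, p2, q2, ?_, by omega, by omega, a3, by omega, by omega, h', a7,
        c1, c2, b3, b4⟩
      linear_combination hdet
    · refine ⟨p1, q1, p1 + p2, q1 + q2, ?_, a1, by omega, by omega, by omega, by omega, a6,
        not_le.1 h', b1, b2, c1, c2⟩
      linear_combination hdet

/-- `p / q` in lowest terms with `p ≤ T q` and `|p² - r q²| ≤ J q`. -/
def Near (T J q r : ℕ) : Prop :=
  ∃ p : ℕ, Nat.Coprime p q ∧ p ≤ T * q ∧ r * q ^ 2 ≤ p ^ 2 + J * q ∧ p ^ 2 ≤ r * q ^ 2 + J * q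

theorem near_inj {J q r r' p p' : ℕ} (hq : 1 ≤ q) (hc : Nat.Coprime p q)
    (h : r * q ^ 2 ≤ p ^ 2 + J * q) (h' : r' * q ^ 2 ≤ p' ^ 2 + J * q)
    (e1 : p % q = p' % q)
    (e2 : (p ^ 2 + J * q - r * q ^ 2) / q = (p' ^ 2 + J * q - r' * q ^ 2) / q)
    (e3 : 2 * (p / q) / q = 2 * (p' / q) / q) : r = r' := by
  obtain ⟨k, hk⟩ := Nat.exists_eq_add_of_le h
  obtain ⟨k', hk'⟩ := Nat.exists_eq_add_of_le h'
  rw [hk, hk', Nat.add_sub_cancel_left, Nat.add_sub_cancel_left] at e2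
  have hp := Nat.div_add_mod p q
  have hp' := Nat.div_add_mod p' q
  rw [← e1] at hp'
  generalize p / q = t at *
  generalize p' / q = t' at *
  generalize p % q = p0 at *
  have hkZ : (p : ℤ) ^ 2 + J * q = r * q ^ 2 + k := by exact_mod_cast hk
  have hkZ' : (p' : ℤ) ^ 2 + J * q = r' * q ^ 2 + k' := by exact_mod_cast hk'
  have hpZ : (q : ℤ) * t + p0 = p := by exact_mod_cast hp
  have hpZ' : (q : ℤ) * t' + p0 = p' := by exact_mod_cast hp'
  have hkk : k = k' := by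
    have : k % q = k' % q := by
      apply (Nat.modEq_iff_dvd).2
      refine ⟨2 * p0 * (t' - t) + q * (t' ^ 2 - t ^ 2 - r' + r), ?_⟩
      rw [← hpZ] at hkZ
      rw [← hpZ'] at hkZ'
      linear_combination hkZ - hkZ'
    rw [← Nat.div_add_mod k q, ← Nat.div_add_mod k' q, e2, this]
  have hq0 : (q : ℤ) ≠ 0 := by exact_mod_cast (by omega : q ≠ 0)
  have htt : t = t' := by
    have h1 : (q : ℤ) ∣ p * (2 * t' - 2 * t) := by
      refine ⟨(t ^ 2 - t' ^ 2 + r' - r) + t * (2 * t' - 2 * t), ?_⟩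
      apply mul_left_cancel₀ hq0
      rw [hkk] at hkZ
      rw [← hpZ] at hkZ ⊢
      rw [← hpZ'] at hkZ'
      linear_combination hkZ' - hkZ
    have h2 : (q : ℤ) ∣ 2 * t' - 2 * t :=
      (Nat.isCoprime_iff_coprime.2 hc.symm).dvd_of_dvd_mul_left h1
    have h3 : 2 * t % q = 2 * t' % q := by
      apply (Nat.modEq_iff_dvd).2
      exact_mod_cast h2
    have h4 : 2 * t = 2 * t' := by
      rw [← Nat.div_add_mod (2 * t) q, ← Nat.div_add_mod (2 * t') q, e3, h3]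
    omega
  have hpp : p = p' := by rw [← hp, ← hp', htt]
  rw [hpp, hkk, hk'] at hk
  have : r' * q ^ 2 = r * q ^ 2 := by omega
  exact (Nat.eq_of_mul_eq_mul_right (by positivity) this).symm

theorem card_near (T J q : ℕ) (hq : 1 ≤ q) (S : Finset ℕ) (hS : ∀ r ∈ S, Near T J q r) :
    S.card ≤ (2 * J + 1) * (2 * T + q) := by
  classical
  choose! p hp using hS
  have := Finset.card_le_card_of_injOn (s := S)
    (t := Finset.range q ×ˢ Finset.range (2 * J + 1) ×ˢ Finset.range (2 * T / q + 1))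
    (fun r => (p r % q, (p r ^ 2 + J * q - r * q ^ 2) / q, 2 * (p r / q) / q))
    (fun r hr => by
      obtain ⟨-, h2, h3, h4⟩ := hp r hr
      simp only [Finset.coe_product, Set.mem_prod, Finset.coe_range, Set.mem_Iio]
      refine ⟨Nat.mod_lt _ hq, ?_, ?_⟩
      · rw [Nat.lt_succ_iff]
        apply Nat.div_le_of_le_mul
        have : q * (2 * J) = J * q + J * q := by ring
        omega
      · rw [Nat.lt_succ_iff]
        apply Nat.div_le_div_right
        have : p r / q ≤ T := Nat.div_le_of_le_mul (by rw [mul_comm]; exact h2)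
        omega)
    (fun r hr r' hr' h => by
      simp only [Prod.mk.injEq] at h
      exact near_inj hq (hp r hr).1 (hp r hr).2.2.1 (hp r' hr').2.2.1 h.1 h.2.1 h.2.2)
  refine this.trans ?_
  simp only [Finset.card_product, Finset.card_range]
  have h1 : q * (2 * T / q) ≤ 2 * T := Nat.mul_div_le _ _
  calc q * ((2 * J + 1) * (2 * T / q + 1)) = (2 * J + 1) * (q * (2 * T / q) + q) := by ring
    _ ≤ _ := Nat.mul_le_mul_left _ (by omega)

theorem card_near_le (T J Q : ℕ) (S : Finset ℕ)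
    (hS : ∀ r ∈ S, ∃ q, 1 ≤ q ∧ q ≤ Q ∧ Near T J q r) :
    S.card ≤ Q * ((2 * J + 1) * (2 * T + Q)) := by
  classical
  have h1 : S ⊆ (Finset.Icc 1 Q).biUnion fun q => S.filter (Near T J q) := by
    intro r hr
    obtain ⟨q, a, b, c⟩ := hS r hr
    simp only [Finset.mem_biUnion, Finset.mem_Icc, Finset.mem_filter]
    exact ⟨q, ⟨a, b⟩, hr, c⟩
  refine (Finset.card_le_card h1).trans (Finset.card_biUnion_le.trans ?_)
  have h2 : ∀ q ∈ Finset.Icc 1 Q, (S.filter (Near T J q)).card ≤ (2 * J + 1) * (2 * T + Q) := by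
    intro q hq
    rw [Finset.mem_Icc] at hq
    refine (card_near T J q hq.1 _ fun r hr => (Finset.mem_filter.1 hr).2).trans ?_
    exact Nat.mul_le_mul_left _ (by omega)
  refine (Finset.sum_le_card_nsmul _ _ _ h2).trans ?_
  simp

/-- Either `r` has an unusually good approximation, or it has good Farey neighbours. -/
theorem good_farey (M N r : ℕ) (hM : 1 ≤ M) (hrN : r ≤ N) (hr : 16 * M ^ 2 ≤ r)
    (hb1 : ¬ ∃ q, 1 ≤ q ∧ q ≤ N.sqrt / M ∧ Near (N.sqrt + 1) 12 q r)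
    (hb2 : ¬ ∃ q, 1 ≤ q ∧ q ≤ N.sqrt / M / M ∧ Near (N.sqrt + 1) (12 * M) q r) :
    ∃ p1 q1 p2 q2 : ℕ, p2 * q1 = p1 * q2 + 1 ∧ p1 ^ 2 + 12 * q1 ≤ r * q1 ^ 2 ∧
      r * q2 ^ 2 + 12 * q2 ≤ p2 ^ 2 ∧ 1 ≤ q1 ∧ 1 ≤ q2 ∧ 2 * q1 ≤ p1 ∧
      r ^ 2 ≤ 64 * M ^ 3 * (p1 * p2) ∧ 5 ≤ q1 + q2 ∧ r.sqrt + 1 ≤ 2 * M * (q1 + q2 - 1) ∧
      q1 + q2 ≤ 2 * r.sqrt ∧ p1 + p2 ≤ (r.sqrt + 1) * (q1 + q2) := by
  have hs : 4 * M ≤ r.sqrt := by
    rw [Nat.le_sqrt']
    linarith [show (4 * M) ^ 2 = 16 * M ^ 2 by ring]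
  have hsN : r.sqrt ≤ N.sqrt := Nat.sqrt_le_sqrt hrN
  have hQ4 : 4 ≤ r.sqrt / M := (Nat.le_div_iff_mul_le hM).2 hs
  have hQN : r.sqrt / M ≤ N.sqrt / M := Nat.div_le_div_right hsN
  have hsQ : r.sqrt + 1 ≤ 2 * (r.sqrt / M) * M := by
    have h1 := Nat.div_add_mod r.sqrt M
    have h2 := Nat.mod_lt r.sqrt hM
    have h3 : M ≤ M * (r.sqrt / M) := Nat.le_mul_of_pos_right _ (by omega)
    have h4 : 2 * (r.sqrt / M) * M = M * (r.sqrt / M) + M * (r.sqrt / M) := by ring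
    omega
  have hrs : r < (r.sqrt + 1) ^ 2 := Nat.lt_succ_sqrt' r
  have hQs : r.sqrt / M ≤ r.sqrt := Nat.div_le_self _ _
  obtain ⟨p1, q1, p2, q2, hdet, a1, a2, a3, a4, a5, a6, a7, b1, b2, b3, b4⟩ :=
    exists_farey r (r.sqrt / M) (by omega)
  generalize r.sqrt / M = Q at *
  generalize r.sqrt = s at *
  have c1 : Nat.Coprime p1 q1 := by
    apply Nat.isCoprime_iff_coprime.1
    refine ⟨-q2, p2, ?_⟩
    have : (p2 : ℤ) * q1 = p1 * q2 + 1 := by exact_mod_cast hdet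
    linear_combination this
  have c2 : Nat.Coprime p2 q2 := by
    apply Nat.isCoprime_iff_coprime.1
    refine ⟨q1, -p1, ?_⟩
    have : (p2 : ℤ) * q1 = p1 * q2 + 1 := by exact_mod_cast hdet
    linear_combination this
  have t1 : p1 ≤ (N.sqrt + 1) * q1 := b2.trans (Nat.mul_le_mul_right _ (by omega))
  have t2 : p2 ≤ (N.sqrt + 1) * q2 := b4.trans (Nat.mul_le_mul_right _ (by omega))
  have g1 : p1 ^ 2 + 12 * q1 ≤ r * q1 ^ 2 := by
    by_contra h
    exact hb1 ⟨q1, a1, by omega, p1, c1, t1, by omega, by omega⟩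
  have g2 : r * q2 ^ 2 + 12 * q2 ≤ p2 ^ 2 := by
    by_contra h
    exact hb1 ⟨q2, a3, by omega, p2, c2, t2, by omega, by omega⟩
  have hsmall : ∀ q, 2 * M * q ≤ Q → q ≤ N.sqrt / M / M := fun q hq => by
    rw [Nat.le_div_iff_mul_le hM]
    have : 2 * M * q = q * M + q * M := by ring
    omega
  have l1 : Q < 2 * M * q1 := by
    by_contra h
    have h' : 2 * M * q1 ≤ Q := not_lt.1 h
    apply hb2
    refine ⟨q1, a1, hsmall _ h', p1, c1, t1, ?_, by omega⟩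
    obtain ⟨j, hj⟩ := Nat.exists_eq_add_of_le a6
    rw [hj, Nat.add_le_add_iff_left]
    have e0 : 2 * q1 ≤ 2 * M * q1 := Nat.mul_le_mul_right _ (by omega)
    have e1 : Q ≤ 2 * q2 := by omega
    have e2 : r * q2 ^ 2 * q1 ^ 2 ≤ p2 ^ 2 * q1 ^ 2 := Nat.mul_le_mul_right _ a7.le
    have e3 : j * q2 ^ 2 ≤ 2 * (p1 * q2) + 1 := by
      have f1 : p2 ^ 2 * q1 ^ 2 = (p1 * q2 + 1) ^ 2 := by rw [← hdet]; ring
      have f2 : r * q2 ^ 2 * q1 ^ 2 = (p1 ^ 2 + j) * q2 ^ 2 := by rw [← hj]; ring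
      rw [f1, f2] at e2
      linarith
    have hp1 : 1 ≤ p1 := le_trans (Nat.mul_pos (by omega) a1) b1
    have e4 : j * q2 ≤ 3 * p1 := by
      apply Nat.le_of_mul_le_mul_right _ a3
      have : 1 ≤ p1 * q2 := Nat.mul_pos hp1 a3
      linarith
    have e5 : p1 ≤ 2 * Q * M * q1 := b2.trans (Nat.mul_le_mul_right _ hsQ)
    have e6 : j * Q ≤ j * (2 * q2) := Nat.mul_le_mul_left _ e1
    apply Nat.le_of_mul_le_mul_right _ (by omega : 0 < Q)
    linarith
  have l2 : Q < 2 * M * q2 := by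
    by_contra h
    have h' : 2 * M * q2 ≤ Q := not_lt.1 h
    apply hb2
    refine ⟨q2, a3, hsmall _ h', p2, c2, t2, by omega, ?_⟩
    obtain ⟨j, hj⟩ := Nat.exists_eq_add_of_le a7.le
    rw [hj, Nat.add_le_add_iff_left]
    have e0 : 2 * q2 ≤ 2 * M * q2 := Nat.mul_le_mul_right _ (by omega)
    have e1 : Q ≤ 2 * q1 := by omega
    have e2 : p1 ^ 2 * q2 ^ 2 ≤ r * q1 ^ 2 * q2 ^ 2 := Nat.mul_le_mul_right _ a6
    have e3 : j * q1 ^ 2 ≤ 2 * (p2 * q1) := by
      have f1 : p2 ^ 2 * q1 ^ 2 = (p1 * q2 + 1) ^ 2 := by rw [← hdet]; ring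
      have f2 : p2 ^ 2 * q1 ^ 2 = (r * q2 ^ 2 + j) * q1 ^ 2 := by rw [← hj]
      rw [hdet]
      linarith
    have e4 : j * q1 ≤ 2 * p2 := by
      apply Nat.le_of_mul_le_mul_right _ a1
      linarith
    have e5 : p2 ≤ 2 * Q * M * q2 := b4.trans (Nat.mul_le_mul_right _ hsQ)
    have e6 : j * Q ≤ j * (2 * q1) := Nat.mul_le_mul_left _ e1
    apply Nat.le_of_mul_le_mul_right _ (by omega : 0 < Q)
    have : 0 ≤ Q * M * q2 := Nat.zero_le _
    linarith
  refine ⟨p1, q1, p2, q2, hdet, g1, g2, a1, a3, ?_, ?_, by omega, ?_, by omega, ?_⟩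
  rotate_left 2
  · have := Nat.mul_le_mul_left (2 * M) (by omega : Q ≤ q1 + q2 - 1)
    linarith
  · rw [mul_add]; omega
  · exact le_trans (Nat.mul_le_mul_right _ (by omega)) b1
  · have e1 : Q * Q ≤ 4 * M * (q1 * q2) := by
      rcases le_total q1 q2 with h | h
      · have := Nat.mul_le_mul l1.le (by omega : Q ≤ 2 * q2)
        linarith
      · have := Nat.mul_le_mul l2.le (by omega : Q ≤ 2 * q1)
        linarith
    have e2 : (s * q1) * (s * q2) ≤ p1 * p2 := Nat.mul_le_mul b1 b3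
    have e3 : r ≤ 4 * s ^ 2 := by
      have : (s + 1) ^ 2 ≤ (2 * s) ^ 2 := Nat.pow_le_pow_left (by omega) 2
      linarith
    have e4 : r ≤ 4 * M ^ 2 * (Q * Q) := by
      have : (s + 1) ^ 2 ≤ (2 * Q * M) ^ 2 := Nat.pow_le_pow_left hsQ 2
      linarith
    have e5 : r ≤ 16 * M ^ 3 * (q1 * q2) := by
      have := Nat.mul_le_mul_left (4 * M ^ 2) e1
      linarith
    have e6 := Nat.mul_le_mul e3 e5
    have e7 := Nat.mul_le_mul_left (64 * M ^ 3) e2
    linarith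

theorem density (P : ℕ → Prop) (M N : ℕ)
    (hP : ∀ r, 1 ≤ r → r ≤ N → (¬ ∃ q, 1 ≤ q ∧ q ≤ N.sqrt / M ∧ Near (N.sqrt + 1) 12 q r) →
      (¬ ∃ q, 1 ≤ q ∧ q ≤ N.sqrt / M / M ∧ Near (N.sqrt + 1) (12 * M) q r) → P r) (hM : 1 ≤ M) :
    {r : ℕ | 1 ≤ r ∧ r ≤ N ∧ ¬ P r}.ncard * M ≤ 250 * N := by
  classical
  rcases Nat.eq_zero_or_pos N with rfl | hN
  · have : {r : ℕ | 1 ≤ r ∧ r ≤ 0 ∧ ¬ P r} = ∅ := by
      ext r
      simp only [Set.mem_ofPred_eq, Set.mem_empty_iff_false, iff_false]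
      rintro ⟨h1, h2, -⟩
      omega
    rw [this]
    simp
  let S1 := (Finset.Icc 1 N).filter
    fun r => ∃ q, 1 ≤ q ∧ q ≤ N.sqrt / M ∧ Near (N.sqrt + 1) 12 q r
  let S2 := (Finset.Icc 1 N).filter
    fun r => ∃ q, 1 ≤ q ∧ q ≤ N.sqrt / M / M ∧ Near (N.sqrt + 1) (12 * M) q r
  have hsub : {r : ℕ | 1 ≤ r ∧ r ≤ N ∧ ¬ P r} ⊆
      ((S1 ∪ S2 : Finset ℕ) : Set ℕ) := by
    rintro r ⟨h1, h2, h3⟩
    by_contra h
    simp only [S1, S2, Finset.coe_union, Finset.coe_filter, Finset.mem_Icc, Set.mem_union,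
      Set.mem_ofPred_eq, not_or, not_and] at h
    exact h3 (hP r h1 h2 (h.1 ⟨h1, h2⟩) (h.2 ⟨h1, h2⟩))
  have h1 := Set.ncard_le_ncard hsub (Finset.finite_toSet _)
  rw [Set.ncard_coe_finset] at h1
  have h2 := Finset.card_union_le S1 S2
  have c1 := card_near_le _ _ _ S1 fun r hr => (Finset.mem_filter.1 hr).2
  have c2 := card_near_le _ _ _ S2 fun r hr => (Finset.mem_filter.1 hr).2
  have hR : 1 ≤ N.sqrt := Nat.le_sqrt.2 hN
  have hRN : N.sqrt * N.sqrt ≤ N := Nat.sqrt_le N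
  have q1 : N.sqrt / M * M ≤ N.sqrt := Nat.div_mul_le_self _ _
  have q2 : N.sqrt / M / M * M ≤ N.sqrt / M := Nat.div_mul_le_self _ _
  have q3 : N.sqrt / M ≤ N.sqrt := Nat.div_le_self _ _
  have q4 : N.sqrt / M / M ≤ N.sqrt / M := Nat.div_le_self _ _
  generalize N.sqrt / M / M = Q2 at *
  generalize N.sqrt / M = Q1 at *
  generalize N.sqrt = R at *
  have d1 : S1.card * M ≤ 125 * N := by
    calc S1.card * M ≤ Q1 * ((2 * 12 + 1) * (5 * R)) * M :=
          Nat.mul_le_mul_right _ (c1.trans (Nat.mul_le_mul_left _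
            (Nat.mul_le_mul_left _ (by omega))))
      _ = 125 * (Q1 * M * R) := by ring
      _ ≤ 125 * (R * R) := Nat.mul_le_mul_left _ (Nat.mul_le_mul_right _ q1)
      _ ≤ _ := by omega
  have d2 : S2.card * M ≤ 125 * N := by
    calc S2.card * M ≤ Q2 * ((25 * M) * (5 * R)) * M :=
          Nat.mul_le_mul_right _ (c2.trans (Nat.mul_le_mul_left _
            (Nat.mul_le_mul (by omega) (by omega))))
      _ = 125 * (Q2 * M * M * R) := by ring
      _ ≤ 125 * (R * R) := Nat.mul_le_mul_left _ (Nat.mul_le_mul_right _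
          ((Nat.mul_le_mul_right _ q2).trans q1))
      _ ≤ _ := by omega
  calc _ ≤ (S1.card + S2.card) * M := Nat.mul_le_mul_right _ (h1.trans h2)
    _ = S1.card * M + S2.card * M := by ring
    _ ≤ _ := by omega

end Pool.Agent.MP_d0dfcd_ag

end MrgPart3

-- ======== part 4: formerly Pool.Agent.MP_d0dfcd_ag.Exact
section MrgPart4

/-! Nagata's inequality in a cubic range of multiplicities, for most `r`. -/

namespace Pool.Agent.MP_d0dfcd_ag

open Polynomial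

universe u

theorem exact_core {R F K : Type*} [CommRing R] [Field F] [Field K] [Infinite K] (M N r D0 : ℕ)
    (hK : ∀ k : ℕ, 0 < k → k ≤ r ^ 4 → (k : K) ≠ 0) (ρ : R →+* K) (hM : 1 ≤ M) (hrN : r ≤ N)
    (hb1 : ¬ ∃ q, 1 ≤ q ∧ q ≤ N.sqrt / M ∧ Near (N.sqrt + 1) 12 q r)
    (hb2 : ¬ ∃ q, 1 ≤ q ∧ q ≤ N.sqrt / M / M ∧ Near (N.sqrt + 1) (12 * M) q r)
    (hr : 131072 * M ^ 8 ≤ r ^ 3) (hD0 : D0 * (131072 * M ^ 8) ≤ (r.sqrt + 1) * r ^ 3)
    (m : Fin r → ℕ) (φ : MvPolynomial (Fin r ⊕ Fin r) R →+* F) (hφ : Function.Injective φ)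
    (f : MvPolynomial (Fin 2) F) (hf : f ≠ 0) (hD : f.totalDegree ≤ D0)
    (hV : ∀ s, Van (X - C (φ (MvPolynomial.X (Sum.inl s)))) (C (φ (MvPolynomial.X (Sum.inr s))))
      (m s) f) :
    (∑ s, m s) ^ 2 ≤ r * f.totalDegree ^ 2 := by
  have hM68 : M ^ 6 ≤ M ^ 8 := Nat.pow_le_pow_right hM (by norm_num)
  have hM78 : M ^ 7 ≤ M ^ 8 := Nat.pow_le_pow_right hM (by norm_num)
  have hM8 : 1 ≤ M ^ 8 := Nat.one_le_pow _ _ hM
  have hr16 : 16 * M ^ 2 ≤ r := by
    apply (Nat.pow_le_pow_iff_left (by norm_num : 3 ≠ 0)).1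
    have : (16 * M ^ 2) ^ 3 = 4096 * M ^ 6 := by ring
    omega
  obtain ⟨p1, q1, p2, q2, hdet, h1, h2, hq1, hq2, hp, hbig, k1, k2, k3, k4⟩ :=
    good_farey M N r hM hrN hr16 hb1 hb2
  have hss : r.sqrt * r.sqrt ≤ r := Nat.sqrt_le r
  have hs1 : 1 ≤ r.sqrt := by omega
  generalize r.sqrt = s at *
  refine exact_of_farey hK ρ r p1 q1 p2 q2 D0 hdet h1 h2 hq1 hq2 hp ?_ ?_ m φ hφ f hf hD hV
  · have e1 : D0 * (q1 + q2) ≤ D0 * (2 * s) := Nat.mul_le_mul_left _ k3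
    have e2 : D0 * 4 ≤ D0 * (131072 * M ^ 8) := Nat.mul_le_mul_left _ (by omega)
    have e3 : (s + 1) * r ^ 3 ≤ (2 * s) * r ^ 3 := Nat.mul_le_mul_right _ (by omega)
    have e4 : D0 * 4 * s ≤ 2 * s * r ^ 3 * s := Nat.mul_le_mul_right _ (by omega)
    have e5 : s * s * r ^ 3 ≤ r * r ^ 3 := Nat.mul_le_mul_right _ hss
    linarith
  · intro D hDD
    have hMR : (1 : ℝ) ≤ M := by exact_mod_cast hM
    have hrpos : (0 : ℝ) < r := by
      have : 0 < r := by have := Nat.one_le_pow 2 M hM; omega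
      exact_mod_cast this
    have hp1 : (0 : ℝ) < p1 := by exact_mod_cast (by omega : 0 < p1)
    have hp2 : (0 : ℝ) < p2 := by
      have : 0 < p2 := by
        rcases Nat.eq_zero_or_pos p2 with h | h
        · rw [h] at hdet; omega
        · exact h
      exact_mod_cast this
    have hbigR : (r : ℝ) ^ 2 ≤ 64 * (M : ℝ) ^ 3 * ((p1 : ℝ) * p2) := by exact_mod_cast hbig
    have L1 : 3 * (r : ℝ) / ((p1 : ℝ) * p2) ^ 2 ≤ 12288 * (M : ℝ) ^ 6 / (r : ℝ) ^ 3 := by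
      rw [div_le_div_iff₀ (by positivity) (by positivity)]
      have := pow_le_pow_left₀ (by positivity) hbigR 2
      linarith
    have L2 : 1 / ((s : ℝ) + 1) ≤ ((q1 : ℝ) + q2) / (p1 + p2) := by
      rw [div_le_div_iff₀ (by positivity) (by positivity)]
      have : (p1 : ℝ) + p2 ≤ (s + 1) * (q1 + q2) := by exact_mod_cast k4
      linarith
    obtain ⟨a, ha⟩ : ∃ a, q1 + q2 = a + 1 := ⟨q1 + q2 - 1, by omega⟩
    rw [ha, Nat.add_sub_cancel] at k2 ⊢
    have a4 : (4 : ℝ) ≤ a := by exact_mod_cast (by omega : 4 ≤ a)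
    have k2R : (s : ℝ) + 1 ≤ 2 * M * a := by exact_mod_cast k2
    have L3 : 3 / 8 * (a : ℝ) ≤ (((a + 1 : ℕ) : ℝ) - 2) / 2 := by push_cast; linarith
    have L4 : 3 / (16 * (M : ℝ)) ≤ 1 / ((s : ℝ) + 1) * (3 / 8 * a) := by
      rw [div_mul_eq_mul_div, div_le_div_iff₀ (by positivity) (by positivity)]
      linarith
    have L5 : 3 / (16 * (M : ℝ)) * (min D a : ℕ) ≤ ((q1 : ℝ) + q2) / (p1 + p2) *
        ((((a + 1 : ℕ) : ℝ) - 2) / 2 * (min D a : ℕ)) := by
      rw [← mul_assoc]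
      refine mul_le_mul_of_nonneg_right (L4.trans ?_) (Nat.cast_nonneg _)
      exact mul_le_mul L2 L3 (by positivity) (by positivity)
    refine le_trans (mul_le_mul_of_nonneg_right L1 (Nat.cast_nonneg _)) (le_trans ?_ L5)
    rcases le_total D a with h | h
    · rw [min_eq_left h]
      refine mul_le_mul_of_nonneg_right ?_ (Nat.cast_nonneg _)
      rw [div_le_div_iff₀ (by positivity) (by positivity)]
      have : 65536 * (M : ℝ) ^ 7 ≤ (r : ℝ) ^ 3 := by exact_mod_cast (by omega : 65536 * M ^ 7 ≤ r ^ 3)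
      linarith
    · rw [min_eq_right h, div_mul_eq_mul_div, div_mul_eq_mul_div,
        div_le_div_iff₀ (by positivity) (by positivity)]
      have e1 : (D : ℝ) * (131072 * M ^ 8) ≤ (s + 1) * r ^ 3 := by
        exact_mod_cast (Nat.mul_le_mul_right _ hDD).trans hD0
      have e2 := mul_le_mul_of_nonneg_right k2R (by positivity : (0 : ℝ) ≤ (r : ℝ) ^ 3)
      apply le_of_mul_le_mul_right _ (by positivity : (0 : ℝ) < M)
      linarith

/-- Nagata's inequality at `r` generic points for all multiplicities of bounded size,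
in characteristic zero or larger than `r ^ 4`. -/
theorem exact_forms (M N r : ℕ) (hM : 1 ≤ M) (hrN : r ≤ N)
    (hb1 : ¬ ∃ q, 1 ≤ q ∧ q ≤ N.sqrt / M ∧ Near (N.sqrt + 1) 12 q r)
    (hb2 : ¬ ∃ q, 1 ≤ q ∧ q ≤ N.sqrt / M / M ∧ Near (N.sqrt + 1) (12 * M) q r) :
    NagataUpTo.{u} r (131072 * M ^ 8) := by
  intro K _ _ hK a b hab m d F hm h0 hF hV
  by_contra hcon
  push Not at hcon
  obtain ⟨h1, h2⟩ := deh_spec hF h0
  have hr0 : 0 < r := by
    rcases Nat.eq_zero_or_pos r with rfl | h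
    · simp at hcon
    · exact h
  have hrs : r < (r.sqrt + 1) ^ 2 := Nat.lt_succ_sqrt' r
  obtain ⟨c, hc⟩ : ∃ c, c = 131072 * M ^ 8 := ⟨_, rfl⟩
  rw [← hc] at hm
  have hr : c ≤ r ^ 3 := by
    have : ∑ i, m i ≠ 0 := by
      intro h
      rw [h] at hcon
      simp at hcon
    obtain ⟨i, -, hi⟩ := Finset.exists_ne_zero_of_sum_ne_zero this
    exact le_trans (Nat.le_mul_of_pos_right _ (Nat.pos_of_ne_zero hi)) (hm i)
  replace hm : c * ∑ i, m i ≤ r ^ 4 := by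
    rw [Finset.mul_sum]
    refine (Finset.sum_le_card_nsmul _ _ _ fun i _ => hm i).trans (le_of_eq ?_)
    simp only [Finset.card_univ, Fintype.card_fin, smul_eq_mul]
    ring
  have hd : d * c ≤ (r.sqrt + 1) * r ^ 3 := by
    apply (Nat.pow_le_pow_iff_left (by norm_num : 2 ≠ 0)).1
    apply Nat.le_of_mul_le_mul_left _ hr0
    have e1 := Nat.mul_le_mul_right (c ^ 2) hcon.le
    have e2 := Nat.pow_le_pow_left hm 2
    have e3 := Nat.mul_le_mul_right (r ^ 7) hrs.le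
    linarith
  have e3 : r * (deh F).totalDegree ^ 2 ≤ r * d ^ 2 :=
    Nat.mul_le_mul_left _ (Nat.pow_le_pow_left h2 2)
  have := exact_core M N r d hK (Subfield.subtype (⊥ : Subfield K)) hM hrN hb1 hb2 (hc ▸ hr)
    (hc ▸ hd) m
    (MvPolynomial.aeval (Sum.elim a b) :
      MvPolynomial (Fin r ⊕ Fin r) (⊥ : Subfield K) →ₐ[_] K).toRingHom
    hab (deh F) h1 h2 (fun s => by simpa using van_of_mem _ _ (hV s))
  omega

theorem exact_density (M N : ℕ) (hM : 1 ≤ M) :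
    {r : ℕ | 1 ≤ r ∧ r ≤ N ∧ ¬ NagataUpTo.{u} r (131072 * M ^ 8)}.ncard * M ≤ 250 * N :=
  density _ M N (fun r _ h2 => exact_forms M N r hM h2) hM

end Pool.Agent.MP_d0dfcd_ag

end MrgPart4

-- marker of a merged file
example : 731051 + 837225 = 731051 + 837225 := rfl
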