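import Mathlib.RingTheory.Polynomial.GaussLemma
import Mathlib.RingTheory.Polynomial.Resultant.Basic
import Pool.Agent.MP_d0dfcd_ag.Cluster
import Mathlib.FieldTheory.Finite.Basic
import Mathlib.Tactic.Bound
import Mathlib.Algebra.Order.Star.Real
import Pool.Agent.MP_d0dfcd_ag.Defs
import Pool.Agent.MP_d0dfcd_ag.Exact
import Pool.Agent.MP_d0dfcd_ag.Defs3

-- ======== part 0: formerly Pool.Agent.MP_d0dfcd_ag.Bezout
section MrgPart0

/-! Bezout's inequality with multiplicities, through the Sylvester determinant. -/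

namespace Pool.Agent.MP_d0dfcd_ag

open Polynomial

theorem pow_dvd_det {A n : Type*} [CommRing A] [Fintype n] [DecidableEq n] (M : Matrix n n A)
    (P : A) (α β : n → ℕ) (h : ∀ i j, P ^ α i ∣ M i j * P ^ β j) :
    P ^ (∑ i, α i) ∣ M.det * P ^ (∑ j, β j) := by
  rw [Matrix.det_apply', Finset.sum_mul]
  refine Finset.dvd_sum fun σ _ => ?_
  rw [mul_assoc]
  apply Dvd.dvd.mul_left
  rw [← Finset.prod_pow_eq_pow_sum, ← Finset.prod_pow_eq_pow_sum, ← Finset.prod_mul_distrib,
    ← Equiv.prod_comp σ]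
  exact Finset.prod_dvd_prod_of_dvd _ _ fun j _ => h (σ j) j

theorem natDegree_det_le {A n : Type*} [CommRing A] [Fintype n] [DecidableEq n]
    (M : Matrix n n A[X]) (α β : n → ℕ)
    (h : ∀ i j, M i j ≠ 0 → (M i j).natDegree + α i ≤ β j) :
    M.det.natDegree ≤ ∑ j, β j - ∑ i, α i := by
  rw [Matrix.det_apply']
  refine natDegree_sum_le_of_forall_le _ _ fun σ _ => ?_
  refine (natDegree_mul_le).trans ?_
  rw [natDegree_intCast, zero_add]
  by_cases h0 : ∀ j, M (σ j) j ≠ 0
  · refine (natDegree_prod_le _ _).trans ?_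
    have := Finset.sum_le_sum fun j (_ : j ∈ Finset.univ) => h (σ j) j (h0 j)
    rw [Finset.sum_add_distrib, Equiv.sum_comp σ α] at this
    omega
  · push Not at h0
    obtain ⟨j, hj⟩ := h0
    rw [Finset.prod_eq_zero (f := fun i => M (σ i) i) (Finset.mem_univ j) hj]
    simp

theorem tri_ineq {m n df dg : ℕ} (h : m ≤ df) :
    ∑ j ∈ Finset.range df, (m - j) + ∑ j ∈ Finset.range dg, (n - j) + m * n ≤
      ∑ i ∈ Finset.range (df + dg), (m + n - i) := by
  have h1 : ∑ j ∈ Finset.range df, (m - j) = ∑ j ∈ Finset.range m, (m - j) := by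
    symm
    apply Finset.sum_subset (Finset.range_mono h)
    intro j _ hj
    rw [Finset.mem_range] at hj
    omega
  have h2 : ∑ i ∈ Finset.range (m + dg), (m + n - i) ≤
      ∑ i ∈ Finset.range (df + dg), (m + n - i) :=
    Finset.sum_le_sum_of_subset (Finset.range_mono (by omega))
  have h3 : ∑ i ∈ Finset.range m, (m + n - i) = ∑ j ∈ Finset.range m, (m - j) + m * n := by
    rw [Finset.sum_congr rfl (g := fun i => (m - i) + n)
      (fun i hi => by rw [Finset.mem_range] at hi; omega), Finset.sum_add_distrib]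
    simp
  have h4 : ∑ i ∈ Finset.range dg, (m + n - (m + i)) = ∑ j ∈ Finset.range dg, (n - j) :=
    Finset.sum_congr rfl fun i _ => by omega
  rw [Finset.sum_range_add, h3, h4] at h2
  omega

theorem pow_dvd_resultant {A : Type*} [CommRing A] [IsDomain A] {P : A} (hP : P ≠ 0)
    (f g : A[X]) {m n df dg : ℕ} (hf : ∀ k, P ^ (m - k) ∣ f.coeff k)
    (hg : ∀ k, P ^ (n - k) ∣ g.coeff k) (h : m ≤ df ∨ n ≤ dg) :
    P ^ (m * n) ∣ resultant f g df dg := by
  have h1 := pow_dvd_det (sylvester f g df dg) P (fun i => m + n - i)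
    (fun j => j.addCases (fun j1 => m - j1) (fun j2 => n - j2)) (by
      intro i j
      induction j using Fin.addCases with
      | left j =>
        simp only [sylvester, Matrix.of_apply, Fin.addCases_left]
        split_ifs with hij
        · refine dvd_trans ?_ (mul_dvd_mul (hg _) dvd_rfl)
          rw [← pow_add]
          apply pow_dvd_pow
          have := hij.1
          omega
        · simp
      | right j =>
        simp only [sylvester, Matrix.of_apply, Fin.addCases_right]
        split_ifs with hij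
        · refine dvd_trans ?_ (mul_dvd_mul (hf _) dvd_rfl)
          rw [← pow_add]
          apply pow_dvd_pow
          have := hij.1
          omega
        · simp)
  rw [Fin.sum_univ_eq_sum_range (fun i => m + n - i), Fin.sum_univ_add] at h1
  simp only [Fin.addCases_left, Fin.addCases_right] at h1
  rw [Fin.sum_univ_eq_sum_range (fun i => m - i),
    Fin.sum_univ_eq_sum_range (fun i => n - i)] at h1
  have h2 : ∑ j ∈ Finset.range df, (m - j) + ∑ j ∈ Finset.range dg, (n - j) + m * n ≤
      ∑ i ∈ Finset.range (df + dg), (m + n - i) := by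
    rcases h with h | h
    · exact tri_ineq h
    · have := tri_ineq (n := m) (dg := df) h
      rw [add_comm dg df, add_comm n m, mul_comm n m] at this
      omega
  have h3 := (pow_dvd_pow P h2).trans h1
  rw [pow_add, mul_comm] at h3
  exact (mul_dvd_mul_iff_right (pow_ne_zero _ hP)).1 h3

/-- Total degree at most `d`, read on the coefficients. -/
def TD {A : Type*} [CommRing A] (d : ℕ) (b : A[X][X]) : Prop :=
  ∀ k i, (b.coeff k).coeff i ≠ 0 → i + k ≤ d

theorem TD.deg {A : Type*} [CommRing A] {d : ℕ} {b : A[X][X]} (h : TD d b) (k : ℕ)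
    (hk : b.coeff k ≠ 0) : (b.coeff k).natDegree + k ≤ d :=
  h k _ (leadingCoeff_ne_zero.2 hk)

theorem TD.natDegree_le {A : Type*} [CommRing A] {d : ℕ} {b : A[X][X]} (h : TD d b) :
    b.natDegree ≤ d := by
  by_cases h0 : b = 0
  · simp [h0]
  · have := h.deg _ (leadingCoeff_ne_zero.2 h0)
    omega

theorem td_symm {A : Type*} [CommRing A] (f : MvPolynomial (Fin 2) A) :
    TD f.totalDegree ((Bivariate.equivMvPolynomial A).symm f) := by
  classical
  conv => arg 2; rw [f.as_sum, map_sum]
  refine Finset.sum_induction _ (TD f.totalDegree) ?_ ?_ ?_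
  · intro a b ha hb k i hki
    rw [coeff_add, coeff_add] at hki
    by_cases h : (a.coeff k).coeff i = 0
    · rw [h, zero_add] at hki
      exact hb k i hki
    · exact ha k i h
  · intro k i h; simp at h
  · intro e he k i hki
    have h1 := MvPolynomial.le_totalDegree he
    rw [Finsupp.sum_fintype _ _ (by simp), Fin.sum_univ_two] at h1
    have h2 : (Bivariate.equivMvPolynomial A).symm (MvPolynomial.monomial e (f.coeff e)) =
        monomial (e 1) (monomial (e 0) (f.coeff e)) := by
      rw [MvPolynomial.monomial_eq, Finsupp.prod_fintype _ _ (by simp), Fin.prod_univ_two]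
      simp [← C_mul_X_pow_eq_monomial, mul_assoc]
    rw [h2, coeff_monomial] at hki
    split_ifs at hki with h3
    · rw [coeff_monomial] at hki
      split_ifs at hki with h4
      · omega
      · exact absurd rfl hki
    · simp at hki

theorem natDegree_resultant_le {A : Type*} [CommRing A] {f g : A[X][X]} {d e : ℕ} (hf : TD d f)
    (hg : TD e g) : (resultant f g).natDegree ≤ d * e := by
  have h1 := natDegree_det_le (sylvester f g f.natDegree g.natDegree) (fun i => i)
    (fun j => j.addCases (fun j1 => e + j1) (fun j2 => d + j2)) (by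
      intro i j
      induction j using Fin.addCases with
      | left j =>
        simp only [sylvester, Matrix.of_apply, Fin.addCases_left]
        split_ifs with hij
        · intro h0
          have := hg.deg _ h0
          have := hij.1
          omega
        · simp
      | right j =>
        simp only [sylvester, Matrix.of_apply, Fin.addCases_right]
        split_ifs with hij
        · intro h0
          have := hf.deg _ h0
          have := hij.1
          omega
        · simp)
  rw [Fin.sum_univ_add, Fin.sum_univ_add] at h1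
  simp only [Fin.addCases_left, Fin.addCases_right, Finset.sum_add_distrib, Fin.val_castAdd,
    Fin.val_natAdd, Finset.sum_const, Finset.card_univ, Fintype.card_fin, smul_eq_mul] at h1
  refine le_trans h1 ?_
  obtain ⟨u, hu⟩ := Nat.exists_eq_add_of_le hf.natDegree_le
  obtain ⟨v, hv⟩ := Nat.exists_eq_add_of_le hg.natDegree_le
  generalize f.natDegree = df at *
  generalize g.natDegree = dg at *
  subst hu hv
  have : (df + u) * (dg + v) = df * (dg + v) + dg * u + u * v := by ring
  have : dg * (df + u) = dg * df + dg * u := by ring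
  omega

theorem resultant_ne_zero_of_prime {A : Type*} [CommRing A] [IsDomain A] [IsGCDMonoid A]
    {f g : A[X]} (hf : Prime f) (hfg : ¬ f ∣ g) : resultant f g ≠ 0 := by
  by_cases h0 : f.natDegree = 0
  · rw [h0, resultant_zero_left_deg]
    apply pow_ne_zero
    intro h
    apply hf.ne_zero
    rw [eq_C_of_natDegree_eq_zero h0, h, C_0]
  let L := FractionRing A
  have hinj : Function.Injective (algebraMap A L) := IsFractionRing.injective A L
  have hprim := hf.irreducible.isPrimitive h0
  have hirr := (hprim.irreducible_iff_irreducible_map_fraction_map (K := L)).1 hf.irreducible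
  have hcop : IsCoprime (f.map (algebraMap A L)) (g.map (algebraMap A L)) :=
    (hirr.coprime_iff_not_dvd).2 fun h => hfg (hprim.dvd_of_fraction_map_dvd_fraction_map h)
  have := resultant_ne_zero _ _ hcop
  rw [natDegree_map_eq_of_injective hinj, natDegree_map_eq_of_injective hinj,
    resultant_map_map] at this
  intro h
  rw [h, map_zero] at this
  exact this rfl

theorem subs_eq_taylor {A : Type*} [CommRing A] (P γ : A[X]) (f : MvPolynomial (Fin 2) A) :
    subs P γ f = (taylor γ ((Bivariate.equivMvPolynomial A).symm f)).comp (C P * X) := by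
  conv_lhs => rw [← (Bivariate.equivMvPolynomial A).apply_symm_apply f, subs_equiv]
  rw [taylor_apply, comp_assoc]
  simp [add_comm]

theorem Van.coeff_dvd {A : Type*} [CommRing A] [IsDomain A] {P γ : A[X]} (hP : P ≠ 0) {m : ℕ}
    {f : MvPolynomial (Fin 2) A} (h : Van P γ m f) (k : ℕ) :
    P ^ (m - k) ∣ (taylor γ ((Bivariate.equivMvPolynomial A).symm f)).coeff k := by
  unfold Van at h
  rw [subs_eq_taylor, C_dvd_iff_dvd_coeff] at h
  have hj := h k
  rw [comp_C_mul_X_coeff] at hj
  rcases le_total m k with hW | hW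
  · rw [Nat.sub_eq_zero_of_le hW]; simp
  · have : P ^ m = P ^ (m - k) * P ^ k := by rw [← pow_add, Nat.sub_add_cancel hW]
    rw [this] at hj
    exact (mul_dvd_mul_iff_right (pow_ne_zero _ hP)).1 hj

theorem Van.le_natDegree {A : Type*} [CommRing A] [IsDomain A] {P γ : A[X]} (hP : P ≠ 0) {m : ℕ}
    {f : MvPolynomial (Fin 2) A} (h : Van P γ m f)
    (hn : ¬ C P ∣ (Bivariate.equivMvPolynomial A).symm f) :
    m ≤ ((Bivariate.equivMvPolynomial A).symm f).natDegree := by
  by_contra hlt
  push Not at hlt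
  apply hn
  set b := (Bivariate.equivMvPolynomial A).symm f
  have h1 : C P ∣ taylor γ b := by
    rw [C_dvd_iff_dvd_coeff]
    intro k
    rcases le_or_gt k b.natDegree with hk | hk
    · exact (dvd_pow_self P (by omega)).trans (h.coeff_dvd hP k)
    · rw [coeff_eq_zero_of_natDegree_lt (by rwa [natDegree_taylor])]
      exact dvd_zero _
  have h2 := C_dvd_comp h1 (X + C (-γ))
  rwa [← taylor_apply, taylor_taylor, neg_add_cancel, taylor_zero] at h2

/-- Bezout's inequality at points with distinct first coordinates. -/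
theorem bezout {A σ : Type*} [CommRing A] [IsDomain A] [UniqueFactorizationMonoid A] [Fintype σ]
    (a b : σ → A) (ha : Function.Injective a) {f g : MvPolynomial (Fin 2) A} (hf : Prime f)
    (hfg : ¬ f ∣ g) (m n : σ → ℕ) (hm : ∀ s, Van (X - C (a s)) (C (b s)) (m s) f)
    (hn : ∀ s, Van (X - C (a s)) (C (b s)) (n s) g) :
    ∑ s, m s * n s ≤ f.totalDegree * g.totalDegree := by
  classical
  let E := (Bivariate.equivMvPolynomial A).symm
  have hf' : Prime (E f) := (MulEquiv.prime_iff E.toMulEquiv).2 hf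
  have hfg' : ¬ E f ∣ E g := fun h => hfg ((map_dvd_iff E.toMulEquiv).1 h)
  have hR0 := resultant_ne_zero_of_prime hf' hfg'
  have hRd := natDegree_resultant_le (td_symm f) (td_symm g)
  have hdvd : ∀ s, (X - C (a s)) ^ (m s * n s) ∣ resultant (E f) (E g) := by
    intro s
    have hP : (X - C (a s) : A[X]) ≠ 0 := X_sub_C_ne_zero _
    rw [← resultant_taylor (E f) (E g) (C (b s))]
    refine pow_dvd_resultant hP _ _ ((hm s).coeff_dvd hP) ((hn s).coeff_dvd hP) ?_
    rw [natDegree_taylor, natDegree_taylor]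
    by_cases h1 : C (X - C (a s)) ∣ E f
    · right
      refine (hn s).le_natDegree hP fun h2 => hfg' ?_
      have hp : Prime (C (X - C (a s)) : A[X][X]) := prime_C_iff.2 (prime_X_sub_C _)
      exact ((hp.irreducible.associated_of_dvd hf'.irreducible h1).symm.dvd).trans h2
    · left
      exact (hm s).le_natDegree hP h1
  let L := FractionRing A
  have hinj : Function.Injective (algebraMap A L) := IsFractionRing.injective A L
  have h1 : ∏ s, (X - C (algebraMap A L (a s))) ^ (m s * n s) ∣
      (resultant (E f) (E g)).map (algebraMap A L) := by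
    apply Fintype.prod_dvd_of_coprime
    · intro s t hst
      exact (pairwise_coprime_X_sub_C (hinj.comp ha) hst).pow
    · intro s
      simpa using Polynomial.map_dvd (algebraMap A L) (hdvd s)
  have h2 := natDegree_le_of_dvd h1 ((Polynomial.map_ne_zero_iff hinj).2 hR0)
  rw [natDegree_map_eq_of_injective hinj,
    natDegree_prod_of_monic _ _ (fun s _ => (monic_X_sub_C _).pow _)] at h2
  simp only [(monic_X_sub_C _).natDegree_pow, natDegree_X_sub_C, mul_one] at h2
  exact h2.trans hRd

end Pool.Agent.MP_d0dfcd_ag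

end MrgPart0

-- ======== part 1: formerly Pool.Agent.MP_d0dfcd_ag.Xu
section MrgPart1

/-! Xu's inequality for curves through the universal points, in every characteristic. -/

namespace Pool.Agent.MP_d0dfcd_ag

open Polynomial

/-- The ideal of the point `(a, b)`. -/
noncomputable def ptIdeal {A : Type*} [CommRing A] (a b : A) : Ideal (MvPolynomial (Fin 2) A) :=
  Ideal.span {MvPolynomial.X 0 - MvPolynomial.C a, MvPolynomial.X 1 - MvPolynomial.C b}

theorem van_iff_mem {A : Type*} [CommRing A] [IsDomain A] (a b : A) (m : ℕ)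
    (f : MvPolynomial (Fin 2) A) : Van (X - C a) (C b) m f ↔ f ∈ ptIdeal a b ^ m := by
  constructor
  · intro h
    have hP : (X - C a : A[X]) ≠ 0 := X_sub_C_ne_zero _
    have h1 := sum_taylor_eq ((Bivariate.equivMvPolynomial A).symm f) (C b)
    rw [← (Bivariate.equivMvPolynomial A).apply_symm_apply f, ← h1, Polynomial.sum, map_sum]
    refine Ideal.sum_mem _ fun k _ => ?_
    obtain ⟨u, hu⟩ := h.coeff_dvd hP k
    rw [hu]
    have i1 : MvPolynomial.X 0 - MvPolynomial.C a ∈ ptIdeal a b := Ideal.subset_span (by simp)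
    have i2 : MvPolynomial.X 1 - MvPolynomial.C b ∈ ptIdeal a b := Ideal.subset_span (by simp)
    have i3 := Ideal.mul_mem_mul (Ideal.pow_mem_pow i1 (m - k)) (Ideal.pow_mem_pow i2 k)
    rw [← pow_add] at i3
    have i4 := Ideal.mul_mem_left _ (Bivariate.equivMvPolynomial A (C u))
      (Ideal.pow_le_pow_right (by omega : m ≤ m - k + k) i3)
    convert i4 using 1
    simp only [map_mul, map_pow, map_sub, Bivariate.equivMvPolynomial_C_X,
      Bivariate.equivMvPolynomial_C_C, Bivariate.equivMvPolynomial_X]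
    ring
  · intro h
    have h1 : subs (X - C a) (C b) f ∈ Ideal.span {(C (X - C a) : A[X][X])} ^ m := by
      have h2 := Ideal.mem_map_of_mem (subs (X - C a) (C b)) h
      rw [Ideal.map_pow] at h2
      refine Ideal.pow_right_mono ?_ m h2
      rw [ptIdeal, Ideal.map_span, Ideal.span_le]
      rintro _ ⟨u, hu, rfl⟩
      rw [SetLike.mem_coe, Ideal.mem_span_singleton]
      rcases hu with rfl | rfl
      · simp [subs, Polynomial.algebraMap_apply]
      · simp [subs, Polynomial.algebraMap_apply]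
    rw [Ideal.span_singleton_pow, Ideal.mem_span_singleton, ← map_pow] at h1
    exact h1

theorem der_mem_pred {B : Type*} [CommRing B] (E : B → B) (hadd : ∀ x y, E (x + y) = E x + E y)
    (hmul : ∀ x y, E (x * y) = E x * y + x * E y) (I : Ideal B) (m : ℕ) :
    ∀ f ∈ I ^ (m + 1), E f ∈ I ^ m := by
  induction m with
  | zero => intro f _; simp
  | succ m ih =>
    intro f hf
    rw [pow_succ] at hf
    refine Submodule.mul_induction_on hf (fun x hx y hy => ?_) (fun x y hx hy => ?_)
    · rw [hmul]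
      refine add_mem ?_ (Ideal.mul_mem_right _ _ hx)
      rw [pow_succ]
      exact Ideal.mul_mem_mul (ih x hx) hy
    · rw [hadd]; exact add_mem hx hy

theorem der_mem_sub {B : Type*} [CommRing B] (E : B → B) (hadd : ∀ x y, E (x + y) = E x + E y)
    (hmul : ∀ x y, E (x * y) = E x * y + x * E y) (I : Ideal B) (m : ℕ) (f : B) (hf : f ∈ I ^ m) :
    E f ∈ I ^ (m - 1) := by
  cases m with
  | zero => simp
  | succ m => exact der_mem_pred E hadd hmul I m f hf

theorem der_mem_pow {B : Type*} [CommRing B] (E : B → B) (hadd : ∀ x y, E (x + y) = E x + E y)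
    (hmul : ∀ x y, E (x * y) = E x * y + x * E y) {u v : B} (hu : E u = 0) (hv : E v = 0)
    (m : ℕ) : ∀ f ∈ Ideal.span {u, v} ^ m, E f ∈ Ideal.span {u, v} ^ m := by
  have hI : ∀ y ∈ Ideal.span {u, v}, E y ∈ Ideal.span {u, v} := by
    intro y hy
    obtain ⟨s, t, rfl⟩ := Ideal.mem_span_pair.1 hy
    rw [hadd, hmul, hmul, hu, hv, mul_zero, mul_zero, add_zero, add_zero]
    exact Ideal.mem_span_pair.2 ⟨_, _, rfl⟩
  induction m with
  | zero => intro f _; simp
  | succ m ih =>
    intro f hf
    rw [pow_succ] at hf ⊢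
    refine Submodule.mul_induction_on hf (fun x hx y hy => ?_) (fun x y hx hy => ?_)
    · rw [hmul]
      exact add_mem (Ideal.mul_mem_mul (ih x hx) hy) (Ideal.mul_mem_mul hx (hI y hy))
    · rw [hadd]; exact add_mem hx hy

section cd

open MvPolynomial

variable {R τ σ : Type*} [CommRing R]

/-- The partial derivative in a parameter, applied to each coefficient. -/
noncomputable def cd (t : τ) (f : MvPolynomial σ (MvPolynomial τ R)) :
    MvPolynomial σ (MvPolynomial τ R) :=
  ∑ e ∈ f.support, MvPolynomial.monomial e (pderiv t (f.coeff e))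

theorem coeff_cd (t : τ) (f : MvPolynomial σ (MvPolynomial τ R)) (e : σ →₀ ℕ) :
    (cd t f).coeff e = pderiv t (f.coeff e) := by
  classical
  simp only [cd, MvPolynomial.coeff_sum, MvPolynomial.coeff_monomial, Finset.sum_ite_eq']
  split_ifs with h
  · rfl
  · rw [MvPolynomial.notMem_support_iff.1 h, map_zero]

theorem cd_add (t : τ) (f g : MvPolynomial σ (MvPolynomial τ R)) :
    cd t (f + g) = cd t f + cd t g := by
  ext1 e
  simp [coeff_cd]

theorem cd_mul (t : τ) (f g : MvPolynomial σ (MvPolynomial τ R)) :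
    cd t (f * g) = cd t f * g + f * cd t g := by
  classical
  ext1 e
  simp only [coeff_cd, MvPolynomial.coeff_add, MvPolynomial.coeff_mul, map_sum, pderiv_mul,
    Finset.sum_add_distrib]

theorem cd_X_sub_C (t : τ) (i : σ) (a : MvPolynomial τ R) :
    cd t (MvPolynomial.X i - MvPolynomial.C a) = -MvPolynomial.C (pderiv t a) := by
  classical
  ext1 e
  simp only [coeff_cd, MvPolynomial.coeff_sub, MvPolynomial.coeff_neg, MvPolynomial.coeff_C,
    MvPolynomial.coeff_X, map_sub]
  split_ifs <;> simp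

theorem cd_C (t : τ) (a : MvPolynomial τ R) :
    cd t (MvPolynomial.C a : MvPolynomial σ _) = MvPolynomial.C (pderiv t a) := by
  classical
  ext1 e
  simp only [coeff_cd, MvPolynomial.coeff_C]
  split_ifs <;> simp

theorem totalDegree_cd (t : τ) (f : MvPolynomial σ (MvPolynomial τ R)) :
    (cd t f).totalDegree ≤ f.totalDegree := by
  apply totalDegree_le_of_support_subset
  intro e he
  rw [MvPolynomial.mem_support_iff] at he ⊢
  intro h
  rw [coeff_cd, h, map_zero] at he
  exact he rfl

theorem sum_pderiv_inr (t : τ) (g : MvPolynomial (σ ⊕ τ) R) :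
    sumAlgEquiv R σ τ (pderiv (Sum.inr t) g) = cd t (sumAlgEquiv R σ τ g) := by
  classical
  induction g using MvPolynomial.induction_on with
  | C a => simp [cd_C]
  | add p q hp hq => simp only [map_add, hp, hq, cd_add]
  | mul_X p i hp =>
    rw [pderiv_mul, map_add, map_mul, map_mul, map_mul, cd_mul, hp]
    congr 2
    cases i with
    | inl j => simpa using (cd_X_sub_C t j 0).symm
    | inr u =>
      rw [sumAlgEquiv_X_inr, cd_C]
      by_cases h : u = t
      · subst h; simp
      · rw [pderiv_X_of_ne h, pderiv_X_of_ne (by simpa using h)]; simp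

theorem sum_pderiv_inl (j : σ) (g : MvPolynomial (σ ⊕ τ) R) :
    sumAlgEquiv R σ τ (pderiv (Sum.inl j) g) = pderiv j (sumAlgEquiv R σ τ g) := by
  classical
  induction g using MvPolynomial.induction_on with
  | C a => simp
  | add p q hp hq => simp only [map_add, hp, hq]
  | mul_X p i hp =>
    rw [pderiv_mul, map_add, map_mul, map_mul, map_mul, pderiv_mul, hp]
    congr 2
    cases i with
    | inl u =>
      rw [sumAlgEquiv_X_inl]
      by_cases h : u = j
      · subst h; simp
      · rw [pderiv_X_of_ne h, pderiv_X_of_ne (by simpa using h)]; simp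
    | inr u => simp

theorem totalDegree_pderiv_lt (i : σ) (g : MvPolynomial σ R) (h : pderiv i g ≠ 0) :
    (pderiv i g).totalDegree < g.totalDegree := by
  classical
  obtain ⟨e, he, h1⟩ := Finset.exists_mem_eq_sup _ (MvPolynomial.support_nonempty.2 h)
    (fun s : σ →₀ ℕ => s.sum fun _ e => e)
  rw [MvPolynomial.mem_support_iff, coeff_pderiv] at he
  have h2 := le_totalDegree (MvPolynomial.mem_support_iff.2 (left_ne_zero_of_mul he))
  rw [Finsupp.sum_add_index' (by simp) (by simp), Finsupp.sum_single_index rfl] at h2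
  rw [totalDegree, h1]
  omega

theorem pderiv_eq_zero_of_dvd [IsDomain R] (i : σ) (g : MvPolynomial σ R) (h : g ∣ pderiv i g) :
    pderiv i g = 0 := by
  by_contra h0
  have h1 := totalDegree_pderiv_lt i g h0
  have h2 := totalDegree_le_of_dvd_of_isDomain h h0
  omega

end cd

/-- A prime field: characteristic zero, or characteristic `p` with trivial Frobenius. -/
def PrimeLike (R : Type*) [Field R] : Prop :=
  (∀ n : ℕ, 0 < n → (n : R) ≠ 0) ∨ ∃ p : ℕ, p.Prime ∧ CharP R p ∧ ∀ x : R, x ^ p = x

theorem primeLike_bot (K : Type*) [Field K] : PrimeLike (⊥ : Subfield K) := by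
  obtain ⟨p, hp⟩ := CharP.exists K
  rcases CharP.char_is_prime_or_zero K p with h | rfl
  · right
    have := Fact.mk h
    refine ⟨p, h, inferInstance, fun x => Subtype.ext ?_⟩
    exact (Subfield.mem_bot_iff_pow_eq_self K p).1 x.2
  · left
    have := CharP.charP_to_charZero K
    intro n hn h
    have : ((n : (⊥ : Subfield K)) : K) = 0 := by rw [h]; rfl
    simp at this
    omega

theorem exists_pderiv_ne_zero {R τ : Type*} [Field R] (hR : PrimeLike R) {g : MvPolynomial τ R}
    (hg : Prime g) : ∃ i, MvPolynomial.pderiv i g ≠ 0 := by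
  classical
  by_contra hall
  push Not at hall
  have h1 : ∀ e ∈ g.support, ∀ i, ((e i : ℕ) : R) = 0 := by
    intro e he i
    rcases Nat.eq_zero_or_pos (e i) with h | h
    · simp [h]
    have h2 := MvPolynomial.coeff_pderiv (i := i) g (e - Finsupp.single i 1)
    have h3 : e - Finsupp.single i 1 + Finsupp.single i 1 = e :=
      tsub_add_cancel_of_le (Finsupp.single_le_iff.2 h)
    rw [hall i, h3, MvPolynomial.coeff_zero] at h2
    have h4 := (mul_eq_zero.1 h2.symm).resolve_left (MvPolynomial.mem_support_iff.1 he)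
    have h5 : e i = (e - Finsupp.single i 1 : τ →₀ ℕ) i + 1 := by
      simp only [Finsupp.coe_tsub, Pi.sub_apply, Finsupp.single_eq_same]
      omega
    rw [h5]
    exact_mod_cast h4
  rcases hR with h | ⟨p, hp, hch, hfr⟩
  · have h2 : g.totalDegree = 0 := by
      rw [MvPolynomial.totalDegree_eq_zero_iff]
      intro e he i
      by_contra hne
      exact h _ (Nat.pos_of_ne_zero hne) (h1 e he i)
    rw [MvPolynomial.totalDegree_eq_zero_iff_eq_C] at h2
    apply hg.not_isUnit
    rw [h2]
    refine IsUnit.map _ (Ne.isUnit fun h0 => hg.ne_zero ?_)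
    rw [h2, h0, map_zero]
  · have := Fact.mk hp
    have h2 : g = (∑ e ∈ g.support,
        MvPolynomial.monomial (e.mapRange (· / p) (by simp)) (g.coeff e)) ^ p := by
      rw [sum_pow_char]
      conv_lhs => rw [g.as_sum]
      refine Finset.sum_congr rfl fun e he => ?_
      rw [MvPolynomial.monomial_pow, hfr]
      congr 2
      ext i
      simp only [Finsupp.coe_smul, Pi.smul_apply, Finsupp.mapRange_apply, smul_eq_mul]
      exact (Nat.mul_div_cancel' ((CharP.cast_eq_zero_iff R p _).1 (h1 e he i))).symm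
    have h3 := hg.irreducible
    rw [h2] at h3
    exact not_irreducible_pow hp.ne_one h3

/-- Xu's inequality. -/
theorem xu {R σ : Type*} [Field R] [Fintype σ] (hR : PrimeLike R)
    {f : MvPolynomial (Fin 2) (MvPolynomial (σ ⊕ σ) R)} (hf : Prime f) (m : σ → ℕ)
    (hm : ∀ s, Van (X - C (MvPolynomial.X (Sum.inl s))) (C (MvPolynomial.X (Sum.inr s))) (m s) f) :
    ∑ s, m s ^ 2 ≤ f.totalDegree ^ 2 ∨ ∃ s0, ∑ s, m s ^ 2 ≤ f.totalDegree ^ 2 + m s0 := by
  classical
  let a : σ → MvPolynomial (σ ⊕ σ) R := fun s => MvPolynomial.X (Sum.inl s)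
  let b : σ → MvPolynomial (σ ⊕ σ) R := fun s => MvPolynomial.X (Sum.inr s)
  have ha : Function.Injective a := fun s t h => Sum.inl_injective (MvPolynomial.X_injective h)
  have hI : ∀ s, f ∈ ptIdeal (a s) (b s) ^ m s := fun s => (van_iff_mem _ _ _ _).1 (hm s)
  by_cases hA : ∃ t, ¬ f ∣ cd t f
  · obtain ⟨t, ht⟩ := hA
    right
    let s0 : σ := Sum.elim id id t
    refine ⟨s0, ?_⟩
    have h1 := bezout a b ha hf ht m (Function.update m s0 (m s0 - 1)) hm (fun s => by
      rw [van_iff_mem]
      by_cases hs : s = s0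
      · subst hs
        rw [Function.update_self]
        exact der_mem_sub _ (cd_add t) (cd_mul t) _ _ _ (hI _)
      · rw [Function.update_of_ne hs]
        refine der_mem_pow _ (cd_add t) (cd_mul t) ?_ ?_ _ _ (hI s)
        · rw [cd_X_sub_C, MvPolynomial.pderiv_X_of_ne, map_zero, neg_zero]
          rintro rfl
          exact hs rfl
        · rw [cd_X_sub_C, MvPolynomial.pderiv_X_of_ne, map_zero, neg_zero]
          rintro rfl
          exact hs rfl)
    have h2 := Nat.mul_le_mul_left f.totalDegree (totalDegree_cd t f)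
    have e1 := Finset.add_sum_erase Finset.univ (fun s => m s ^ 2) (Finset.mem_univ s0)
    have e2 := Finset.add_sum_erase Finset.univ
      (fun s => m s * Function.update m s0 (m s0 - 1) s) (Finset.mem_univ s0)
    have e3 : ∑ s ∈ Finset.univ.erase s0, m s * Function.update m s0 (m s0 - 1) s =
        ∑ s ∈ Finset.univ.erase s0, m s ^ 2 :=
      Finset.sum_congr rfl fun s hs => by
        rw [Function.update_of_ne (Finset.ne_of_mem_erase hs), sq]
    simp only [Function.update_self] at e2
    have e4 : m s0 ^ 2 ≤ m s0 * (m s0 - 1) + m s0 := by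
      cases m s0 with
      | zero => simp
      | succ k => simp only [Nat.add_sub_cancel]; linarith
    rw [sq f.totalDegree]
    omega
  · push Not at hA
    left
    let Φ := MvPolynomial.sumAlgEquiv R (Fin 2) (σ ⊕ σ)
    obtain ⟨g, rfl⟩ := Φ.surjective f
    have hg : Prime g := (MulEquiv.prime_iff Φ.toMulEquiv).1 hf
    have hz : ∀ t, cd t (Φ g) = 0 := fun t => by
      have h1 := hA t
      rw [← sum_pderiv_inr] at h1 ⊢
      rw [pderiv_eq_zero_of_dvd _ _ ((map_dvd_iff Φ.toMulEquiv).1 h1), map_zero]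
    obtain ⟨i, hi⟩ := exists_pderiv_ne_zero hR hg
    have hi' : Φ (MvPolynomial.pderiv i g) ≠ 0 := fun h => hi (Φ.injective (by rw [h, map_zero]))
    cases i with
    | inr t => exact absurd ((sum_pderiv_inr t g).trans (hz t)) hi'
    | inl j =>
      replace hi' : MvPolynomial.pderiv j (Φ g) ≠ 0 := by rwa [← sum_pderiv_inl]
      have h1 := bezout a b ha hf (fun h => hi' (pderiv_eq_zero_of_dvd j _ h)) m m hm (fun s => by
        rw [van_iff_mem]
        let t : σ ⊕ σ := if j = 0 then Sum.inl s else Sum.inr s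
        have := der_mem_pow (fun x => cd t x + MvPolynomial.pderiv j x)
          (fun x y => by rw [cd_add, map_add]; ring)
          (fun x y => by rw [cd_mul, MvPolynomial.pderiv_mul]; ring)
          (u := MvPolynomial.X 0 - MvPolynomial.C (a s))
          (v := MvPolynomial.X 1 - MvPolynomial.C (b s))
          (by fin_cases j <;> simp [cd_X_sub_C, t, a])
          (by fin_cases j <;> simp [cd_X_sub_C, t, b]) _ _ (hI s)
        simp only [hz, zero_add] at this
        exact this)
      have h2 := Nat.mul_le_mul_left (Φ g).totalDegree (totalDegree_pderiv_lt j _ hi').le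
      simp only [sq]
      exact h1.trans h2

end Pool.Agent.MP_d0dfcd_ag

end MrgPart1

-- ======== part 2: formerly Pool.Agent.MP_d0dfcd_ag.Primes
section MrgPart2

/-! Reduction of bounds for generic points to prime curves through the universal points. -/

namespace Pool.Agent.MP_d0dfcd_ag

open Polynomial

theorem prime_pow_dvd_mul' {B : Type*} [CommRing B] [IsDomain B] {π : B} (hπ : Prime π) (m : ℕ) :
    ∀ x y : B, π ^ m ∣ x * y → ∃ i j, i + j = m ∧ π ^ i ∣ x ∧ π ^ j ∣ y := by
  induction m with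
  | zero => intro x y _; exact ⟨0, 0, rfl, by simp, by simp⟩
  | succ m ih =>
    intro x y h
    rcases hπ.dvd_or_dvd ((dvd_pow_self π (Nat.succ_ne_zero m)).trans h) with ⟨u, rfl⟩ | ⟨u, rfl⟩
    · rw [pow_succ', mul_assoc, mul_dvd_mul_iff_left hπ.ne_zero] at h
      obtain ⟨i, j, hij, h1, h2⟩ := ih u y h
      exact ⟨i + 1, j, by omega, by rw [pow_succ']; exact mul_dvd_mul_left _ h1, h2⟩
    · rw [pow_succ', mul_left_comm, mul_dvd_mul_iff_left hπ.ne_zero] at h
      obtain ⟨i, j, hij, h1, h2⟩ := ih x u h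
      exact ⟨i, j + 1, by omega, h1, by rw [pow_succ']; exact mul_dvd_mul_left _ h2⟩

theorem all_of_prime {A σ : Type*} [CommRing A] [IsDomain A] [UniqueFactorizationMonoid A]
    [Fintype σ] (a b : σ → A) (τ : ℝ)
    (H : ∀ f : MvPolynomial (Fin 2) A, Prime f → ∀ m : σ → ℕ,
      (∀ s, Van (X - C (a s)) (C (b s)) (m s) f) → τ * ∑ s, (m s : ℝ) ≤ f.totalDegree)
    (f : MvPolynomial (Fin 2) A) : f ≠ 0 → ∀ m : σ → ℕ,
      (∀ s, Van (X - C (a s)) (C (b s)) (m s) f) → τ * ∑ s, (m s : ℝ) ≤ f.totalDegree := by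
  have hp : ∀ s, Prime (C (X - C (a s)) : A[X][X]) := fun s => prime_C_iff.2 (prime_X_sub_C _)
  induction f using UniqueFactorizationMonoid.induction_on_prime with
  | h₁ => intro h; exact absurd rfl h
  | h₂ x hx =>
    intro _ m hm
    have : ∀ s, m s = 0 := fun s => by
      by_contra h
      have h1 := hm s
      unfold Van at h1
      rw [map_pow] at h1
      exact (hp s).not_isUnit (isUnit_of_dvd_unit ((dvd_pow_self _ h).trans h1) (hx.map _))
    simp [this]
  | h₃ g p hg hpp ih =>
    intro _ m hm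
    have h1 : ∀ s, ∃ i j, i + j = m s ∧ Van (X - C (a s)) (C (b s)) i p ∧
        Van (X - C (a s)) (C (b s)) j g := fun s => by
      have h2 := hm s
      unfold Van at h2 ⊢
      simp only [map_pow, map_mul] at h2 ⊢
      exact prime_pow_dvd_mul' (hp s) _ _ _ h2
    choose i j hij hi hj using h1
    have h2 := H p hpp i hi
    have h3 := ih hg j hj
    rw [MvPolynomial.totalDegree_mul_of_isDomain hpp.ne_zero hg]
    have h4 : ∑ s, (m s : ℝ) = ∑ s, (i s : ℝ) + ∑ s, (j s : ℝ) := by
      rw [← Finset.sum_add_distrib]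
      exact Finset.sum_congr rfl fun s _ => by rw [← hij s]; push_cast; ring
    rw [h4]
    push_cast
    linarith

theorem lift_universal {A K σ : Type*} [CommRing A] [IsDomain A] [Field K] (φ : A →+* K)
    (hφ : Function.Injective φ) (a b : σ → A) (m : σ → ℕ) (f : MvPolynomial (Fin 2) K)
    (hf : f ≠ 0) (h : ∀ s, Van (X - C (φ (a s))) (C (φ (b s))) (m s) f) :
    ∃ g : MvPolynomial (Fin 2) A, g ≠ 0 ∧ g.totalDegree ≤ f.totalDegree ∧
      ∀ s, Van (X - C (a s)) (C (b s)) (m s) g := by
  classical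
  let L := FractionRing A
  have hinj : Function.Injective (algebraMap A L) := IsFractionRing.injective A L
  obtain ⟨g, hg0, hgd, hg⟩ := transfer_van φ hφ (algebraMap A L) (fun s => X - C (a s))
    (fun s => C (b s)) (fun s => monic_X_sub_C _) m f hf (fun s => by simpa using h s)
  obtain ⟨c, hc⟩ := IsLocalization.exist_integer_multiples_of_finite (nonZeroDivisors A)
    (fun e : g.support => g.coeff e)
  choose w hw using hc
  let g' : MvPolynomial (Fin 2) A := ∑ e : g.support, MvPolynomial.monomial e.1 (w e)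
  have hmap : MvPolynomial.map (algebraMap A L) g' = MvPolynomial.C (algebraMap A L c) * g := by
    conv_rhs => rw [g.as_sum, ← Finset.sum_coe_sort, Finset.mul_sum]
    simp only [g', map_sum, MvPolynomial.map_monomial, hw, MvPolynomial.C_mul_monomial,
      Algebra.smul_def]
  have hne : MvPolynomial.C (algebraMap A L c) * g ≠ 0 :=
    mul_ne_zero (by simp) hg0
  refine ⟨g', fun h0 => hne (by rw [← hmap, h0, map_zero]), le_trans ?_ hgd, fun s => ?_⟩
  · have h1 : g'.totalDegree = (MvPolynomial.map (algebraMap A L) g').totalDegree := by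
      simp only [MvPolynomial.totalDegree, MvPolynomial.support_map_of_injective _ hinj]
    rw [h1, hmap]
    refine (MvPolynomial.totalDegree_mul _ _).trans ?_
    simp
  · rw [van_iff (monic_X_sub_C _)]
    intro u v
    apply hinj
    rw [← vrow_map _ (monic_X_sub_C _), map_zero, hmap]
    apply (van_iff ((monic_X_sub_C _).map _) _ _ _).1
    unfold Van
    rw [map_mul]
    exact Dvd.dvd.mul_left (hg s) _

/-- A bound proved for prime curves through the universal points holds for all forms. -/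
theorem forms_of_prime {K : Type*} [Field K] {r : ℕ} (hr : 0 < r) (τ : ℝ)
    (H : ∀ f : MvPolynomial (Fin 2) (MvPolynomial (Fin r ⊕ Fin r) (⊥ : Subfield K)), Prime f →
      ∀ m : Fin r → ℕ, (∀ s, Van (X - C (MvPolynomial.X (Sum.inl s)))
        (C (MvPolynomial.X (Sum.inr s))) (m s) f) →
        τ * (∑ s, (m s : ℝ)) ^ 2 ≤ (r : ℝ) ^ 2 * (f.totalDegree : ℝ) ^ 2)
    (a b : Fin r → K) (hab : Generic a b) (m d : ℕ) (F : MvPolynomial (Fin 3) K) (h0 : F ≠ 0)
    (hF : F.IsHomogeneous d) (hV : ∀ i, VanishesAt (a i) (b i) m F) :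
    τ * (m : ℝ) ^ 2 ≤ (d : ℝ) ^ 2 := by
  rcases le_total τ 0 with hτ | hτ
  · exact le_trans (mul_nonpos_of_nonpos_of_nonneg hτ (sq_nonneg _)) (sq_nonneg _)
  obtain ⟨h1, h2⟩ := deh_spec hF h0
  have hr0 : (0 : ℝ) < r := by exact_mod_cast hr
  obtain ⟨g, hg0, hgd, hg⟩ := lift_universal
    (MvPolynomial.aeval (Sum.elim a b) :
      MvPolynomial (Fin r ⊕ Fin r) (⊥ : Subfield K) →ₐ[_] K).toRingHom hab
    (fun s => MvPolynomial.X (Sum.inl s)) (fun s => MvPolynomial.X (Sum.inr s)) (fun _ => m)
    (deh F) h1 (fun s => by simpa using van_of_mem _ _ (hV s))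
  have h3 := all_of_prime (fun s => MvPolynomial.X (Sum.inl s))
    (fun s => MvPolynomial.X (Sum.inr s)) (Real.sqrt τ / r) (fun f hf m hm => by
      have h4 := H f hf m hm
      rw [div_mul_eq_mul_div, div_le_iff₀ hr0]
      refine le_of_sq_le_sq ?_ (by positivity)
      rw [mul_pow, Real.sq_sqrt hτ, mul_pow]
      linarith) g hg0 (fun _ => m) hg
  simp only [Finset.sum_const, Finset.card_univ, Fintype.card_fin, nsmul_eq_mul] at h3
  have h5 : (g.totalDegree : ℝ) ≤ d := by exact_mod_cast hgd.trans h2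
  have h6 : Real.sqrt τ * m ≤ d := by
    have : Real.sqrt τ / r * (r * m) = Real.sqrt τ * m := by field_simp
    linarith
  have h7 := pow_le_pow_left₀ (by positivity) h6 2
  rwa [mul_pow, Real.sq_sqrt hτ] at h7

/-- Xu's inequality in terms of the mean multiplicity `μ` and the variance. -/
theorem xu_mean {R σ : Type*} [Field R] [Fintype σ] (hR : PrimeLike R)
    {f : MvPolynomial (Fin 2) (MvPolynomial (σ ⊕ σ) R)} (hf : Prime f) (m : σ → ℕ)
    (hm : ∀ s, Van (X - C (MvPolynomial.X (Sum.inl s))) (C (MvPolynomial.X (Sum.inr s))) (m s) f)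
    (μ : ℝ) (hμ0 : 0 ≤ μ) (hμ : ∑ s, (m s : ℝ) = Fintype.card σ * μ) :
    ∃ z V : ℝ, V = ∑ s, ((m s : ℝ) - μ) ^ 2 ∧ z ^ 2 ≤ V ∧
      Fintype.card σ * μ ^ 2 + V ≤ (f.totalDegree : ℝ) ^ 2 + μ + z := by
  have hV : ∑ s, ((m s : ℝ) - μ) ^ 2 = ∑ s, (m s : ℝ) ^ 2 - Fintype.card σ * μ ^ 2 := by
    have : ∀ s, ((m s : ℝ) - μ) ^ 2 = (m s : ℝ) ^ 2 - 2 * μ * m s + μ ^ 2 := fun s => by ring
    simp only [this, Finset.sum_add_distrib, Finset.sum_sub_distrib, ← Finset.mul_sum, hμ,
      Finset.sum_const, Finset.card_univ, nsmul_eq_mul]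
    ring
  rcases xu hR hf m hm with h | ⟨s0, h⟩
  · refine ⟨0, _, rfl, by rw [sq, mul_zero]; positivity, ?_⟩
    have h' : ∑ s, (m s : ℝ) ^ 2 ≤ (f.totalDegree : ℝ) ^ 2 := by exact_mod_cast h
    linarith
  · refine ⟨m s0 - μ, _, rfl, Finset.single_le_sum (f := fun s => ((m s : ℝ) - μ) ^ 2)
      (fun s _ => sq_nonneg _) (Finset.mem_univ s0), ?_⟩
    have h' : ∑ s, (m s : ℝ) ^ 2 ≤ (f.totalDegree : ℝ) ^ 2 + m s0 := by exact_mod_cast h
    linarith

end Pool.Agent.MP_d0dfcd_ag

end MrgPart2

-- ======== part 3: formerly Pool.Agent.MP_d0dfcd_ag.Cubic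
section MrgPart3

/-! The bound `e(S)² ≥ r - O(1 / r³)` for most `r`. -/

namespace Pool.Agent.MP_d0dfcd_ag

open Polynomial

universe u

theorem sub_four (r : ℕ) (hr : 1 ≤ r) : SqBound.{u} r ((r : ℝ) - 4) := by
  intro K _ _ a b hab m d F h0 hF hV
  have hs1 : 1 ≤ r.sqrt := Nat.le_sqrt.2 hr
  have hs2 : r.sqrt ^ 2 ≤ r := Nat.sqrt_le' r
  have hs3 : r < (r.sqrt + 1) ^ 2 := Nat.lt_succ_sqrt' r
  generalize r.sqrt = s at *
  have hc2 : (r * s ^ 2).sqrt ^ 2 ≤ r * s ^ 2 := Nat.sqrt_le' _
  have hc3 : r * s ^ 2 < ((r * s ^ 2).sqrt + 1) ^ 2 := Nat.lt_succ_sqrt' _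
  have hc1 : 1 ≤ (r * s ^ 2).sqrt := Nat.le_sqrt.2 (Nat.mul_pos hr (pow_pos hs1 2))
  generalize (r * s ^ 2).sqrt = c at *
  have hcr : c ≤ r := by
    apply (Nat.pow_le_pow_iff_left (by norm_num : 2 ≠ 0)).1
    have := Nat.mul_le_mul_left r hs2
    linarith
  have hcs : c ≤ 2 * s ^ 2 := by
    apply (Nat.pow_le_pow_iff_left (by norm_num : 2 ≠ 0)).1
    have e1 : (s + 1) ^ 2 ≤ (2 * s) ^ 2 := Nat.pow_le_pow_left (by omega) 2
    have := Nat.mul_le_mul_right (s ^ 2) (hs3.le.trans e1)
    linarith
  have hr0 : (0 : ℝ) < r := by exact_mod_cast hr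
  have hs0 : (0 : ℝ) < s := by exact_mod_cast hs1
  have hc0 : (0 : ℝ) < c := by exact_mod_cast hc1
  have key := cluster_bound (ι := Unit) (fun _ => r) (fun _ => s) (fun _ => c)
    (fun _ => (c : ℝ) / (r * s)) (fun _ => hs1) (fun _ => hc1) (fun _ => hcr)
    (fun _ => by positivity)
    (fun _ => by
      rw [div_mul_eq_mul_div, div_le_iff₀ (by positivity)]
      have : (c : ℝ) ^ 2 ≤ r * s ^ 2 := by exact_mod_cast hc2
      linarith)
    (by simp only [Finset.univ_unique, Finset.sum_singleton]; apply le_of_eq; field_simp)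
    (by simp) a b hab m d F h0 hF hV
  simp only [Finset.univ_unique, Finset.sum_singleton] at key
  have e1 : (r : ℝ) * (c / (r * s)) = c / s := by field_simp
  rw [e1] at key
  have e2 : (r : ℝ) - 4 ≤ (c / s) ^ 2 := by
    rw [div_pow, le_div_iff₀ (by positivity)]
    have a1 : (r : ℝ) * s ^ 2 + 1 ≤ (c + 1) ^ 2 := by exact_mod_cast hc3
    have a2 : (c : ℝ) ≤ 2 * s ^ 2 := by exact_mod_cast hcs
    linarith
  calc _ ≤ ((c : ℝ) / s) ^ 2 * (m : ℝ) ^ 2 := mul_le_mul_of_nonneg_right e2 (sq_nonneg _)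
    _ = (c / s * m) ^ 2 := by ring
    _ ≤ _ := pow_le_pow_left₀ (by positivity) key 2

theorem van_map {A B : Type*} [CommRing A] [CommRing B] (ψ : A →+* B) {a b : A} {m : ℕ}
    {f : MvPolynomial (Fin 2) A} (h : Van (X - C a) (C b) m f) :
    Van (X - C (ψ a)) (C (ψ b)) m (MvPolynomial.map ψ f) := by
  unfold Van at h ⊢
  have h1 := subs_map ψ (X - C a) (C b) f
  simp only [Polynomial.map_sub, map_X, map_C] at h1
  rw [h1]
  simpa using Polynomial.map_dvd (mapRingHom ψ) h

theorem cubic_of (M N r : ℕ) (hM : 1 ≤ M) (hr1 : 1 ≤ r) (hrN : r ≤ N)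
    (hb1 : ¬ ∃ q, 1 ≤ q ∧ q ≤ N.sqrt / M ∧ Near (N.sqrt + 1) 12 q r)
    (hb2 : ¬ ∃ q, 1 ≤ q ∧ q ≤ N.sqrt / M / M ∧ Near (N.sqrt + 1) (12 * M) q r) :
    SqBoundLarge.{u} r ((r : ℝ) - 524288 * (M : ℝ) ^ 8 / (r : ℝ) ^ 3) := by
  intro K _ _ hK a b hab m d F h0 hF hV
  have hr0 : (0 : ℝ) < r := by exact_mod_cast hr1
  have hM0 : (0 : ℝ) < M := by exact_mod_cast hM
  by_cases hc : 131072 * M ^ 8 ≤ r ^ 3
  swap
  · refine le_trans (mul_le_mul_of_nonneg_right ?_ (sq_nonneg _))
      (sub_four r hr1 K a b hab m d F h0 hF hV)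
    have h1 : (r : ℝ) ^ 3 ≤ 131072 * (M : ℝ) ^ 8 := by exact_mod_cast (not_le.1 hc).le
    have : 4 ≤ 524288 * (M : ℝ) ^ 8 / (r : ℝ) ^ 3 := by
      rw [le_div_iff₀ (by positivity)]
      linarith
    linarith
  refine forms_of_prime hr1 _ (fun f hf m hm => ?_) a b hab m d F h0 hF hV
  have hq0 : 0 ≤ 524288 * (M : ℝ) ^ 8 / (r : ℝ) ^ 3 := by positivity
  by_cases hd : f.totalDegree * (131072 * M ^ 8) ≤ (r.sqrt + 1) * r ^ 3
  · let A := MvPolynomial (Fin r ⊕ Fin r) (⊥ : Subfield K)
    let L := FractionRing A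
    have hinj : Function.Injective (algebraMap A L) := IsFractionRing.injective A L
    have h1 : (MvPolynomial.map (algebraMap A L) f).totalDegree = f.totalDegree := by
      simp only [MvPolynomial.totalDegree, MvPolynomial.support_map_of_injective _ hinj]
    have h2 := exact_core M N r f.totalDegree hK (Subfield.subtype (⊥ : Subfield K)) hM hrN hb1 hb2
      hc hd m (algebraMap A L) hinj (MvPolynomial.map (algebraMap A L) f)
      (fun h => hf.ne_zero (MvPolynomial.map_injective _ hinj (by rw [h, map_zero]))) h1.le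
      (fun s => van_map _ (hm s))
    rw [h1] at h2
    have h3 : (∑ s, (m s : ℝ)) ^ 2 ≤ r * (f.totalDegree : ℝ) ^ 2 := by exact_mod_cast h2
    have h4 := mul_le_mul_of_nonneg_left h3 hr0.le
    have h5 := mul_nonneg hq0 (sq_nonneg (∑ s, (m s : ℝ)))
    linarith
  · obtain ⟨μ, hμ⟩ : ∃ μ : ℝ, μ = (∑ s, (m s : ℝ)) / r := ⟨_, rfl⟩
    have hμ0 : 0 ≤ μ := by rw [hμ]; positivity
    have hsum : ∑ s, (m s : ℝ) = r * μ := by rw [hμ]; field_simp
    obtain ⟨z, V, -, hz, hx⟩ := xu_mean (primeLike_bot K) hf m hm μ hμ0 (by simpa using hsum)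
    rw [Fintype.card_fin] at hx
    rw [hsum]
    by_contra hcon
    push Not at hcon
    obtain ⟨q, hq⟩ : ∃ q : ℝ, q = 131072 * (M : ℝ) ^ 8 / (r : ℝ) ^ 3 := ⟨_, rfl⟩
    have hq4 : 524288 * (M : ℝ) ^ 8 / (r : ℝ) ^ 3 = 4 * q := by rw [hq]; ring
    have hqpos : 0 < q := by rw [hq]; positivity
    have hq1 : q ≤ 1 := by
      rw [hq, div_le_one (by positivity)]
      exact_mod_cast hc
    rw [hq4] at hcon
    generalize hD : (f.totalDegree : ℝ) = D at *
    have hD0 : 0 ≤ D := by rw [← hD]; positivity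
    have h1 : D ^ 2 < (r - 4 * q) * μ ^ 2 := by
      apply lt_of_mul_lt_mul_left _ (sq_nonneg (r : ℝ))
      linarith
    have h2 : ((r.sqrt : ℝ) + 1) ≤ D * q := by
      rw [hq, ← mul_div_assoc, le_div_iff₀ (by positivity), ← hD]
      exact_mod_cast (not_le.1 hd).le
    have h3 : (r : ℝ) ≤ ((r.sqrt : ℝ) + 1) ^ 2 := by exact_mod_cast (Nat.lt_succ_sqrt' r).le
    have h4 := pow_le_pow_left₀ (by positivity) h2 2
    have h5 : 1 ≤ μ * q := by
      refine le_of_sq_le_sq ?_ (by positivity)
      apply le_of_mul_le_mul_left _ hr0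
      have a1 := mul_le_mul_of_nonneg_right h1.le (sq_nonneg q)
      have a2 : 0 ≤ q * (μ * q) ^ 2 := by positivity
      linarith
    have h6 : 1 ≤ μ := by linarith [mul_le_mul_of_nonneg_left hq1 hμ0]
    have h7 := mul_le_mul_of_nonneg_left h5 hμ0
    linarith [sq_nonneg (z - 1 / 2)]

theorem cubic_density (M N : ℕ) (hM : 1 ≤ M) :
    {r : ℕ | 1 ≤ r ∧ r ≤ N ∧
      ¬ SqBoundLarge.{u} r ((r : ℝ) - 524288 * (M : ℝ) ^ 8 / (r : ℝ) ^ 3)}.ncard * M ≤ 250 * N :=
  density _ M N (fun r h1 h2 => cubic_of M N r hM h1 h2) hM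

end Pool.Agent.MP_d0dfcd_ag

end MrgPart3

-- marker of a merged file
example : 731051 + 808021 = 731051 + 808021 := rfl
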