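import Pool.Agent.MP_d0dfcd_ag.Exact
import Pool.Agent.MP_d0dfcd_ag.Cubic

-- ======== part 0: formerly Pool.Agent.MP_d0dfcd_ag.TwoRound
section MrgPart0

/-! Peeling two graph curves alternately; the order of the two steps gives a gain in every
characteristic. -/

namespace Pool.Agent.MP_d0dfcd_ag

open Polynomial

theorem peel_step {k : Type*} [Field k] (g : k[X]) {n c δ W D : ℕ} (hδ : 1 ≤ δ)
    (hg : g.natDegree = δ) (hcn : c ≤ n) (f : MvPolynomial (Fin 2) k) (hf : f ≠ 0)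
    (hD : f.totalDegree ≤ D) (hV : C (X ^ W) ∣ subs (X ^ n) (g + X ^ c) f)
    (h : n * δ * D < c * W) :
    ∃ f', f = graph g * f' ∧ f' ≠ 0 ∧ f'.totalDegree + δ ≤ D := by
  have hev : ev g f = 0 := by
    by_contra hne
    have h1 : X ^ (δ * D + 1) ∣ ev g f := pow_dvd_ev g hcn (by linarith) f hV
    have h2 := natDegree_le_of_dvd h1 hne
    rw [natDegree_X_pow] at h2
    have h3 := natDegree_ev_le g hδ hg.le f
    have h4 : f.totalDegree * δ ≤ D * δ := Nat.mul_le_mul_right _ hD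
    linarith
  obtain ⟨f', rfl⟩ := graph_dvd _ _ hev
  have hh : f' ≠ 0 := right_ne_zero_of_mul hf
  have htd := MvPolynomial.totalDegree_mul_of_isDomain (left_ne_zero_of_mul hf) hh
  have hG := natDegree_le_graph g
  exact ⟨f', rfl, hh, by omega⟩

theorem interp_pos {n δ c W u D : ℤ} (hc : 0 < c) (hD : 0 < D) (hu : D ≤ u)
    (h1 : n * δ * u < c * W) (h2 : c * u < W * D) : n * δ * (u - D) < c * (W - c) := by
  have a1 : 0 ≤ (u - D) * (c * W - n * δ * u) := mul_nonneg (by omega) (by omega)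
  have a2 : 0 < c * (W * D - c * u) := mul_pos hc (by omega)
  apply lt_of_mul_lt_mul_left _ (by omega : 0 ≤ u)
  linarith

theorem peel_two {k : Type*} [Field k] (g1 g2 : k[X]) {n1 c1 δ1 n2 c2 δ2 : ℕ} (hδ1 : 1 ≤ δ1)
    (hδ2 : 1 ≤ δ2) (hg1 : g1.natDegree = δ1) (hg2 : g2.natDegree = δ2) (hc1 : 1 ≤ c1)
    (hc2 : 1 ≤ c2) (hcn1 : c1 ≤ n1) (hcn2 : c2 ≤ n2) (hsep : g1.coeff 0 ≠ g2.coeff 0) (t : ℕ) :
    ∀ (f : MvPolynomial (Fin 2) k) (W1 W2 : ℕ), f ≠ 0 → f.totalDegree ≤ t →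
      C (X ^ W1) ∣ subs (X ^ n1) (g1 + X ^ c1) f → C (X ^ W2) ∣ subs (X ^ n2) (g2 + X ^ c2) f →
      (n1 : ℤ) * δ1 * t < c1 * W1 → (c1 : ℤ) * t < W1 * (δ1 + δ2) →
      (n2 : ℤ) * δ2 * (t - δ1) < c2 * W2 → (c2 : ℤ) * (t - δ1) < W2 * (δ1 + δ2) → False := by
  induction t using Nat.strong_induction_on with
  | _ t ih =>
  intro f W1 W2 hf hD hV1 hV2 i1 i2 i3 i4
  have s1 : (g2 + X ^ c2).coeff 0 ≠ g1.coeff 0 := by
    rw [coeff_add, coeff_X_pow, if_neg (by omega), add_zero]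
    exact hsep.symm
  have s2 : (g1 + X ^ c1).coeff 0 ≠ g2.coeff 0 := by
    rw [coeff_add, coeff_X_pow, if_neg (by omega), add_zero]
    exact hsep
  obtain ⟨f1, rfl, hf1, hd1⟩ := peel_step g1 hδ1 hg1 hcn1 f hf hD hV1 (by exact_mod_cast i1)
  replace hV1 := peel_same _ hcn1 _ hV1
  replace hV2 := peel_other _ _ _ s1 _ hV2
  obtain ⟨u, rfl⟩ : ∃ u, t = u + δ1 := ⟨t - δ1, by omega⟩
  push_cast at i1 i2 i3 i4
  rw [add_sub_cancel_right] at i3 i4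
  obtain ⟨f2, rfl, hf2, hd2⟩ := peel_step g2 hδ2 hg2 hcn2 f1 hf1 (by omega : _ ≤ u) hV2
    (by exact_mod_cast i3)
  replace hV2 := peel_same _ hcn2 _ hV2
  replace hV1 := peel_other _ _ _ s2 _ hV1
  obtain ⟨v, rfl⟩ : ∃ v, u = v + δ2 := ⟨u - δ2, by omega⟩
  push_cast at i1 i2 i3 i4
  have p1 : (0 : ℤ) < c1 := by exact_mod_cast hc1
  have p2 : (0 : ℤ) < c2 := by exact_mod_cast hc2
  have pD : (0 : ℤ) < δ1 + δ2 := by exact_mod_cast (by omega : 0 < δ1 + δ2)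
  have w1 : (W1 : ℤ) - c1 ≤ ((W1 - c1 : ℕ) : ℤ) := by omega
  have w2 : (W2 : ℤ) - c2 ≤ ((W2 - c2 : ℕ) : ℤ) := by omega
  refine ih v (by omega) f2 (W1 - c1) (W2 - c2) hf2 (by omega) hV1 hV2 ?_ ?_ ?_ ?_
  · have := interp_pos p1 pD (by omega) i1 i2
    linarith [mul_le_mul_of_nonneg_left w1 p1.le]
  · linarith [mul_le_mul_of_nonneg_right w1 pD.le]
  · rcases le_or_gt (δ1 : ℤ) v with h | h
    · have := interp_pos p2 pD (by omega) i3 i4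
      linarith [mul_le_mul_of_nonneg_left w2 p2.le]
    · have a1 : (0 : ℤ) < n2 * δ2 := by exact_mod_cast Nat.mul_pos (by omega) hδ2
      have a2 := mul_neg_of_pos_of_neg a1 (by omega : (v : ℤ) - δ1 < 0)
      have a3 : (0 : ℤ) ≤ c2 * ((W2 - c2 : ℕ) : ℤ) := by positivity
      linarith
  · linarith [mul_le_mul_of_nonneg_right w2 pD.le]

theorem exists_swap {σ : Type*} [Fintype σ] [DecidableEq σ] (z : σ → ℝ) (hz : ∑ s, z s = 0)
    (S : Finset σ) (hS : 0 < ∑ s ∈ S, z s) : ∃ s ∈ S, ∃ t ∉ S, 0 < z s ∧ z t < 0 := by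
  have h1 : ∃ s ∈ S, 0 < z s := by
    by_contra h
    push Not at h
    linarith [Finset.sum_nonpos h]
  have h2 : ∃ t ∈ Sᶜ, z t < 0 := by
    by_contra h
    push Not at h
    linarith [Finset.sum_nonneg h, Finset.sum_add_sum_compl S z]
  obtain ⟨s, hs, hs0⟩ := h1
  obtain ⟨t, ht, ht0⟩ := h2
  exact ⟨s, hs, t, Finset.mem_compl.1 ht, hs0, ht0⟩

theorem exists_balanced {σ : Type*} [Fintype σ] [DecidableEq σ] (z : σ → ℝ) (hz : ∑ s, z s = 0)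
    {Δ : ℝ} (hΔ0 : 0 ≤ Δ) (hΔ : ∀ s t, z s - z t ≤ Δ) {n : ℕ} (hn : n ≤ Fintype.card σ) :
    ∃ S : Finset σ, S.card = n ∧ 0 ≤ ∑ s ∈ S, z s ∧ ∑ s ∈ S, z s ≤ Δ := by
  have swap : ∀ (S : Finset σ) s t, s ∈ S → t ∉ S → (insert t (S.erase s)).card = S.card ∧
      ∑ x ∈ insert t (S.erase s), z x = ∑ x ∈ S, z x - z s + z t := by
    intro S s t hs ht
    have h1 : t ∉ S.erase s := fun h => ht (Finset.mem_of_mem_erase h)
    refine ⟨?_, ?_⟩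
    · rw [Finset.card_insert_of_notMem h1, Finset.card_erase_add_one hs]
    · rw [Finset.sum_insert h1, ← Finset.add_sum_erase S z hs]
      ring
  obtain ⟨S0, hS0, hmax⟩ := Finset.exists_max_image (Finset.univ.powersetCard n)
    (fun S => ∑ s ∈ S, z s) (Finset.powersetCard_nonempty.2 hn)
  have h0 : 0 ≤ ∑ s ∈ S0, z s := by
    by_contra h
    obtain ⟨s, hs, t, ht, a1, a2⟩ := exists_swap (fun s => -z s) (by simp [hz]) S0
      (by rw [Finset.sum_neg_distrib]; linarith)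
    obtain ⟨b1, b2⟩ := swap S0 s t hs ht
    have := hmax (insert t (S0.erase s)) (by
      rw [Finset.mem_powersetCard] at hS0 ⊢
      exact ⟨Finset.subset_univ _, b1.trans hS0.2⟩)
    linarith
  obtain ⟨S1, hS1, hmin⟩ := Finset.exists_min_image
    ((Finset.univ.powersetCard n).filter fun S => 0 ≤ ∑ s ∈ S, z s)
    (fun S => ∑ s ∈ S, z s) ⟨S0, Finset.mem_filter.2 ⟨hS0, h0⟩⟩
  rw [Finset.mem_filter, Finset.mem_powersetCard] at hS1
  refine ⟨S1, hS1.1.2, hS1.2, ?_⟩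
  by_contra h
  push Not at h
  obtain ⟨s, hs, t, ht, a1, a2⟩ := exists_swap z hz S1 (by linarith)
  obtain ⟨b1, b2⟩ := swap S1 s t hs ht
  have := hmin (insert t (S1.erase s)) (by
    rw [Finset.mem_filter, Finset.mem_powersetCard]
    exact ⟨⟨Finset.subset_univ _, b1.trans hS1.1.2⟩, by linarith [hΔ s t]⟩)
  linarith

theorem two_clusters {R F K σ : Type*} [CommRing R] [Field F] [Field K] [Fintype σ]
    [DecidableEq σ] (ρ : R →+* K) (S : Finset σ) {c1 δ1 c2 δ2 : ℕ} (hδ1 : 1 ≤ δ1)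
    (hδ2 : 1 ≤ δ2) (hc1 : 1 ≤ c1) (hc2 : 1 ≤ c2) (hcn1 : c1 ≤ S.card) (hcn2 : c2 ≤ Sᶜ.card)
    (m : σ → ℕ) (φ : MvPolynomial (σ ⊕ σ) R →+* F) (hφ : Function.Injective φ)
    (f : MvPolynomial (Fin 2) F) (hf : f ≠ 0)
    (hV : ∀ s, Van (X - C (φ (MvPolynomial.X (Sum.inl s)))) (C (φ (MvPolynomial.X (Sum.inr s))))
      (m s) f)
    (i1 : (S.card : ℝ) * δ1 * f.totalDegree < c1 * ∑ s ∈ S, (m s : ℝ))
    (i2 : (c1 : ℝ) * f.totalDegree < (∑ s ∈ S, (m s : ℝ)) * (δ1 + δ2))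
    (i3 : (Sᶜ.card : ℝ) * δ2 * (f.totalDegree - δ1) < c2 * ∑ s ∈ Sᶜ, (m s : ℝ))
    (i4 : (c2 : ℝ) * (f.totalDegree - δ1) < (∑ s ∈ Sᶜ, (m s : ℝ)) * (δ1 + δ2)) : False := by
  let cl : Bool → Finset σ := fun b => cond b S Sᶜ
  let e : (Σ b, Fin (cl b).card) → σ := fun x => ((cl x.1).equivFin.symm x.2 : σ)
  have he : Function.Injective e := by
    rintro ⟨b, x⟩ ⟨b', x'⟩ h
    have hx := ((cl b).equivFin.symm x).2
    have hx' := ((cl b').equivFin.symm x').2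
    obtain rfl : b = b' := by
      change ((cl b).equivFin.symm x : σ) = ((cl b').equivFin.symm x' : σ) at h
      rw [h] at hx
      cases b <;> cases b'
      · rfl
      · exact absurd hx' (Finset.mem_compl.1 hx)
      · exact absurd hx (Finset.mem_compl.1 hx')
      · rfl
    congr 1
    exact (cl b).equivFin.symm.injective (Subtype.ext h)
  let γ : Bool → K[X] := fun b => cond b (X ^ δ1 + C 0 + X ^ c1) (X ^ δ2 + C 1 + X ^ c2)
  obtain ⟨h, hh0, hhd, hh⟩ := to_clusters' (fun b => (cl b).card) (fun x => m (e x)) γ ρ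
    (φ.comp (MvPolynomial.rename (Sum.map e e)).toRingHom)
    (hφ.comp (MvPolynomial.rename_injective _ (Sum.map_injective.2 ⟨he, he⟩))) f hf
    (fun s => by simpa using hV (e s))
  have hsum : ∀ b, ∑ t : Fin (cl b).card, m (e ⟨b, t⟩) = ∑ s ∈ cl b, m s := fun b => by
    rw [← Finset.sum_coe_sort (cl b)]
    exact Equiv.sum_comp (cl b).equivFin.symm (fun x => m x)
  have h1 := hh true
  have h2 := hh false
  rw [hsum] at h1 h2
  refine peel_two (X ^ δ1 + C 0) (X ^ δ2 + C 1) hδ1 hδ2 natDegree_X_pow_add_C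
    natDegree_X_pow_add_C hc1 hc2 hcn1 hcn2 ?_ f.totalDegree h _ _ hh0 hhd h1 h2 ?_ ?_ ?_ ?_
  · simp only [coeff_add, coeff_X_pow, coeff_C_zero]
    rw [if_neg (by omega), if_neg (by omega)]
    simp
  · exact_mod_cast i1
  · exact_mod_cast i2
  · exact_mod_cast i3
  · exact_mod_cast i4

end Pool.Agent.MP_d0dfcd_ag

end MrgPart0

-- ======== part 1: formerly Pool.Agent.MP_d0dfcd_ag.AllR
section MrgPart1

/-! The bound `e(S)² ≥ r - 6 / (r - 9 √r)` for all `r > 81`, in every characteristic. -/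

namespace Pool.Agent.MP_d0dfcd_ag

open Polynomial

universe u

theorem two_params (r : ℕ) (hr : 81 < r) (θ : ℝ) (hθ0 : 0 ≤ θ) (hθ : θ ^ 2 = r) :
    ∃ δ1 δ2 c1 c2 n1 n2 : ℕ, n1 + n2 = r ∧ 1 ≤ δ1 ∧ 1 ≤ δ2 ∧ 1 ≤ c1 ∧ 1 ≤ c2 ∧ c1 ≤ n1 ∧ c2 ≤ n2 ∧
      δ1 * θ ≤ c1 ∧ c1 * θ ≤ n1 * ((δ1 : ℝ) + δ2) ∧ δ2 * θ - 3 / 2 ≤ c2 ∧ c2 ≤ δ2 * θ - 1 / 2 ∧
      δ2 * θ ^ 2 - 2 * θ ≤ n2 * ((δ1 : ℝ) + δ2) ∧ (δ1 : ℝ) + δ2 ≤ θ ∧
      θ ^ 2 - 4 * θ + 3 ≤ 4 * ((δ1 : ℝ) * δ2) := by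
  have hs9 : 9 ≤ r.sqrt := Nat.le_sqrt.2 (by omega)
  have hs1 : (r.sqrt : ℝ) ≤ θ := by
    refine le_of_sq_le_sq ?_ hθ0
    rw [hθ]
    exact_mod_cast Nat.sqrt_le' r
  have hs2 : θ ≤ (r.sqrt : ℝ) + 1 := by
    refine le_of_sq_le_sq ?_ (by positivity)
    rw [hθ]
    exact_mod_cast (Nat.lt_succ_sqrt' r).le
  obtain ⟨δ1, δ2, hD, h1, h2, h3⟩ : ∃ δ1 δ2 : ℕ, δ1 + δ2 + 1 = r.sqrt ∧ 4 ≤ δ1 ∧ δ1 ≤ δ2 ∧
      δ2 ≤ δ1 + 1 := ⟨(r.sqrt - 1) / 2, r.sqrt - 1 - (r.sqrt - 1) / 2, by omega, by omega,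
        by omega, by omega⟩
  rw [← hD] at hs1 hs2
  push_cast at hs1 hs2
  have a1 : (4 : ℝ) ≤ δ1 := by exact_mod_cast h1
  have a2 : (δ1 : ℝ) ≤ δ2 := by exact_mod_cast h2
  have a3 : (δ2 : ℝ) ≤ δ1 + 1 := by exact_mod_cast h3
  obtain ⟨D, hDD⟩ : ∃ D : ℝ, D = δ1 + δ2 := ⟨_, rfl⟩
  have hD0 : 0 < D := by linarith
  have hθ9 : 9 ≤ θ := by linarith
  have b1 : (δ1 : ℝ) * θ ≤ ⌈(δ1 : ℝ) * θ⌉₊ := Nat.le_ceil _
  have b2 : (⌈(δ1 : ℝ) * θ⌉₊ : ℝ) < δ1 * θ + 1 := Nat.ceil_lt_add_one (by positivity)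
  generalize ⌈(δ1 : ℝ) * θ⌉₊ = c1 at *
  have b3 : (c1 : ℝ) * θ / D ≤ ⌈(c1 : ℝ) * θ / D⌉₊ := Nat.le_ceil _
  have b4 : (⌈(c1 : ℝ) * θ / D⌉₊ : ℝ) < c1 * θ / D + 1 := Nat.ceil_lt_add_one (by positivity)
  generalize ⌈(c1 : ℝ) * θ / D⌉₊ = n1 at *
  have t1 : 4 * 9 ≤ (δ2 : ℝ) * θ := mul_le_mul (by linarith) hθ9 (by norm_num) (by positivity)
  have t2 : 4 * 9 ≤ (δ1 : ℝ) * θ := mul_le_mul (by linarith) hθ9 (by norm_num) (by positivity)
  have b5 : (δ2 : ℝ) * θ - 3 / 2 ≤ ⌈(δ2 : ℝ) * θ - 3 / 2⌉₊ := Nat.le_ceil _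
  have b6 : (⌈(δ2 : ℝ) * θ - 3 / 2⌉₊ : ℝ) < δ2 * θ - 3 / 2 + 1 :=
    Nat.ceil_lt_add_one (by linarith)
  generalize ⌈(δ2 : ℝ) * θ - 3 / 2⌉₊ = c2 at *
  rw [div_le_iff₀ hD0] at b3
  have b4' : (n1 : ℝ) * D < c1 * θ + D := by
    have := mul_lt_mul_of_pos_right b4 hD0
    rwa [add_mul, div_mul_cancel₀ _ hD0.ne', one_mul] at this
  have e1 : (δ2 : ℝ) * θ ^ 2 - θ - D ≤ (r - n1) * D := by
    have := mul_le_mul_of_nonneg_right b2.le hθ0
    rw [← hθ, hDD] at *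
    linarith
  have e2 : (c2 : ℝ) * D < (r - n1) * D := by
    have u1 := mul_le_mul_of_nonneg_right b6.le hD0.le
    have u2 : (δ2 : ℝ) * θ * (D + 1) ≤ δ2 * θ * θ :=
      mul_le_mul_of_nonneg_left (by linarith) (by positivity)
    have u3 : 4 * θ ≤ δ2 * θ := mul_le_mul_of_nonneg_right (by linarith) hθ0
    linarith
  have e3 : (c2 : ℝ) < r - n1 := lt_of_mul_lt_mul_right e2 hD0.le
  have e4 : c2 + n1 < r := by exact_mod_cast (by linarith : (c2 : ℝ) + n1 < r)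
  have e5 : (c1 : ℝ) ≤ n1 := by
    apply le_of_mul_le_mul_right _ hD0
    have : (c1 : ℝ) * D ≤ c1 * θ := mul_le_mul_of_nonneg_left (by linarith) (by positivity)
    linarith
  refine ⟨δ1, δ2, c1, c2, n1, r - n1, by omega, by omega, by omega, ?_, ?_, by exact_mod_cast e5,
    by omega, b1, hDD ▸ b3, b5, by linarith, ?_, by linarith, ?_⟩
  · exact_mod_cast (by linarith : (1 : ℝ) ≤ c1)
  · exact_mod_cast (by linarith : (1 : ℝ) ≤ c2)
  · rw [Nat.cast_sub (by omega), ← hDD]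
    linarith
  · have u1 : (θ - 2) ^ 2 ≤ ((δ1 : ℝ) + δ2) ^ 2 := pow_le_pow_left₀ (by linarith) (by linarith) 2
    have u2 : ((δ2 : ℝ) - δ1) ^ 2 ≤ 1 ^ 2 := pow_le_pow_left₀ (by linarith) (by linarith) 2
    linarith

theorem all_r (r : ℕ) (hr : 81 < r) :
    SqBound.{u} r ((r : ℝ) - 6 / ((r : ℝ) - 9 * Real.sqrt r)) := by
  classical
  intro K _ _ a b hab m d F h0 hF hV
  refine forms_of_prime (by omega) _ (fun f hf m hm => ?_) a b hab m d F h0 hF hV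
  have hr0 : (0 : ℝ) < r := by exact_mod_cast (by omega : 0 < r)
  have hθ0 := Real.sqrt_nonneg (r : ℝ)
  have hθ := Real.sq_sqrt hr0.le
  generalize Real.sqrt r = θ at *
  have hθ9 : 9 < θ := by
    refine lt_of_pow_lt_pow_left₀ 2 hθ0 ?_
    rw [hθ]
    exact_mod_cast hr
  obtain ⟨μ, hμ⟩ : ∃ μ : ℝ, μ = (∑ s, (m s : ℝ)) / r := ⟨_, rfl⟩
  have hμ0 : 0 ≤ μ := by rw [hμ]; positivity
  have hsum : ∑ s, (m s : ℝ) = r * μ := by rw [hμ]; field_simp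
  obtain ⟨z, V, hVdef, hz, hx⟩ := xu_mean (primeLike_bot K) hf m hm μ hμ0 (by simpa using hsum)
  rw [Fintype.card_fin] at hx
  rw [hsum]
  by_contra hcon
  push Not at hcon
  obtain ⟨w, hw⟩ : ∃ w : ℝ, w = (r - 9 * θ) / 6 := ⟨_, rfl⟩
  have hw0 : 0 < w := by
    have := mul_pos (by linarith : 0 < θ) (by linarith : 0 < θ - 9)
    rw [hw]
    linarith
  have hw1 : 6 / ((r : ℝ) - 9 * θ) = 1 / w := by
    rw [hw]; field_simp
  rw [hw1] at hcon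
  have hD0 : (0 : ℝ) ≤ f.totalDegree := by positivity
  have h1 : (f.totalDegree : ℝ) ^ 2 < (r - 1 / w) * μ ^ 2 := by
    apply lt_of_mul_lt_mul_left _ (sq_nonneg (r : ℝ))
    linarith
  by_cases hbig : r / 6 - 4 * θ / 3 - 1 / 2 ≤ μ
  · have e1 : w + 1 ≤ μ := by rw [hw]; linarith
    have e2 : μ + 1 / 4 ≤ 1 / w * μ ^ 2 := by
      rw [div_mul_eq_mul_div, le_div_iff₀ hw0]
      linarith [mul_le_mul_of_nonneg_left e1 hμ0]
    linarith [sq_nonneg (z - 1 / 2)]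
  push Not at hbig
  have h2 : (f.totalDegree : ℝ) ^ 2 < (θ * μ) ^ 2 := by
    have : 0 ≤ 1 / w * μ ^ 2 := by positivity
    rw [mul_pow, hθ]
    linarith
  have h3 : (f.totalDegree : ℝ) < θ * μ := lt_of_pow_lt_pow_left₀ 2 (by positivity) h2
  have hV2 : 2 * V ≤ θ ^ 2 := by
    rw [mul_pow, hθ] at h2
    linarith [sq_nonneg (z - 1)]
  have hΔ : ∀ s t, ((m s : ℝ) - μ) - ((m t : ℝ) - μ) ≤ θ := by
    intro s t
    by_cases hst : s = t
    · rw [hst, sub_self]; exact hθ0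
    refine le_of_sq_le_sq ?_ hθ0
    have a1 := Finset.sum_le_sum_of_subset_of_nonneg (f := fun s => ((m s : ℝ) - μ) ^ 2)
      (Finset.subset_univ {s, t}) (fun _ _ _ => sq_nonneg _)
    rw [Finset.sum_pair hst, ← hVdef] at a1
    linarith [sq_nonneg (((m s : ℝ) - μ) + ((m t : ℝ) - μ))]
  obtain ⟨δ1, δ2, c1, c2, n1, n2, hn, hδ1, hδ2, hc1, hc2, hcn1, hcn2, p1, p2, p3, p4, p5, p6, p7⟩ :=
    two_params r hr θ hθ0 hθ
  have hz0 : ∑ s, ((m s : ℝ) - μ) = 0 := by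
    simp [Finset.sum_sub_distrib, hsum]
  obtain ⟨S, hS, e0, e1⟩ := exists_balanced (fun s => (m s : ℝ) - μ) hz0 hθ0 hΔ
    (n := n1) (by rw [Fintype.card_fin]; omega)
  have hSc : Sᶜ.card = n2 := by rw [Finset.card_compl, Fintype.card_fin, hS]; omega
  rw [Finset.sum_sub_distrib, Finset.sum_const, hS, nsmul_eq_mul] at e0 e1
  have hnR : (n1 : ℝ) + n2 = r := by exact_mod_cast hn
  have e2 : n2 * μ - θ ≤ ∑ s ∈ Sᶜ, (m s : ℝ) := by
    have := Finset.sum_add_sum_compl S fun s => (m s : ℝ)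
    rw [hsum, ← hnR] at this
    linarith
  let A := MvPolynomial (Fin r ⊕ Fin r) (⊥ : Subfield K)
  let L := FractionRing A
  have hinj : Function.Injective (algebraMap A L) := IsFractionRing.injective A L
  have htd : (MvPolynomial.map (algebraMap A L) f).totalDegree = f.totalDegree := by
    simp only [MvPolynomial.totalDegree, MvPolynomial.support_map_of_injective _ hinj]
  have q1 : (1 : ℝ) ≤ δ1 := by exact_mod_cast hδ1
  have q2 : (1 : ℝ) ≤ δ2 := by exact_mod_cast hδ2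
  have q3 : (1 : ℝ) ≤ c1 := by exact_mod_cast hc1
  have q4 : (1 : ℝ) ≤ c2 := by exact_mod_cast hc2
  have q5 : (c1 : ℝ) ≤ n1 := by exact_mod_cast hcn1
  have q6 : (c2 : ℝ) ≤ n2 := by exact_mod_cast hcn2
  have q7 : 3 / 2 * μ + θ + 3 / 2 ≤ (δ1 : ℝ) * δ2 := by linarith
  refine two_clusters (K := K) (Subfield.subtype (⊥ : Subfield K)) S hδ1 hδ2 hc1 hc2
    (hS ▸ hcn1) (hSc ▸ hcn2) m (algebraMap A L) hinj (MvPolynomial.map (algebraMap A L) f)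
    (fun h => hf.ne_zero (MvPolynomial.map_injective _ hinj (by rw [h, map_zero])))
    (fun s => van_map _ (hm s)) ?_ ?_ ?_ ?_
  all_goals
    simp only [htd, hS, hSc]
    generalize (f.totalDegree : ℝ) = D at *
    generalize ∑ s ∈ S, (m s : ℝ) = W1 at *
    generalize ∑ s ∈ Sᶜ, (m s : ℝ) = W2 at *
  · have u1 := mul_lt_mul_of_pos_left h3 (mul_pos (by linarith : (0 : ℝ) < n1) (by linarith : (0 : ℝ) < δ1))
    have u2 := mul_le_mul_of_nonneg_right p1 (by positivity : (0 : ℝ) ≤ n1 * μ)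
    have u3 := mul_nonneg (by linarith : (0 : ℝ) ≤ c1) e0
    linarith
  · have u1 := mul_lt_mul_of_pos_left h3 (by linarith : (0 : ℝ) < c1)
    have u2 := mul_le_mul_of_nonneg_right p2 hμ0
    have u3 := mul_nonneg e0 (by positivity : (0 : ℝ) ≤ δ1 + δ2)
    linarith
  · have u1 := mul_lt_mul_of_pos_left h3 (mul_pos (by linarith : (0 : ℝ) < n2) (by linarith : (0 : ℝ) < δ2))
    have u2 := mul_le_mul_of_nonneg_right p3 (by positivity : (0 : ℝ) ≤ n2 * μ)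
    have u3 := mul_le_mul_of_nonneg_left e2 (by linarith : (0 : ℝ) ≤ c2)
    have u4 := mul_le_mul_of_nonneg_right q6 hθ0
    have u5 := mul_le_mul_of_nonneg_left q7 (by positivity : (0 : ℝ) ≤ n2)
    linarith
  · have u1 := mul_lt_mul_of_pos_left h3 (by linarith : (0 : ℝ) < c2)
    have u2 := mul_le_mul_of_nonneg_right p4 (by positivity : (0 : ℝ) ≤ θ * μ)
    have u3 := mul_le_mul_of_nonneg_right e2 (by positivity : (0 : ℝ) ≤ δ1 + δ2)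
    have u4 := mul_le_mul_of_nonneg_right p5 hμ0
    have u5 := mul_le_mul_of_nonneg_left q7 hθ0
    have u6 := mul_le_mul_of_nonneg_left p6 hθ0
    have u7 := mul_le_mul_of_nonneg_right p3 (by linarith : (0 : ℝ) ≤ δ1)
    linarith

end Pool.Agent.MP_d0dfcd_ag

end MrgPart1

-- marker of a merged file
example : 731051 + 113363 = 731051 + 113363 := rfl
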