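import Mathlib
import Pool.Agent.MP_d0dfcd_ag.Cluster

/-! Three clusters attached to two Farey neighbours of `√r` and their mediant. -/

namespace Pool.Agent.MP_d0dfcd_ag

theorem three_int (r p1 q1 p2 q2 : ℤ) (hdet : p2 * q1 = p1 * q2 + 1)
    (h1 : p1 ^ 2 + 12 * q1 ≤ r * q1 ^ 2) (h2 : r * q2 ^ 2 + 12 * q2 ≤ p2 ^ 2)
    (hq1 : 1 ≤ q1) (hq2 : 1 ≤ q2) (hp : 2 * q1 ≤ p1) :
    ∃ n1 n2 n3 Z : ℤ, p1 ≤ n1 ∧ p2 ≤ n2 ∧ p1 + p2 ≤ n3 ∧ n1 + n2 + n3 = r ∧ 0 ≤ Z ∧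
      Z ≤ n1 * p2 * (p1 + p2) ∧
      n1 * (q1 * p2 * (p1 + p2)) ^ 2 + n2 * (q2 * p1 * (p1 + p2)) ^ 2 +
        n3 * ((q1 + q2) * p1 * p2) ^ 2 = (p1 * p2 * (p1 + p2)) ^ 2 + Z := by
  have hp1 : 2 ≤ p1 := by omega
  have hp2 : 2 * q2 + 1 ≤ p2 := by
    by_contra h
    have h' : p2 ≤ 2 * q2 := by omega
    linarith [mul_le_mul_of_nonneg_right h' (by omega : 0 ≤ q1),
      mul_le_mul_of_nonneg_right hp (by omega : 0 ≤ q2)]
  obtain ⟨p3, hp3⟩ : ∃ p3, p3 = p1 + p2 := ⟨_, rfl⟩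
  obtain ⟨q3, hq3⟩ : ∃ q3, q3 = q1 + q2 := ⟨_, rfl⟩
  obtain ⟨j2, hj2⟩ : ∃ j2, j2 = p2 ^ 2 - r * q2 ^ 2 := ⟨_, rfl⟩
  obtain ⟨A, hA⟩ : ∃ A, A = 2 * q2 * p3 + 1 := ⟨_, rfl⟩
  have hp3pos : 0 < p3 := by omega
  have hp2pos : 0 < p2 := by omega
  have hp1pos : 0 < p1 := by omega
  have hq1pos : 0 < q1 := by omega
  have hq2pos : 0 < q2 := by omega
  have hqp : 1 ≤ q2 * p3 := mul_pos hq2pos hp3pos
  have hApos : 0 < A := by linarith
  obtain ⟨w, ρ, hρ0, hρA, hw⟩ : ∃ w ρ, 0 ≤ ρ ∧ ρ < A ∧ j2 * p1 * p3 ^ 2 = A * w + ρ :=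
    ⟨j2 * p1 * p3 ^ 2 / A, j2 * p1 * p3 ^ 2 % A, Int.emod_nonneg _ hApos.ne',
      Int.emod_lt_of_pos _ hApos, (Int.mul_ediv_add_emod _ _).symm⟩
  obtain ⟨c, e, he0, he1, hce⟩ : ∃ c e, 0 ≤ e ∧ e < p3 ∧ -w * q3 = p3 * c + e :=
    ⟨-w * q3 / p3, -w * q3 % p3, Int.emod_nonneg _ hp3pos.ne',
      Int.emod_lt_of_pos _ hp3pos, (Int.mul_ediv_add_emod _ _).symm⟩
  have hd3 : p3 * q1 = p1 * q3 + 1 := by rw [hp3, hq3]; linear_combination hdet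
  obtain ⟨n3, hn3⟩ : ∃ n3, n3 = p3 + e := ⟨_, rfl⟩
  obtain ⟨n1, hn1⟩ : ∃ n1, n1 = w * q1 + c * p1 - p1 := ⟨_, rfl⟩
  have hrel : n1 * p3 + n3 * p1 = w := by
    rw [hn1, hn3]
    linear_combination w * hd3 - p1 * hce
  have hj12 : 12 * q2 ≤ j2 := by omega
  have hw4 : 4 * p1 * p3 ≤ w := by
    by_contra h
    have h' : w + 1 ≤ 4 * p1 * p3 := by omega
    have e1 : A * (w + 1) ≤ A * (4 * p1 * p3) := mul_le_mul_of_nonneg_left h' hApos.le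
    have e2 : A ≤ 3 * q2 * p3 := by linarith
    have e3 : A * (4 * p1 * p3) ≤ 3 * q2 * p3 * (4 * p1 * p3) :=
      mul_le_mul_of_nonneg_right e2 (by positivity)
    have e4 : 12 * q2 * (p1 * p3 ^ 2) ≤ j2 * (p1 * p3 ^ 2) :=
      mul_le_mul_of_nonneg_right hj12 (by positivity)
    linarith
  have hn1p : 2 * p1 ≤ n1 := by
    have e1 : n3 * p1 ≤ 2 * p3 * p1 := mul_le_mul_of_nonneg_right (by omega) (by omega)
    have e2 : 2 * p1 * p3 ≤ n1 * p3 := by linarith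
    exact le_of_mul_le_mul_right e2 hp3pos
  have hn1pos : 0 < n1 := by omega
  have hj2le : j2 ≤ 2 * p2 := by
    have e1 : p1 ^ 2 * q2 ^ 2 ≤ r * q1 ^ 2 * q2 ^ 2 :=
      mul_le_mul_of_nonneg_right (by omega) (by positivity)
    have e2 : j2 * q1 ^ 2 ≤ 2 * p2 * q1 := by
      have : p2 ^ 2 * q1 ^ 2 = p1 ^ 2 * q2 ^ 2 + 2 * (p2 * q1) - 1 := by
        linear_combination (p2 * q1 + p1 * q2 - 1) * hdet
      rw [hj2]
      linarith
    have e3 : j2 * q1 ≤ 2 * p2 := le_of_mul_le_mul_right (by linarith) (by omega : 0 < q1)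
    linarith [mul_le_mul_of_nonneg_left hq1 (by omega : 0 ≤ j2)]
  have hn1le : n1 ≤ p1 * p2 := by
    have e1 : n1 * p3 ≤ w := by linarith [mul_pos (by omega : 0 < n3) hp1pos]
    have e2 : 2 * q2 * p3 * (n1 * p3) ≤ A * w :=
      mul_le_mul (by omega) e1 (by positivity) hApos.le
    have e3 : 2 * q2 * n1 * p3 ^ 2 ≤ j2 * p1 * p3 ^ 2 := by linarith
    have e4 : 2 * q2 * n1 ≤ j2 * p1 := le_of_mul_le_mul_right e3 (by positivity)
    have e5 : j2 * p1 ≤ 2 * p2 * p1 := mul_le_mul_of_nonneg_right hj2le (by omega)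
    have e6 : n1 ≤ q2 * n1 := by linarith [mul_le_mul_of_nonneg_right hq2 hn1pos.le]
    linarith
  have hAle : A ≤ p2 * p3 := by linarith [mul_le_mul_of_nonneg_right hp2 hp3pos.le]
  obtain ⟨Z, hZ⟩ : ∃ Z, Z = n1 * p2 * p3 - p1 * ρ := ⟨_, rfl⟩
  have hZ0 : 0 ≤ Z := by
    have e1 : p1 * ρ ≤ p1 * (p2 * p3) := mul_le_mul_of_nonneg_left (by omega) (by omega)
    have e2 : p1 * (p2 * p3) ≤ n1 * (p2 * p3) :=
      mul_le_mul_of_nonneg_right (by omega) (by positivity)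
    linarith
  have hZle : Z ≤ n1 * p2 * p3 := by
    have : 0 ≤ p1 * ρ := by positivity
    omega
  have hd2 : q3 * p2 = q2 * p3 + 1 := by rw [hp3, hq3]; linear_combination hdet
  have hmain : n1 * (q1 * p2 * p3) ^ 2 + (r - n1 - n3) * (q2 * p1 * p3) ^ 2 +
      n3 * (q3 * p1 * p2) ^ 2 = (p1 * p2 * p3) ^ 2 + Z := by
    have a1 : (q1 * p2) ^ 2 = (q2 * p1) ^ 2 + (2 * q2 * p1 + 1) := by
      linear_combination (p2 * q1 + p1 * q2 + 1) * hdet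
    have a2 : (q3 * p2) ^ 2 = (q2 * p3) ^ 2 + A := by
      rw [hA]; linear_combination (q3 * p2 + q2 * p3 + 1) * hd2
    have a3 : p3 * (2 * q2 * p1 + 1) = p1 * A + p2 := by rw [hA, hp3]; ring
    rw [hZ]
    linear_combination n1 * p3 ^ 2 * a1 + n3 * p1 ^ 2 * a2 + n1 * p3 * a3 + p1 * A * hrel
      - p1 * hw + p1 ^ 2 * p3 ^ 2 * hj2
  have hn2 : p2 ≤ r - n1 - n3 := by
    by_contra h
    obtain ⟨n2, hn2⟩ : ∃ n2, n2 = r - n1 - n3 := ⟨_, rfl⟩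
    have h' : n2 ≤ p2 := by omega
    have a1 : (q2 * p1) ^ 2 = (q1 * p2) ^ 2 - (2 * (q1 * p2) - 1) := by
      linear_combination (-(p2 * q1) - p1 * q2 + 1) * hdet
    have a2 : (q3 * p1) ^ 2 = (q1 * p3) ^ 2 - (2 * (q1 * p3) - 1) := by
      linear_combination (-(p3 * q1) - p1 * q3 + 1) * hd3
    have a3 : (r * q1 ^ 2 - p1 ^ 2) * (p2 * p3) ^ 2 =
        Z + n2 * (p3 ^ 2 * (2 * (q1 * p2) - 1)) + n3 * (p2 ^ 2 * (2 * (q1 * p3) - 1)) := by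
      rw [hn2]
      linear_combination hmain - (r - n1 - n3) * p3 ^ 2 * a1 - n3 * p2 ^ 2 * a2
    have hqp2 : 1 ≤ q1 * p2 := mul_pos hq1pos hp2pos
    have hqp3 : 1 ≤ q1 * p3 := mul_pos hq1pos hp3pos
    have b1 : n2 * (p3 ^ 2 * (2 * (q1 * p2) - 1)) ≤ p2 * (p3 ^ 2 * (2 * (q1 * p2))) := by
      calc _ ≤ p2 * (p3 ^ 2 * (2 * (q1 * p2) - 1)) :=
            mul_le_mul_of_nonneg_right h' (mul_nonneg (by positivity) (by omega))
        _ ≤ _ := mul_le_mul_of_nonneg_left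
            (mul_le_mul_of_nonneg_left (by omega) (by positivity)) (by omega)
    have b2 : n3 * (p2 ^ 2 * (2 * (q1 * p3) - 1)) ≤ (2 * p3) * (p2 ^ 2 * (2 * (q1 * p3))) :=
      mul_le_mul (by omega) (mul_le_mul_of_nonneg_left (by omega) (by positivity))
        (mul_nonneg (by positivity) (by omega)) (by omega)
    have b3 : n1 * (p2 * p3) ≤ (q1 * (p2 * p3)) * (p2 * p3) := by
      apply mul_le_mul_of_nonneg_right _ (by positivity)
      have : p1 * p2 ≤ p2 * p3 := by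
        linarith [mul_le_mul_of_nonneg_left (by omega : p1 ≤ p3) hp2pos.le]
      have : p2 * p3 ≤ q1 * (p2 * p3) := by
        linarith [mul_le_mul_of_nonneg_right hq1 (mul_pos hp2pos hp3pos).le]
      omega
    have b4 : 12 * q1 * (p2 * p3) ^ 2 ≤ (r * q1 ^ 2 - p1 ^ 2) * (p2 * p3) ^ 2 :=
      mul_le_mul_of_nonneg_right (by omega) (by positivity)
    have b5 : 0 < q1 * (p2 * p3) ^ 2 := by positivity
    linarith
  refine ⟨n1, r - n1 - n3, n3, Z, by omega, hn2, by omega, by ring, hZ0, ?_, ?_⟩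
  · rw [← hp3]; exact hZle
  · rw [← hp3, ← hq3]; exact hmain

theorem farey_bound {K σ : Type*} [Field K] [Infinite K] [Fintype σ] (r p1 q1 p2 q2 : ℕ)
    (hr : r ≤ Fintype.card σ) (hdet : p2 * q1 = p1 * q2 + 1)
    (h1 : p1 ^ 2 + 12 * q1 ≤ r * q1 ^ 2) (h2 : r * q2 ^ 2 + 12 * q2 ≤ p2 ^ 2)
    (hq1 : 1 ≤ q1) (hq2 : 1 ≤ q2) (hp : 2 * q1 ≤ p1)
    (a b : σ → K) (hab : AlgebraicIndependent (⊥ : Subfield K) (Sum.elim a b))
    (m d : ℕ) (F : MvPolynomial (Fin 3) K) (h0 : F ≠ 0) (hF : F.IsHomogeneous d)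
    (hV : ∀ s, F ∈ Ideal.span {MvPolynomial.X 1 - MvPolynomial.C (a s) * MvPolynomial.X 0,
      MvPolynomial.X 2 - MvPolynomial.C (b s) * MvPolynomial.X 0} ^ m) :
    ((r : ℝ) - 2 * (r : ℝ) ^ 2 / ((p1 : ℝ) * p2) ^ 2) * (m : ℝ) ^ 2 ≤ (d : ℝ) ^ 2 := by
  obtain ⟨N1, N2, N3, Z, g1, g2, g3, hsum, hZ0, hZ1, hid⟩ := three_int r p1 q1 p2 q2
    (by exact_mod_cast hdet) (by exact_mod_cast h1) (by exact_mod_cast h2)
    (by exact_mod_cast hq1) (by exact_mod_cast hq2) (by exact_mod_cast hp)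
  lift N1 to ℕ using (by omega) with n1
  lift N2 to ℕ using (by omega) with n2
  lift N3 to ℕ using (by omega) with n3
  have hp1 : 1 ≤ p1 := by omega
  have hp2 : 1 ≤ p2 := by
    rcases Nat.eq_zero_or_pos p2 with h | h
    · rw [h] at hdet; omega
    · exact h
  have P1 : (1 : ℝ) ≤ p1 := by exact_mod_cast hp1
  have P2 : (1 : ℝ) ≤ p2 := by exact_mod_cast hp2
  have hsumN : n1 + n2 + n3 = r := by exact_mod_cast hsum
  have hsumR : (n1 : ℝ) + n2 + n3 = r := by exact_mod_cast hsum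
  have hidR : (n1 : ℝ) * (q1 * p2 * (p1 + p2)) ^ 2 + n2 * (q2 * p1 * (p1 + p2)) ^ 2 +
      n3 * ((q1 + q2) * p1 * p2) ^ 2 = (p1 * p2 * (p1 + p2)) ^ 2 + (Z : ℝ) := by
    exact_mod_cast hid
  have hZ0R : (0 : ℝ) ≤ Z := by exact_mod_cast hZ0
  have hZ1R : (Z : ℝ) ≤ n1 * p2 * (p1 + p2) := by exact_mod_cast hZ1
  have hdetR : (p2 : ℝ) * q1 = p1 * q2 + 1 := by exact_mod_cast hdet
  obtain ⟨x1, hx1⟩ : ∃ x : ℝ, x = q1 / p1 := ⟨_, rfl⟩
  obtain ⟨x2, hx2⟩ : ∃ x : ℝ, x = q2 / p2 := ⟨_, rfl⟩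
  obtain ⟨x3, hx3⟩ : ∃ x : ℝ, x = (q1 + q2) / (p1 + p2) := ⟨_, rfl⟩
  obtain ⟨S, hS⟩ : ∃ S : ℝ, S = n1 * x1 ^ 2 + n2 * x2 ^ 2 + n3 * x3 ^ 2 := ⟨_, rfl⟩
  obtain ⟨κ, hκ⟩ : ∃ κ : ℝ, κ = 1 / ((p1 : ℝ) * p2) := ⟨_, rfl⟩
  have hκ0 : 0 < κ := by rw [hκ]; positivity
  have hS1 : S = 1 + Z / ((p1 : ℝ) * p2 * (p1 + p2)) ^ 2 := by
    rw [hS, hx1, hx2, hx3]
    field_simp
    linear_combination hidR
  have hSge : 1 ≤ S := by
    rw [hS1]
    have : (0 : ℝ) ≤ Z / ((p1 : ℝ) * p2 * (p1 + p2)) ^ 2 := by positivity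
    linarith
  have hn1r : (n1 : ℝ) ≤ r := by exact_mod_cast (by omega : n1 ≤ r)
  have hSle : S - 1 ≤ r * κ ^ 2 := by
    rw [hS1, add_sub_cancel_left, hκ, div_le_iff₀ (by positivity)]
    refine hZ1R.trans ?_
    have : (r : ℝ) * (1 / ((p1 : ℝ) * p2)) ^ 2 * ((p1 : ℝ) * p2 * (p1 + p2)) ^ 2 =
        r * (p1 + p2) * (p1 + p2) := by field_simp
    rw [this]
    gcongr
    linarith
  have hSpos : 0 < S := by linarith
  have key := cluster_bound (ι := Fin 3) ![n1, n2, n3] ![q1, q2, q1 + q2] ![p1, p2, p1 + p2]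
    ![x1 / S, x2 / S, x3 / S]
    (by intro i; fin_cases i <;> simp <;> omega)
    (by intro i; fin_cases i <;> simp <;> omega)
    (by intro i; fin_cases i <;> simp <;> omega)
    (by
      intro i
      fin_cases i <;> simp only [hx1, hx2, hx3] <;> simp <;> positivity)
    (by
      have hh : ∀ p q : ℝ, 0 < p → 0 ≤ q → q / p / S * p ≤ q := fun p q hp hq => by
        rw [show q / p / S * p = q / S by field_simp]
        exact div_le_self hq hSge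
      intro i
      fin_cases i
      · simpa [hx1] using hh p1 q1 (by positivity) (by positivity)
      · simpa [hx2] using hh p2 q2 (by positivity) (by positivity)
      · simpa [hx3] using hh (p1 + p2) (q1 + q2) (by positivity) (by positivity))
    (by
      rw [Fin.sum_univ_three]
      simp only [Matrix.cons_val_zero, Matrix.cons_val_one, Matrix.cons_val]
      push_cast
      apply le_of_eq
      have : (n1 : ℝ) * q1 * (x1 / S) / p1 + n2 * q2 * (x2 / S) / p2 +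
          n3 * (q1 + q2) * (x3 / S) / (p1 + p2) = S / S := by
        rw [hS, hx1, hx2, hx3]
        field_simp
      rw [this, div_self hSpos.ne'])
    (by rw [Fin.sum_univ_three]; simp; omega) a b hab m d F h0 hF hV
  rw [Fin.sum_univ_three] at key
  simp only [Matrix.cons_val_zero, Matrix.cons_val_one, Matrix.cons_val] at key
  obtain ⟨τ, hτ⟩ : ∃ τ : ℝ, τ = n1 * (x1 / S) + n2 * (x2 / S) + n3 * (x3 / S) := ⟨_, rfl⟩
  rw [← hτ] at key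
  have hτ0 : 0 ≤ τ := by rw [hτ, hx1, hx2, hx3]; positivity
  have d12 : x1 - x2 = κ := by
    rw [hx1, hx2, hκ]; field_simp; linear_combination hdetR
  have d13 : 0 ≤ x1 - x3 := by
    have : x1 - x3 = 1 / (p1 * (p1 + p2)) := by
      rw [hx1, hx3]; field_simp; linear_combination hdetR
    rw [this]; positivity
  have d32 : 0 ≤ x3 - x2 := by
    have : x3 - x2 = 1 / (p2 * (p1 + p2)) := by
      rw [hx2, hx3]; field_simp; linear_combination hdetR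
    rw [this]; positivity
  obtain ⟨V, hVdef⟩ : ∃ V : ℝ, V = n1 * n2 * (x1 - x2) ^ 2 + n1 * n3 * (x1 - x3) ^ 2 +
    n2 * n3 * (x3 - x2) ^ 2 := ⟨_, rfl⟩
  have hV0 : 0 ≤ V := by rw [hVdef]; positivity
  have hVle : V ≤ r ^ 2 * κ ^ 2 := by
    have e1 : (x1 - x3) ^ 2 ≤ κ ^ 2 := pow_le_pow_left₀ d13 (by linarith) 2
    have e2 : (x3 - x2) ^ 2 ≤ κ ^ 2 := pow_le_pow_left₀ d32 (by linarith) 2
    have e3 : V ≤ (n1 * n2 + n1 * n3 + n2 * n3) * κ ^ 2 := by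
      rw [hVdef, d12]
      have f1 := mul_le_mul_of_nonneg_left e1 (by positivity : (0 : ℝ) ≤ n1 * n3)
      have f2 := mul_le_mul_of_nonneg_left e2 (by positivity : (0 : ℝ) ≤ n2 * n3)
      linarith
    refine e3.trans (mul_le_mul_of_nonneg_right ?_ (by positivity))
    rw [← hsumR]
    have : (0 : ℝ) ≤ n1 ^ 2 + n2 ^ 2 + n3 ^ 2 + (n1 * n2 + n1 * n3 + n2 * n3) := by positivity
    linarith
  have hτS : (τ * S) ^ 2 = r * S - V := by
    have : τ * S = n1 * x1 + n2 * x2 + n3 * x3 := by rw [hτ]; field_simp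
    rw [this, hVdef, hS, ← hsumR]
    ring
  have hτ2 : (r : ℝ) - 2 * (r : ℝ) ^ 2 / ((p1 : ℝ) * p2) ^ 2 ≤ τ ^ 2 := by
    have e0 : 2 * (r : ℝ) ^ 2 / ((p1 : ℝ) * p2) ^ 2 = 2 * (r ^ 2 * κ ^ 2) := by
      rw [hκ]; field_simp
    have r0 : (0 : ℝ) ≤ r := by positivity
    have e1 : τ ^ 2 = r / S - V / S ^ 2 := by
      field_simp
      linear_combination hτS
    have e2 : V / S ^ 2 ≤ V := div_le_self hV0 (one_le_pow₀ hSge)
    have e3 : r * (2 - S) ≤ r / S := by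
      rw [le_div_iff₀ hSpos]
      have : 0 ≤ r * (S - 1) ^ 2 := by positivity
      linarith
    have e4 := mul_le_mul_of_nonneg_left hSle r0
    rw [e0, e1]
    linarith
  calc _ ≤ τ ^ 2 * (m : ℝ) ^ 2 := mul_le_mul_of_nonneg_right hτ2 (by positivity)
    _ = (τ * m) ^ 2 := by ring
    _ ≤ _ := pow_le_pow_left₀ (by positivity) key 2

end Pool.Agent.MP_d0dfcd_ag
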