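import Pool.Agent.MP_d0dfcd_ag.Arith
import Pool.Agent.MP_d0dfcd_ag.Count
import Pool.Agent.MP_d0dfcd_ag.Defs

/-! For most `r`, the Waldschmidt constant of `r` generic points satisfies
`e² ≥ r - O(1 / r²)`, in every characteristic. -/

namespace Pool.Agent.MP_d0dfcd_ag

open MvPolynomial

universe u

theorem lowerBound_of (M N r : ℕ) (hM : 1 ≤ M) (hr1 : 1 ≤ r) (hrN : r ≤ N)
    (hb1 : ¬ ∃ q, 1 ≤ q ∧ q ≤ N.sqrt / M ∧ Near (N.sqrt + 1) 12 q r)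
    (hb2 : ¬ ∃ q, 1 ≤ q ∧ q ≤ N.sqrt / M / M ∧ Near (N.sqrt + 1) (12 * M) q r) :
    SqBound.{u} r ((r : ℝ) - 8192 * (M : ℝ) ^ 6 / (r : ℝ) ^ 2) := by
  intro K _ _ a b hab m d F h0 hF hV
  have hr0 : (0 : ℝ) < r := by exact_mod_cast hr1
  by_cases hr : 16 * M ^ 2 ≤ r
  · obtain ⟨p1, q1, p2, q2, hdet, h1, h2, hq1, hq2, hp, hbig, -⟩ :=
      good_farey M N r hM hrN hr hb1 hb2
    refine le_trans (mul_le_mul_of_nonneg_right ?_ (by positivity))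
      (farey_bound r p1 q1 p2 q2 (by simp) hdet h1 h2 hq1 hq2 hp a b hab m d F h0 hF hV)
    have hb : (r : ℝ) ^ 2 ≤ 64 * (M : ℝ) ^ 3 * ((p1 : ℝ) * p2) := by exact_mod_cast hbig
    have hpos : (0 : ℝ) < (p1 : ℝ) * p2 := by
      by_contra h
      have h' : (p1 : ℝ) * p2 = 0 := le_antisymm (not_lt.1 h) (by positivity)
      rw [h', mul_zero] at hb
      exact absurd hb (not_le.2 (by positivity))
    have hb2 : ((r : ℝ) ^ 2) ^ 2 ≤ (64 * (M : ℝ) ^ 3 * ((p1 : ℝ) * p2)) ^ 2 :=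
      pow_le_pow_left₀ (by positivity) hb 2
    have : 2 * (r : ℝ) ^ 2 / ((p1 : ℝ) * p2) ^ 2 ≤ 8192 * (M : ℝ) ^ 6 / (r : ℝ) ^ 2 := by
      rw [div_le_div_iff₀ (by positivity) (by positivity)]
      linarith
    linarith
  · have h1 : (r : ℝ) ≤ 16 * (M : ℝ) ^ 2 := by exact_mod_cast (not_le.1 hr).le
    have h2 : (r : ℝ) ^ 3 ≤ (16 * (M : ℝ) ^ 2) ^ 3 := pow_le_pow_left₀ hr0.le h1 3
    have h3 : (r : ℝ) ≤ 8192 * (M : ℝ) ^ 6 / (r : ℝ) ^ 2 := by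
      rw [le_div_iff₀ (by positivity)]
      have : (0 : ℝ) ≤ (M : ℝ) ^ 6 := by positivity
      linarith
    exact le_trans (mul_nonpos_of_nonpos_of_nonneg (by linarith) (by positivity)) (by positivity)

theorem almost_all (M N : ℕ) (hM : 1 ≤ M) :
    {r : ℕ | 1 ≤ r ∧ r ≤ N ∧ ¬ SqBound.{u} r ((r : ℝ) - 8192 * (M : ℝ) ^ 6 / (r : ℝ) ^ 2)}.ncard * M ≤ 250 * N :=
  density _ M N (fun r h1 h2 => lowerBound_of M N r hM h1 h2) hM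

end Pool.Agent.MP_d0dfcd_ag
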